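import Pool.Agent.Helper40.NR.Val

/-!
# Project RC, SHARP: table of the value of `NS` at the base, m in [0, 13]
-/

set_option autoImplicit false
set_option maxRecDepth 100000

namespace Pool.Agent.Helper40.NR

/-- (m, polynomial, denominator, error) of `a m GA m + conj (b m) GB m` -/
def vT2 : List (ℤ × PZ × ℤ × EE) :=
 [(0, [((4, 1, 1), (137, 0, 0, 245))], 100, [((2, 6), 29839), ((3, 5), 320754), ((4, 4), 5594340), ((5, 3), 8626326), ((6, 2), 8025344)]),
  (1, [((0, 0, 0), (230400000, 0, 0, 0)), ((0, 1, 1), (51840000, 0, 46080000, 25920000)), ((2, 0, 0), (-38016000, 0, -97920000, -47808000)), ((0, 2, 2), (-6300000, -10368000, 10368000, 2916000)), ((2, 1, 1), (-330724800, 23875200, -46915200, -67204800)), ((4, 0, 0), (-76371840, -3916800, 52876800, -7107840)), ((0, 3, 3), (-2073600, -1166400, -2395200, -2073600)), ((2, 2, 2), (-58230360, 46640520, -67580280, -21960360)), ((4, 1, 1), (-95355000, -87264144, 129506256, -33955200)), ((6, 0, 0), (45569815, -13982364, 52950036,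 25902225))], 57600000, [((0, 8), 26363), ((1, 7), 13199), ((2, 6), 1960414), ((3, 5), 10418), ((4, 4), 9253058), ((5, 3), 700486), ((6, 2), 14812644), ((8, 0), 7669558)]),
  (3, [((2, 1, 1), (4647040, 0, 0, 5370400)), ((2, 2, 2), (-2512800, -4680480, -17551776, -777600)), ((4, 1, 1), (52391370, 9946020, 37297524, -1863345))], 4800000, [((1, 7), 43623), ((2, 6), 10525781), ((3, 5), 5166), ((4, 4), 65763327), ((5, 3), 672150), ((6, 2), 114701596)]),
  (4, [((2, 1, 1), (-800, 0, 0, 800)), ((2, 2, 2), (840, -800, -800, 400)), ((4, 1, 1), (449, 1700, 1700, -257))], 1600, [((1, 7), 12976), ((2, 6), 1151887), ((3, 5), 58872), ((4, 4), 1457146), ((6, 2), 4370507)]),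
  (5, [], 1, [((3, 5), 242692), ((4, 4), 2761264), ((5, 3), 4079762), ((6, 2), 1462507)]),
  (6, [((0, 2, 2), (0, 0, -25600, 0)), ((2, 1, 1), (27200, 0, 54400, -101920)), ((0, 3, 3), (30720, 0, 0, 0)), ((2, 2, 2), (-111520, 211680, 105408, -23360)), ((4, 1, 1), (70, -449820, -223992, 342065))], 128000, [((0, 8), 192002), ((1, 7), 30168), ((2, 6), 7437736), ((4, 4), 26618468), ((5, 3), 110524), ((6, 2), 54526357)]),
  (7, [((4, 0, 0), (-4779060, 0, 0, -1971780)), ((4, 1, 1), (-17662830, 2547384, -8769096, -2320290)), ((6, 0, 0), (2462985, -5413191, 18634329, -1737890))], 16800000, [((1, 7), 4176), ((2, 6), 457963), ((3, 5), 98848), ((4, 4), 6177514), ((5, 3), 548282), ((6, 2), 17581483), ((8, 0), 13561398)]),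
  (8, [((2, 2, 2), (739, 0, 0, -115))], 1600, [((2, 6), 2813746), ((3, 5), 243862), ((4, 4), 7879304), ((5, 3), 1872804)]),
  (9, [((2, 1, 1), (-71040, 0, 0, -1740480)), ((2, 2, 2), (338720, 5207328, -3325968, -776720)), ((4, 1, 1), (37616080, -11065572, 7067682, 3527765))], 9600000, [((1, 7), 30115), ((2, 6), 3589676), ((3, 5), 170), ((4, 4), 30462295), ((5, 3), 9282), ((6, 2), 90493755)]),
  (11, [((0, 2, 2), (776180, 0, 0, -106380)), ((0, 3, 3), (0, 468072, 1611368, 0)), ((2, 2, 2), (14865045, -994653, -3424157, 7347115))], 140800000, [((0, 8), 40854), ((1, 7), 28856), ((2, 6), 2150051), ((3, 5), 2608), ((4, 4), 14238422), ((5, 3), 770590)]),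
  (13, [], 1, [((2, 6), 92558), ((3, 5), 313452), ((5, 3), 1045476)])]

theorem vT2_ok : (vT2.all fun x => chkV x.1 x.2.1 x.2.2.1 x.2.2.2) = true := by decide +kernel

end Pool.Agent.Helper40.NR
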