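import Pool.Agent.Helper40.NR.VT1
import Pool.Agent.Helper40.NR.VT2

/-!
# Project RC, SHARP, zone I: the value of `NS` at the base: exact through degree 6
-/

set_option autoImplicit false
set_option maxRecDepth 100000

open MeasureTheory Set Filter Topology

namespace Pool.Agent.Helper40.NR

open Helper49.LT hiding sg rR
open Pool.Agent.Helper99.RC
open Pool.Agent.Helper61.RC

def vTab : List (ℤ × PZ × ℤ × EE) := vT1 ++ vT2

theorem vTab_ok : ∀ x ∈ vTab, chkV x.1 x.2.1 x.2.2.1 x.2.2.2 = true := by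
  intro x hx
  simp only [vTab, List.mem_append] at hx
  rcases hx with h | h
  · exact List.all_eq_true.1 vT1_ok x h
  · exact List.all_eq_true.1 vT2_ok x h

/-- the value, multiplied by `vDen` -/
def vTot : PZ := [((0, 0, 0), (35481600000, 0, 0, 0)), ((0, 1, 1), (1330560000, 0, 7096320000, 6209280000)), ((2, 0, 0), (-14724864000, 0, -15079680000, -16232832000)), ((0, 2, 2), (-922046020, 1951488000, 3370752000, 441277900)), ((2, 1, 1), (38889040080, -8298259200, -8333740800, -7651382640)), ((4, 0, 0), (-23536434240, 8821612800, 2488147200, 2809984320)), ((0, 3, 3), (4648089600, -154040040, -274518552, -3157862400)), ((2, 2, 2), (-78931291155, -19954324467, -82573728237, 9229434405)), ((4, 1, 1), (21776122500, 49736601684, 179478725580, 100105541580)), ((6, 0, 0), (27779165260, -14105909664, -5886101760, 10389857940))]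
/-- denominator -/
def vDen : ℤ := 8870400000

/-- the error of the value -/
def vEt : EE := [((8, 0), 40018787), ((7, 1), 0), ((6, 2), 615443562), ((5, 3), 31523434), ((4, 4), 434228577),
  ((3, 5), 2459074), ((2, 6), 73979530), ((1, 7), 367178), ((0, 8), 899533)]

theorem vTab_nodup : (vTab.map Prod.fst).Nodup := by decide +kernel
theorem vTab_in : ∀ n ∈ vTab.map Prod.fst, n ∈ Finset.Icc (-11 : ℤ) 13 := by decide +kernel
theorem aL_in : ∀ n ∈ aL.map Prod.fst, n ∈ vTab.map Prod.fst := by decide +kernel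
theorem bL_in : ∀ n ∈ bL.map Prod.fst, n ∈ vTab.map Prod.fst := by decide +kernel

/-- the fractions of the table -/
def frs (l : List (ℤ × PZ × ℤ × EE)) : List FP := l.map fun x => (x.2.2.1, x.2.1)

theorem frs_ne : (frs vTab).all (fun f => decide (f.1 ≠ 0)) = true := by decide +kernel
theorem frs_tot : eqP (sumF (frs vTab)).1 vDen (sumF (frs vTab)).2 vTot = true := by decide +kernel

/-- sum of the errors -/
def sumE : List (ℤ × PZ × ℤ × EE) → EE
  | [] => []
  | x :: l => addE x.2.2.2 (sumE l)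

theorem evE_sumE (A β : ℝ) : ∀ l : List (ℤ × PZ × ℤ × EE), evE A β (sumE l) = (l.map fun x => evE A β x.2.2.2).sum
  | [] => by simp [sumE]
  | x :: l => by rw [sumE, evE_add, evE_sumE A β l, List.map_cons, List.sum_cons]

theorem vErr : leE' ms8 (sumE vTab) vEt = true := by decide +kernel

theorem lk_ne_mem (L : List (ℤ × PZ)) (m : ℤ) (h : m ∉ L.map Prod.fst) (A : ℝ) (B : ℂ) : evP A B (lk L m) = 0 := by
  rw [lk_not L m h]; rfl

/-- sum over a finite set = sum over the table -/
theorem sum_tab (S : Finset ℤ) (F : ℤ → ℂ) : ∀ l : List (ℤ × PZ × ℤ × EE), (l.map Prod.fst).Nodup →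
    (∀ n ∈ l.map Prod.fst, n ∈ S) → (∀ n ∈ S, n ∉ l.map Prod.fst → F n = 0) →
    ∑ n ∈ S, F n = (l.map fun x => F x.1).sum := by
  intro l h1 h2 h3
  have h4 : ∑ n ∈ S, F n = ∑ n ∈ (l.map Prod.fst).toFinset, F n := by
    refine (Finset.sum_subset ?_ ?_).symm
    · intro n hn
      exact h2 n (List.mem_toFinset.1 hn)
    · intro n hn hn'
      exact h3 n hn fun h => hn' (List.mem_toFinset.2 h)
  rw [h4, List.sum_toFinset F h1, List.map_map]
  rfl

/-- the value as a real polynomial of `x = A²`, `y = |B|²` -/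
theorem vTot_val (A : ℝ) (B : ℂ) : (evP A B vTot / (vDen : ℂ)).re =
    4 + 3 / 20 * ‖B‖ ^ 2 - 83 / 50 * A ^ 2
    + (-(6586043 / 63360000) + 11 / 50 * Real.sqrt 3) * ‖B‖ ^ 4
    + (14730697 / 3360000 - 1871 / 2000 * Real.sqrt 3) * (A ^ 2 * ‖B‖ ^ 2)
    + (-(742943 / 280000) + 1989 / 2000 * Real.sqrt 3) * A ^ 4
    + (131 / 250 - 5557 / 320000 * Real.sqrt 3) * ‖B‖ ^ 6
    + (-(5262086077 / 591360000) - 28794119 / 12800000 * Real.sqrt 3) * (A ^ 2 * ‖B‖ ^ 4)
    + (263953 / 107520 + 17942497 / 3200000 * Real.sqrt 3) * (A ^ 4 * ‖B‖ ^ 2)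
    + (18038419 / 5760000 - 636089 / 400000 * Real.sqrt 3) * A ^ 6 := by
  have hM : ∀ i k : ℕ, evM A B (2 * i, k, k) = (((A ^ 2) ^ i * (‖B‖ ^ 2) ^ k : ℝ) : ℂ) := evM_real A B
  have hc : ∀ (c : Z4) (i k : ℕ), (ev4 c * evM A B (2 * i, k, k)).re =
      ((c.1 : ℝ) + (c.2.1 : ℝ) * Real.sqrt 3) * ((A ^ 2) ^ i * (‖B‖ ^ 2) ^ k) := by
    intro c i k
    rw [hM]
    generalize ((A ^ 2) ^ i * (‖B‖ ^ 2) ^ k : ℝ) = t
    unfold ev4
    simp only [Complex.mul_re, Complex.add_re, Complex.add_im, Complex.mul_im, Complex.I_re, Complex.I_im,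
      Complex.ofReal_re, Complex.ofReal_im]
    ring
  have hd : (evP A B vTot / (vDen : ℂ)).re = (evP A B vTot).re / (vDen : ℝ) := by
    rw [← Complex.ofReal_intCast, Complex.div_ofReal_re]
  rw [hd]
  unfold vTot vDen
  simp only [evP_cons, evP_nil, Complex.add_re, Complex.zero_re]
  have h0 := hc (35481600000, 0, 0, 0) 0 0
  have h1 := hc (1330560000, 0, 7096320000, 6209280000) 0 1
  have h2 := hc (-14724864000, 0, -15079680000, -16232832000) 1 0
  have h3 := hc (-922046020, 1951488000, 3370752000, 441277900) 0 2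
  have h4 := hc (38889040080, -8298259200, -8333740800, -7651382640) 1 1
  have h5 := hc (-23536434240, 8821612800, 2488147200, 2809984320) 2 0
  have h6 := hc (4648089600, -154040040, -274518552, -3157862400) 0 3
  have h7 := hc (-78931291155, -19954324467, -82573728237, 9229434405) 1 2
  have h8 := hc (21776122500, 49736601684, 179478725580, 100105541580) 2 1
  have h9 := hc (27779165260, -14105909664, -5886101760, 10389857940) 3 0
  simp only [mul_zero, mul_one] at h0 h1 h2 h3 h4 h5 h6 h7 h8 h9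
  rw [show (2 : ℕ) * 2 = 4 from rfl] at h5 h8
  rw [show (2 : ℕ) * 3 = 6 from rfl] at h9
  rw [h0, h1, h2, h3, h4, h5, h6, h7, h8, h9]
  push_cast
  ring

/-- **THE VALUE OF `NS` AT THE BASE** -/
theorem NS_value {A : ℝ} (hA : 0 ≤ A) (hA' : A ≤ 1 / 5) {B : ℂ} (hB : ‖B‖ ≤ 1 / 8) {S : Finset ℤ}
    (hS : Finset.Icc (-11 : ℤ) 13 ⊆ S) :
    |NS (dd A B) A Real.pi S (aC A B) (bC A B) - (evP A B vTot / (vDen : ℂ)).re| ≤ evE A ‖B‖ vEt := by
  have h0 : (0 : ℤ) ∈ S := hS (by rw [Finset.mem_Icc]; omega)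
  set G := GA (dd A B) A Real.pi S (aC A B) (bC A B) with hG
  set H := GB (dd A B) A Real.pi S (aC A B) (bC A B) with hH
  have e1 : NS (dd A B) A Real.pi S (aC A B) (bC A B) =
      (∑ m ∈ S, (aC A B m * G m + (starRingEnd ℂ) (bC A B m) * H m)).re := by
    rw [← NSB_self, NSB_grad _ _ _ S h0, Complex.re_sum, ← Finset.sum_add_distrib]
    exact Finset.sum_congr rfl fun m _ => by rw [Complex.add_re]
  have e2 := sum_tab S (fun m => aC A B m * G m + (starRingEnd ℂ) (bC A B m) * H m) vTab vTab_nodup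
    (fun n hn => hS (vTab_in n hn)) (fun n _ hn => by
      have h1 : aC A B n = 0 := by
        unfold aC
        rw [lk_ne_mem aL n (fun h => hn (aL_in n h)), zero_div]
      have h2 : bC A B n = 0 := by
        unfold bC
        rw [lk_ne_mem bL n (fun h => hn (bL_in n h)), zero_div]
      show aC A B n * G n + (starRingEnd ℂ) (bC A B n) * H n = 0
      rw [h1, h2]; simp)
  have hne : ∀ f ∈ frs vTab, f.1 ≠ 0 := by
    intro f hf
    have := List.all_eq_true.1 frs_ne f hf
    simpa using this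
  have e3 : evP A B vTot / (vDen : ℂ) = ((frs vTab).map (evF A B)).sum := by
    rw [← evF_sum A B _ hne]
    have := evP_eq frs_tot A B (sumF_ne _ hne) (by decide)
    rw [← this]
    rfl
  have e4 : ∀ l : List (ℤ × PZ × ℤ × EE), (∀ x ∈ l, chkV x.1 x.2.1 x.2.2.1 x.2.2.2 = true) →
      ‖(l.map fun x => aC A B x.1 * G x.1 + (starRingEnd ℂ) (bC A B x.1) * H x.1).sum
        - ((frs l).map (evF A B)).sum‖ ≤ evE A ‖B‖ (sumE l) := by
    intro l
    induction l with
    | nil => intro _; simp [frs, sumE]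
    | cons x l ih =>
      intro hl
      have ih' := ih fun y hy => hl y (List.mem_cons_of_mem _ hy)
      have hx := rowV hA hA' hB hS x.1 (hl x List.mem_cons_self)
      rw [sumE, evE_add, frs, List.map_cons, List.sum_cons, List.map_cons, List.map_cons, List.sum_cons]
      have e : aC A B x.1 * G x.1 + (starRingEnd ℂ) (bC A B x.1) * H x.1
          + (l.map fun x => aC A B x.1 * G x.1 + (starRingEnd ℂ) (bC A B x.1) * H x.1).sum
          - (evF A B (x.2.2.1, x.2.1) + ((l.map fun x => (x.2.2.1, x.2.1)).map (evF A B)).sum) =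
          (aC A B x.1 * G x.1 + (starRingEnd ℂ) (bC A B x.1) * H x.1 - evP A B x.2.1 / (x.2.2.1 : ℂ))
          + ((l.map fun x => aC A B x.1 * G x.1 + (starRingEnd ℂ) (bC A B x.1) * H x.1).sum
            - ((frs l).map (evF A B)).sum) := by
        unfold evF frs
        ring
      rw [e]
      exact (norm_add_le _ _).trans (add_le_add hx ih')
  have h5 := e4 vTab vTab_ok
  have h6 := evE_le hA (norm_nonneg B) ms8 _ _ vErr
  rw [e1, e2, e3, ← Complex.sub_re]
  exact ((Complex.abs_re_le_norm _).trans h5).trans h6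

end Pool.Agent.Helper40.NR
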