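import Pool.Agent.Helper40.NR.Err

/-!
# Project RC, SHARP: the coefficients of the base (v1.5, v1.6), multiplied by `1600`

`aL`: coefficients of the family 1 (`c1 2 ..`), `bL`: family 2, of `w`, `w b₀`, `w z₀` with `w = 1 + 2 Re(η e^{2it})`,
`η = -2 A conj B`, `z₀ = A e^{-3it} + B e^{-5it} - conj B e^{5it}/2`, `b₀` = helper33's `cI`.
-/

set_option autoImplicit false

namespace Pool.Agent.Helper40.NR

/-- `1600` times the coefficients of the family 1 at the base -/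
def aL : List (ℤ × PZ) :=
 [(-11, [((1, 3, 0), (-118, 0, 0, -10))]),
  (-9, [((0, 2, 0), (-22, 0, 0, -32)), ((2, 2, 0), (864, 0, 0, -2088))]),
  (-7, [((1, 1, 0), (1782, 0, 0, -306)), ((1, 2, 1), (74, 0, 0, -54)), ((3, 1, 0), (1632, 0, 0, -336))]),
  (-6, [((1, 2, 0), (-3200, 0, 0, 0))]),
  (-5, [((2, 0, 0), (660, 0, 0, 324)), ((2, 1, 1), (2700, 0, 0, 1476))]),
  (-4, [((0, 1, 0), (-800, 0, 0, -800)), ((2, 1, 0), (1600, 0, 0, 1600))]),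
  (-3, [((2, 2, 0), (-800, 0, 0, 1712)), ((3, 0, 1), (-312, 0, 0, 984))]),
  (-2, [((1, 0, 0), (-800, 0, 0, 800)), ((1, 1, 1), (1600, 0, 0, -1600))]),
  (-1, [((1, 1, 0), (116, 0, 0, -1372)), ((1, 2, 1), (720, 0, 0, 0)), ((3, 1, 0), (-528, 0, 0, 0))]),
  (0, [((2, 0, 1), (-3200, 0, 0, 0))]),
  (1, [((0, 0, 0), (1600, 0, 0, 0)), ((0, 1, 1), (180, 0, 0, 180)), ((2, 0, 0), (-132, 0, 0, -132)), ((2, 1, 1), (-992, 0, 0, -992))]),
  (3, [((1, 0, 1), (1696, 0, 0, 1960)), ((1, 1, 2), (-360, 0, 0, 360)), ((3, 0, 1), (264, 0, 0, -264))]),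
  (4, [((1, 1, 1), (-800, 0, 0, 800))]),
  (5, [((2, 0, 2), (-984, 0, 0, 456)), ((3, 1, 0), (-1280, 0, 0, 336))]),
  (6, [((0, 0, 1), (-800, 0, 0, 0))]),
  (7, [((2, 0, 0), (-572, 0, 0, -236)), ((2, 1, 1), (-1788, 0, 0, -564))]),
  (8, [((1, 0, 2), (-800, 0, 0, -800))]),
  (9, [((1, 0, 1), (-24, 0, 0, -588)), ((1, 1, 2), (116, 0, 0, -224)), ((3, 0, 1), (136, 0, 0, -808))]),
  (11, [((0, 0, 2), (197, 0, 0, -27)), ((2, 0, 2), (1740, 0, 0, -612))]),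
  (13, [((1, 0, 3), (278, 0, 0, 170))])]

/-- `1600` times the coefficients of the family 2 at the base -/
def bL : List (ℤ × PZ) :=
 [(-11, [((1, 3, 0), (-118, 0, 0, 10))]),
  (-9, [((0, 2, 0), (-22, 0, 0, 32)), ((2, 2, 0), (864, 0, 0, 2088))]),
  (-7, [((1, 1, 0), (1782, 0, 0, 306)), ((1, 2, 1), (74, 0, 0, 54)), ((3, 1, 0), (1632, 0, 0, 336))]),
  (-6, [((1, 2, 0), (3200, 0, 0, 0))]),
  (-5, [((2, 0, 0), (660, 0, 0, -324)), ((2, 1, 1), (2700, 0, 0, -1476))]),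
  (-4, [((0, 1, 0), (800, 0, 0, -800)), ((2, 1, 0), (-1600, 0, 0, 1600))]),
  (-3, [((2, 2, 0), (-800, 0, 0, -1712)), ((3, 0, 1), (-312, 0, 0, -984))]),
  (-2, [((1, 0, 0), (800, 0, 0, 800)), ((1, 1, 1), (-1600, 0, 0, -1600))]),
  (-1, [((1, 1, 0), (116, 0, 0, 1372)), ((1, 2, 1), (720, 0, 0, 0)), ((3, 1, 0), (-528, 0, 0, 0))]),
  (0, [((2, 0, 1), (3200, 0, 0, 0))]),
  (1, [((0, 0, 0), (1600, 0, 0, 0)), ((0, 1, 1), (180, 0, 0, -180)), ((2, 0, 0), (-132, 0, 0, 132)), ((2, 1, 1), (-992, 0, 0, 992))]),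
  (3, [((1, 0, 1), (1696, 0, 0, -1960)), ((1, 1, 2), (-360, 0, 0, -360)), ((3, 0, 1), (264, 0, 0, 264))]),
  (4, [((1, 1, 1), (800, 0, 0, 800))]),
  (5, [((2, 0, 2), (-984, 0, 0, -456)), ((3, 1, 0), (-1280, 0, 0, -336))]),
  (6, [((0, 0, 1), (800, 0, 0, 0))]),
  (7, [((2, 0, 0), (-572, 0, 0, 236)), ((2, 1, 1), (-1788, 0, 0, 564))]),
  (8, [((1, 0, 2), (800, 0, 0, -800))]),
  (9, [((1, 0, 1), (-24, 0, 0, 588)), ((1, 1, 2), (116, 0, 0, 224)), ((3, 0, 1), (136, 0, 0, 808))]),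
  (11, [((0, 0, 2), (197, 0, 0, 27)), ((2, 0, 2), (1740, 0, 0, 612))]),
  (13, [((1, 0, 3), (278, 0, 0, -170))])]

/-- lookup -/
def lk : List (ℤ × PZ) → ℤ → PZ
  | [], _ => []
  | x :: l, m => if x.1 = m then x.2 else lk l m

/-- the coefficients of the family 1 at the base -/
noncomputable def aC (A : ℝ) (B : ℂ) (m : ℤ) : ℂ := evP A B (lk aL m) / 1600
/-- the coefficients of the family 2 at the base -/
noncomputable def bC (A : ℝ) (B : ℂ) (m : ℤ) : ℂ := evP A B (lk bL m) / 1600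

end Pool.Agent.Helper40.NR
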