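import Pool.Agent.Helper40.NR.Fin2
import Pool.Agent.Helper40.NR.Fin3
import Pool.Agent.Helper27.SH.Fin
import Pool.Agent.Helper43.SH.NSx
import Pool.Agent.Helper64.SH.BaseC

/-!
# Project RC, SHARP, zone I: the `NS` piece in the format of the budget (`GOK`, `VOK`) for the instance `PI c A B`
-/

set_option autoImplicit false
set_option maxRecDepth 100000

open MeasureTheory Set Filter Topology

namespace Pool.Agent.Helper40.NR

open Helper49.LT hiding sg rR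
open Helper49.RC (om)
open Helper95.RC (kq c1 c2 wc)
open Helper95.SH (pr qr wm C1 C2 NS_SN Dat)
open Helper56.RC (fc)
open Pool.Agent.Helper20.RC (wR)
open Pool.Agent.Helper33.SH
open Pool.Agent.Helper43.SH (R1 R2 B1 B2 pr_b0 qr_b0 fc_z0 b2L b3L zL SN_b0 SN_z0 reg_PI dat_PI tr_b2 tr_b3 tr_z)
open Pool.Agent.Helper27.SH
open Pool.Agent.Helper99.RC
open Pool.Agent.Helper61.RC
open Pool.Agent.Helper30.SH

theorem dI_dd (A : ℝ) (B : ℂ) : dI A B = dd A B := by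
  unfold dI dd
  ring

/-- the family 1 of the base -/
theorem B1_aC (c : ZC) (A : ℝ) (B : ℂ) : B1 c A B = aC A B := by
  funext m
  have h := Pool.Agent.Helper64.SH.aC_eq A B m
  rw [pr_b0, qr_b0, fc_z0] at h
  exact h

/-- the family 2 of the base -/
theorem B2_bC (c : ZC) (A : ℝ) (B : ℂ) : B2 c A B = bC A B := by
  funext m
  have h := Pool.Agent.Helper64.SH.bC_eq A B m
  rw [pr_b0, qr_b0, fc_z0] at h
  exact h

/-! ### rows -/

/-- a table as a list of rows; `l = m - 1` -/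
def rwT : List (ℤ × PZ × ℤ × EE) → RW
  | [] => []
  | x :: l => if x.2.1.isEmpty then rwT l else (x.1 - 1, (x.2.2.1, x.2.1)) :: rwT l

theorem rsum_list (A : ℝ) (B : ℂ) (x : ℤ → ℂ) : ∀ l : List (ℤ × PZ × ℤ × EE), rsum A B (rwT l) x =
    (l.map fun y => ((starRingEnd ℂ) (evP A B y.2.1 / (y.2.2.1 : ℂ)) * x (y.1 - 1)).re).sum
  | [] => rfl
  | y :: l => by
    rw [rwT, List.map_cons, List.sum_cons, ← rsum_list A B x l]
    split_ifs with h
    · have : y.2.1 = [] := List.isEmpty_iff.1 h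
      rw [this]
      simp
    · rw [rsum_cons]
      rfl

theorem rsum_rwT (A : ℝ) (B : ℂ) (x : ℤ → ℂ) (l : List (ℤ × PZ × ℤ × EE)) (hl : (l.map Prod.fst).Nodup)
    (I : Finset ℤ) (hI : ∀ n ∈ l.map Prod.fst, n ∈ I) :
    ∑ m ∈ I, ((starRingEnd ℂ) (evP A B (lkT l m).1 / ((lkT l m).2.1 : ℂ)) * x (m - 1)).re = rsum A B (rwT l) x := by
  have h1 : ∀ l : List (ℤ × PZ × ℤ × EE), ∀ m, m ∉ l.map Prod.fst → lkT l m = ([], 1, []) := by
    intro l
    induction l with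
    | nil => intro m _; rfl
    | cons y l ih =>
      intro m hm
      rw [List.map_cons, List.mem_cons, not_or] at hm
      rw [lkT, if_neg (fun e => hm.1 e.symm), ih m hm.2]
  have h2 : ∀ l : List (ℤ × PZ × ℤ × EE), (l.map Prod.fst).Nodup → ∀ y ∈ l, lkT l y.1 = y.2 := by
    intro l
    induction l with
    | nil => intro _ y hy; simp at hy
    | cons y l ih =>
      intro hn w hw
      rw [List.map_cons, List.nodup_cons] at hn
      rw [lkT]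
      rcases List.mem_cons.1 hw with h | h
      · rw [h, if_pos rfl]
      · rw [if_neg (fun e => hn.1 (by rw [e]; exact List.mem_map_of_mem h)), ih hn.2 w h]
  set F : ℤ → ℝ := fun m => ((starRingEnd ℂ) (evP A B (lkT l m).1 / ((lkT l m).2.1 : ℂ)) * x (m - 1)).re with hF
  have h4 : ∑ n ∈ I, F n = ∑ n ∈ (l.map Prod.fst).toFinset, F n := by
    refine (Finset.sum_subset ?_ ?_).symm
    · intro n hn
      exact hI n (List.mem_toFinset.1 hn)
    · intro n hn hn'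
      have h5 := h1 l n fun h => hn' (List.mem_toFinset.2 h)
      rw [hF]
      simp only
      rw [h5]
      simp
  show ∑ n ∈ I, F n = _
  rw [h4, List.sum_toFinset F hl, List.map_map, rsum_list]
  congr 1
  refine List.map_congr_left fun y hy => ?_
  show F y.1 = _
  rw [hF]
  simp only
  rw [h2 l hl y hy]

theorem zTab_nd : (zTab.map Prod.fst).Nodup := by decide +kernel
theorem pTab_nd : (pTab.map Prod.fst).Nodup := by decide +kernel
theorem rTab_nd : (rTab.map Prod.fst).Nodup := by decide +kernel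
theorem zTab_I : ∀ n ∈ zTab.map Prod.fst, n ∈ Finset.Icc (-45 : ℤ) 45 := by decide +kernel
theorem pTab_I : ∀ n ∈ pTab.map Prod.fst, n ∈ Finset.Icc (-45 : ℤ) 45 := by decide +kernel
theorem rTab_I : ∀ n ∈ rTab.map Prod.fst, n ∈ Finset.Icc (-45 : ℤ) 45 := by decide +kernel

/-- the gradient data of the `NS` piece -/
def gNS : GD := ⟨rwT zTab, rwT pTab, rwT rTab, (5, 0, 3000000000) :: ofE zEt, (5, 0, 3000000000) :: ofE pEt,
  (5, 0, 6000000000) :: ofE rEt⟩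

theorem gNS_ok : gNS.ok = true := by decide +kernel

/-- **(G), the `NS` piece** in the format of the budget -/
theorem gok_NS (c : ZC) {A : ℝ} (hA : 0 ≤ A) (hA' : A ≤ 1 / 5) {B : ℂ} (hB : ‖B‖ ≤ 1 / 8) {N : ℕ} (hN : 42 ≤ N)
    (x y t : ℤ → ℂ) (hx : ∀ l, ¬ Even l → x l = 0) (hy : ∀ l, ¬ Even l → y l = 0) (ht : ∀ l, Even l → t l = 0)
    {Nz Np Nr : ℝ}
    (hz : ∑ m ∈ Finset.Icc (-((N + 3 : ℕ) : ℤ)) ((N + 3 : ℕ) : ℤ), ‖t (m - 1)‖ ^ 2 ≤ Nz)
    (hp : ∑ m ∈ Finset.Icc (-((N + 3 : ℕ) : ℤ)) ((N + 3 : ℕ) : ℤ), ‖x (m - 1)‖ ^ 2 ≤ Np)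
    (hr : ∑ m ∈ Finset.Icc (-((N + 3 : ℕ) : ℤ)) ((N + 3 : ℕ) : ℤ), ‖y (m - 1)‖ ^ 2 ≤ Nr) :
    GOK A B gNS t x y Nz Np Nr
      (2 * NSB (dI A B) A Real.pi (Finset.Icc (-((N + 3 : ℕ) : ℤ)) ((N + 3 : ℕ) : ℤ)) (B1 c A B) (B2 c A B)
        (R1 x y t) (R2 x y t)) := by
  set S := Finset.Icc (-((N + 3 : ℕ) : ℤ)) ((N + 3 : ℕ) : ℤ) with hSd
  have hS : Finset.Icc (-45 : ℤ) 45 ⊆ S := by
    intro n hn
    rw [hSd, Finset.mem_Icc]
    rw [Finset.mem_Icc] at hn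
    push_cast
    omega
  have h := NS_grad hA hA' hB hS x y t hx hy ht
  rw [Finset.sum_add_distrib, Finset.sum_add_distrib] at h
  unfold zCo pCo rCo at h
  rw [rsum_rwT A B t zTab zTab_nd _ zTab_I, rsum_rwT A B x pTab pTab_nd _ pTab_I,
    rsum_rwT A B y rTab rTab_nd _ rTab_I] at h
  unfold GOK gNS
  simp only
  rw [evN_cons, evN_cons, evN_cons, ofE_eq, ofE_eq, ofE_eq, B1_aC, B2_bC, dI_dd]
  have hA5 : 0 ≤ A ^ 5 := by positivity
  have hzE : 0 ≤ evE A ‖B‖ zEt := evE_nonneg hA (norm_nonneg B) _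
  have hpE : 0 ≤ evE A ‖B‖ pEt := evE_nonneg hA (norm_nonneg B) _
  have hrE : 0 ≤ evE A ‖B‖ rEt := evE_nonneg hA (norm_nonneg B) _
  have s1 := mul_le_mul_of_nonneg_left (Real.sqrt_le_sqrt hz) (show 0 ≤ evE A ‖B‖ zEt + 3 * A ^ 5 by positivity)
  have s2 := mul_le_mul_of_nonneg_left (Real.sqrt_le_sqrt hp) (show 0 ≤ evE A ‖B‖ pEt + 3 * A ^ 5 by positivity)
  have s3 := mul_le_mul_of_nonneg_left (Real.sqrt_le_sqrt hr) (show 0 ≤ evE A ‖B‖ rEt + 6 * A ^ 5 by positivity)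
  have e1 : (((3000000000 : ℕ) : ℝ) / 1000000000 * (A ^ 5 * ‖B‖ ^ 0) + evE A ‖B‖ zEt) =
      evE A ‖B‖ zEt + 3 * A ^ 5 := by norm_num; ring
  have e2 : (((3000000000 : ℕ) : ℝ) / 1000000000 * (A ^ 5 * ‖B‖ ^ 0) + evE A ‖B‖ pEt) =
      evE A ‖B‖ pEt + 3 * A ^ 5 := by norm_num; ring
  have e3 : (((6000000000 : ℕ) : ℝ) / 1000000000 * (A ^ 5 * ‖B‖ ^ 0) + evE A ‖B‖ rEt) =
      evE A ‖B‖ rEt + 6 * A ^ 5 := by norm_num; ring
  rw [e1, e2, e3]
  exact h.trans (add_le_add (add_le_add s1 s2) s3)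

/-! ### value -/

def vNS : VD := ⟨(vDen, vTot), ofE vEt⟩

/-- **(V), the `NS` piece** -/
theorem vok_NS (c : ZC) {A : ℝ} (hA : 0 ≤ A) (hA' : A ≤ 1 / 5) {B : ℂ} (hB : ‖B‖ ≤ 1 / 8)
    (hZ : |A| + 2 * ‖B‖ ≤ 1 / 4) (hρ : 100 ≤ c.rho) (hm : c.lam ≤ c.m) :
    VOK A B vNS ((PI c A B).NS (b0I A B) (z0I A B)) := by
  have hr := reg_PI (c := c) hZ hρ hm
  have ds := dat_PI (A := A) (B := B) hZ
  have hps : (PI c A B).ps = Pool.Agent.Helper99.RC.ps (dI A B) A Real.pi := rfl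
  have h2 := NS_SN hr ds 10 (by omega)
  rw [SN_b0 (le_refl 10), SN_z0 (le_refl 10)] at h2
  have k1 : fc ((PI c A B).F1 (b0I A B) (z0I A B)) = B1 c A B := by
    have := Helper95.SH.fc_F1A hr ds 10
    rw [SN_b0 (le_refl 10), SN_z0 (le_refl 10), pr_b0, qr_b0, fc_z0, tr_b2 (le_refl 10),
      tr_b3 (le_refl 10), tr_z (le_refl 10)] at this
    exact this
  have k2 : fc ((PI c A B).F2 (b0I A B) (z0I A B)) = B2 c A B := by
    have := Helper95.SH.fc_F2A hr ds 10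
    rw [SN_b0 (le_refl 10), SN_z0 (le_refl 10), pr_b0, qr_b0, fc_z0, tr_b2 (le_refl 10),
      tr_b3 (le_refl 10), tr_z (le_refl 10)] at this
    exact this
  rw [k1, k2, hps, Pool.Agent.Helper99.RC.NF_closed] at h2
  rw [h2, B1_aC, B2_bC, dI_dd]
  unfold VOK vNS evF
  simp only
  rw [ofE_eq]
  refine NS_value hA hA' hB ?_
  intro n hn
  rw [Finset.mem_Icc] at hn ⊢
  push_cast
  omega

end Pool.Agent.Helper40.NR
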