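import Pool.Agent.Helper40.NR.Prog

/-!
# Project RC, SHARP: error polynomials
-/

set_option autoImplicit false

namespace Pool.Agent.Helper40.NR

/-- error polynomial in `A`, `β`: coefficients in units of `10⁻⁶` -/
abbrev EE := List ((ℕ × ℕ) × ℕ)

noncomputable def evE (A β : ℝ) (e : EE) : ℝ :=
  (e.map fun x => (x.2 : ℝ) / 1000000 * (A ^ x.1.1 * β ^ x.1.2)).sum

@[simp] theorem evE_nil (A β : ℝ) : evE A β [] = 0 := rfl
@[simp] theorem evE_cons (A β : ℝ) (x : (ℕ × ℕ) × ℕ) (e : EE) :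
    evE A β (x :: e) = (x.2 : ℝ) / 1000000 * (A ^ x.1.1 * β ^ x.1.2) + evE A β e := by simp [evE]

theorem evE_nonneg {A β : ℝ} (hA : 0 ≤ A) (hβ : 0 ≤ β) : ∀ e : EE, 0 ≤ evE A β e
  | [] => le_refl _
  | x :: e => by
    rw [evE_cons]
    have := evE_nonneg hA hβ e
    positivity

def insE (m : ℕ × ℕ) (c : ℕ) : EE → EE
  | [] => [(m, c)]
  | x :: e => if x.1 = m then (m, c + x.2) :: e else x :: insE m c e

theorem evE_ins (A β : ℝ) (m : ℕ × ℕ) (c : ℕ) : ∀ e : EE,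
    evE A β (insE m c e) = (c : ℝ) / 1000000 * (A ^ m.1 * β ^ m.2) + evE A β e
  | [] => by simp [insE]
  | x :: e => by
    unfold insE
    split_ifs with h
    · rw [evE_cons, evE_cons, h]; push_cast; ring
    · rw [evE_cons, evE_cons, evE_ins A β m c e]; ring

def addE : EE → EE → EE
  | [], q => q
  | x :: p, q => addE p (insE x.1 x.2 q)

theorem evE_add (A β : ℝ) : ∀ p q : EE, evE A β (addE p q) = evE A β p + evE A β q
  | [], q => by simp [addE]
  | x :: p, q => by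
    rw [addE, evE_add A β p, evE_ins, evE_cons]; ring

def scE (k : ℕ) : EE → EE
  | [] => []
  | x :: e => (x.1, k * x.2) :: scE k e

theorem evE_sc (A β : ℝ) (k : ℕ) : ∀ e : EE, evE A β (scE k e) = (k : ℝ) * evE A β e
  | [] => by simp [scE]
  | x :: e => by
    rw [scE, evE_cons, evE_cons, evE_sc A β k e]; push_cast; ring

/-- coefficient -/
def coE (m : ℕ × ℕ) : EE → ℕ
  | [] => 0
  | x :: e => if x.1 = m then x.2 + coE m e else coE m e

/-- comparison -/
def leE (e f : EE) : Bool := e.all fun x => decide (coE x.1 e ≤ coE x.1 f)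

/-- removes the monomial `m` -/
def delE (m : ℕ × ℕ) : EE → EE
  | [] => []
  | x :: e => if x.1 = m then delE m e else x :: delE m e

theorem evE_del (A β : ℝ) (m : ℕ × ℕ) : ∀ e : EE,
    evE A β e = (coE m e : ℝ) / 1000000 * (A ^ m.1 * β ^ m.2) + evE A β (delE m e)
  | [] => by simp [coE, delE]
  | x :: e => by
    rw [evE_cons, coE, delE]
    split_ifs with h
    · rw [evE_del A β m e, h]; push_cast; ring
    · rw [evE_cons, evE_del A β m e]; ring

/-- `e ≤ f` for error polynomials, by successive removal -/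
def leE' : List (ℕ × ℕ) → EE → EE → Bool
  | [], e, _ => e.all fun x => x.2 == 0
  | m :: ms, e, f => decide (coE m e ≤ coE m f) && leE' ms (delE m e) (delE m f)

theorem evE_allzero (A β : ℝ) : ∀ e : EE, (e.all fun x => x.2 == 0) = true → evE A β e = 0
  | [], _ => rfl
  | x :: e, h => by
    simp only [List.all_cons, Bool.and_eq_true, beq_iff_eq] at h
    rw [evE_cons, evE_allzero A β e h.2, h.1]
    simp

theorem evE_le {A β : ℝ} (hA : 0 ≤ A) (hβ : 0 ≤ β) : ∀ (ms : List (ℕ × ℕ)) (e f : EE), leE' ms e f = true →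
    evE A β e ≤ evE A β f
  | [], e, f, h => by
    rw [evE_allzero A β e h]
    exact evE_nonneg hA hβ f
  | m :: ms, e, f, h => by
    simp only [leE', Bool.and_eq_true, decide_eq_true_eq] at h
    rw [evE_del A β m e, evE_del A β m f]
    have h1 := evE_le hA hβ ms _ _ h.2
    have h2 : (coE m e : ℝ) ≤ (coE m f : ℝ) := by exact_mod_cast h.1
    have h3 : 0 ≤ A ^ m.1 * β ^ m.2 := by positivity
    have h4 : (coE m e : ℝ) / 1000000 * (A ^ m.1 * β ^ m.2) ≤
        (coE m f : ℝ) / 1000000 * (A ^ m.1 * β ^ m.2) := by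
      apply mul_le_mul_of_nonneg_right _ h3
      linarith
    linarith

/-! ### absolute values -/

/-- `|a + b √3| ≤ abR a b / 10⁹` -/
def abR (a b : ℤ) : ℕ :=
  max (a * 1000000000 + b * 1732050807).natAbs (a * 1000000000 + b * 1732050808).natAbs

theorem s3_lo : (1732050807 : ℝ) / 1000000000 ≤ Real.sqrt 3 := by
  apply Real.le_sqrt_of_sq_le
  norm_num

theorem s3_hi : Real.sqrt 3 ≤ (1732050808 : ℝ) / 1000000000 := by
  apply Real.sqrt_le_iff.2
  constructor <;> norm_num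

theorem abR_le (a b : ℤ) : |(a : ℝ) + (b : ℝ) * Real.sqrt 3| ≤ (abR a b : ℝ) / 1000000000 := by
  have h1 := s3_lo
  have h2 := s3_hi
  set s := Real.sqrt 3
  have e1 : ((a * 1000000000 + b * 1732050807).natAbs : ℝ) = |(a : ℝ) * 1000000000 + b * 1732050807| := by
    rw [Nat.cast_natAbs]
    push_cast
    rfl
  have e2 : ((a * 1000000000 + b * 1732050808).natAbs : ℝ) = |(a : ℝ) * 1000000000 + b * 1732050808| := by
    rw [Nat.cast_natAbs]
    push_cast
    rfl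
  have e3 : (abR a b : ℝ) = max |(a : ℝ) * 1000000000 + b * 1732050807| |(a : ℝ) * 1000000000 + b * 1732050808| := by
    unfold abR
    rw [Nat.cast_max, e1, e2]
  rw [e3, le_div_iff₀ (by norm_num), ← abs_of_pos (show (0 : ℝ) < 1000000000 by norm_num), ← abs_mul,
    abs_of_pos (show (0 : ℝ) < 1000000000 by norm_num)]
  have h3 : 1732050807 ≤ s * 1000000000 := by linarith
  have h4 : s * 1000000000 ≤ 1732050808 := by linarith
  rw [abs_le]
  have hb := le_total (0 : ℝ) (b : ℝ)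
  have m1 := le_max_left |(a : ℝ) * 1000000000 + b * 1732050807| |(a : ℝ) * 1000000000 + b * 1732050808|
  have m2 := le_max_right |(a : ℝ) * 1000000000 + b * 1732050807| |(a : ℝ) * 1000000000 + b * 1732050808|
  have n1 := abs_le.1 m1
  have n2 := abs_le.1 m2
  rcases hb with hb | hb
  · constructor
    · nlinarith
    · nlinarith
  · constructor
    · nlinarith
    · nlinarith

/-- `‖ev4 c‖ ≤ ab4 c / 10⁹` -/
def ab4 (c : Z4) : ℕ := abR c.1 c.2.1 + abR c.2.2.1 c.2.2.2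

theorem ab4_le (c : Z4) : ‖ev4 c‖ ≤ (ab4 c : ℝ) / 1000000000 := by
  unfold ev4 ab4
  refine (norm_add_le _ _).trans ?_
  rw [norm_mul, Complex.norm_I, one_mul, Complex.norm_real, Complex.norm_real, Real.norm_eq_abs, Real.norm_eq_abs]
  have h1 := abR_le c.1 c.2.1
  have h2 := abR_le c.2.2.1 c.2.2.2
  push_cast
  rw [add_div]
  exact add_le_add h1 h2

theorem norm_evM (A : ℝ) (hA : 0 ≤ A) (B : ℂ) (m : M3) : ‖evM A B m‖ = A ^ m.1 * ‖B‖ ^ (m.2.1 + m.2.2) := by
  unfold evM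
  rw [norm_mul, norm_mul, norm_pow, norm_pow, norm_pow, Complex.norm_conj, Complex.norm_real,
    Real.norm_of_nonneg hA, pow_add]
  ring

/-! ### error monomials -/

/-- `num/den A^a β^b`, reduced to degree `k` -/
def mkE (k a b num den : ℕ) : (ℕ × ℕ) × ℕ :=
  let e := a + b - k
  let ra := min e (a - 1)
  let rb := e - ra
  ((a - ra, b - rb), num * 1000000 / (den * 5 ^ ra * 8 ^ rb) + 1)

theorem mkE_le {A β : ℝ} (hA : 0 ≤ A) (hA' : A ≤ 1 / 5) (hβ : 0 ≤ β) (hβ' : β ≤ 1 / 8) {k : ℕ} (hk : 1 ≤ k)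
    (a b num den : ℕ) (hd : 0 < den) :
    (num : ℝ) / den * (A ^ a * β ^ b) ≤
      ((mkE k a b num den).2 : ℝ) / 1000000 * (A ^ (mkE k a b num den).1.1 * β ^ (mkE k a b num den).1.2) := by
  unfold mkE
  simp only
  set e := a + b - k with he
  set ra := min e (a - 1) with hra
  set rb := e - ra with hrb
  have h1 : ra ≤ a := by omega
  have h2 : rb ≤ b := by omega
  have h3 : A ^ a ≤ A ^ (a - ra) * (1 / 5) ^ ra := by
    have : A ^ a = A ^ (a - ra) * A ^ ra := by rw [← pow_add]; congr 1; omega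
    rw [this]
    gcongr
  have h4 : β ^ b ≤ β ^ (b - rb) * (1 / 8) ^ rb := by
    have : β ^ b = β ^ (b - rb) * β ^ rb := by rw [← pow_add]; congr 1; omega
    rw [this]
    gcongr
  set Q := den * 5 ^ ra * 8 ^ rb with hQ
  have hQ0 : 0 < Q := by positivity
  have h5 : (num : ℝ) * 1000000 / Q ≤ ((num * 1000000 / Q + 1 : ℕ) : ℝ) := by
    rw [div_le_iff₀ (by exact_mod_cast hQ0)]
    have h6 : num * 1000000 < (num * 1000000 / Q + 1) * Q := by
      have := Nat.lt_div_mul_add hQ0 (a := num * 1000000)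
      calc num * 1000000 < num * 1000000 / Q * Q + Q := this
        _ = (num * 1000000 / Q + 1) * Q := by ring
    exact_mod_cast h6.le
  have hd' : (den : ℝ) ≠ 0 := by exact_mod_cast hd.ne'
  calc (num : ℝ) / den * (A ^ a * β ^ b)
      ≤ (num : ℝ) / den * ((A ^ (a - ra) * (1 / 5) ^ ra) * (β ^ (b - rb) * (1 / 8) ^ rb)) := by
        gcongr
    _ = ((num : ℝ) * 1000000 / Q) / 1000000 * (A ^ (a - ra) * β ^ (b - rb)) := by
        rw [hQ]
        push_cast
        rw [one_div, one_div, inv_pow, inv_pow]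
        field_simp
    _ ≤ _ := by
        gcongr

/-- list of rational monomials -/
abbrev BR := List ((ℕ × ℕ) × (ℕ × ℕ))

noncomputable def evB (A β : ℝ) (b : BR) : ℝ :=
  (b.map fun e => (e.2.1 : ℝ) / e.2.2 * (A ^ e.1.1 * β ^ e.1.2)).sum

@[simp] theorem evB_nil (A β : ℝ) : evB A β [] = 0 := rfl
@[simp] theorem evB_cons (A β : ℝ) (e : (ℕ × ℕ) × (ℕ × ℕ)) (b : BR) :
    evB A β (e :: b) = (e.2.1 : ℝ) / e.2.2 * (A ^ e.1.1 * β ^ e.1.2) + evB A β b := by simp [evB]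

theorem evB_append (A β : ℝ) (b c : BR) : evB A β (b ++ c) = evB A β b + evB A β c := by
  simp [evB]

theorem evB_nonneg {A β : ℝ} (hA : 0 ≤ A) (hβ : 0 ≤ β) : ∀ b : BR, 0 ≤ evB A β b
  | [] => le_refl _
  | e :: b => by
    rw [evB_cons]
    have := evB_nonneg hA hβ b
    positivity

/-- absolute value of a polynomial -/
noncomputable def abP (A β : ℝ) (q : PZ) : ℝ :=
  (q.map fun x => (ab4 x.2 : ℝ) / 1000000000 * (A ^ x.1.1 * β ^ (x.1.2.1 + x.1.2.2))).sum

@[simp] theorem abP_nil (A β : ℝ) : abP A β [] = 0 := rfl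
@[simp] theorem abP_cons (A β : ℝ) (x : M3 × Z4) (q : PZ) :
    abP A β (x :: q) = (ab4 x.2 : ℝ) / 1000000000 * (A ^ x.1.1 * β ^ (x.1.2.1 + x.1.2.2)) + abP A β q := by
  simp [abP]

theorem abP_le {A : ℝ} (hA : 0 ≤ A) (B : ℂ) : ∀ q : PZ, ‖evP A B q‖ ≤ abP A ‖B‖ q
  | [] => by simp
  | x :: q => by
    rw [evP_cons, abP_cons]
    refine (norm_add_le _ _).trans (add_le_add ?_ (abP_le hA B q))
    rw [norm_mul, norm_evM A hA]
    exact mul_le_mul_of_nonneg_right (ab4_le _) (by positivity)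

/-- inner loop -/
def er1 (k DB : ℕ) (x : M3 × Z4) : BR → EE → EE
  | [], acc => acc
  | e :: b, acc =>
    let t := mkE k (x.1.1 + e.1.1) (x.1.2.1 + x.1.2.2 + e.1.2) (ab4 x.2 * e.2.1) (1000000000 * DB * e.2.2)
    er1 k DB x b (insE t.1 t.2 acc)

/-- outer loop -/
def er2 (k DB : ℕ) (b : BR) : PZ → EE → EE
  | [], acc => acc
  | x :: q, acc => er2 k DB b q (er1 k DB x b acc)

theorem er1_le {A β : ℝ} (hA : 0 ≤ A) (hA' : A ≤ 1 / 5) (hβ : 0 ≤ β) (hβ' : β ≤ 1 / 8) {k : ℕ} (hk : 1 ≤ k)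
    {DB : ℕ} (hDB : 0 < DB) (x : M3 × Z4) : ∀ (b : BR) (acc : EE), (∀ e ∈ b, 0 < e.2.2) →
    (ab4 x.2 : ℝ) / 1000000000 * (A ^ x.1.1 * β ^ (x.1.2.1 + x.1.2.2)) / DB * evB A β b + evE A β acc ≤
      evE A β (er1 k DB x b acc)
  | [], acc, _ => by simp [er1]
  | e :: b, acc, h => by
    rw [er1, evB_cons]
    have h1 := er1_le hA hA' hβ hβ' hk hDB x b
      (insE (mkE k (x.1.1 + e.1.1) (x.1.2.1 + x.1.2.2 + e.1.2) (ab4 x.2 * e.2.1) (1000000000 * DB * e.2.2)).1
        (mkE k (x.1.1 + e.1.1) (x.1.2.1 + x.1.2.2 + e.1.2) (ab4 x.2 * e.2.1) (1000000000 * DB * e.2.2)).2 acc)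
      (fun f hf => h f (by simp [hf]))
    refine le_trans ?_ h1
    rw [evE_ins]
    have he : 0 < e.2.2 := h e (by simp)
    have h2 := mkE_le hA hA' hβ hβ' hk (x.1.1 + e.1.1) (x.1.2.1 + x.1.2.2 + e.1.2) (ab4 x.2 * e.2.1)
      (1000000000 * DB * e.2.2) (by positivity)
    have h3 : ((ab4 x.2 * e.2.1 : ℕ) : ℝ) / ((1000000000 * DB * e.2.2 : ℕ) : ℝ) *
        (A ^ (x.1.1 + e.1.1) * β ^ (x.1.2.1 + x.1.2.2 + e.1.2)) =
        (ab4 x.2 : ℝ) / 1000000000 * (A ^ x.1.1 * β ^ (x.1.2.1 + x.1.2.2)) / DB *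
          ((e.2.1 : ℝ) / e.2.2 * (A ^ e.1.1 * β ^ e.1.2)) := by
      have h4 : (DB : ℝ) ≠ 0 := by exact_mod_cast hDB.ne'
      have h5 : (e.2.2 : ℝ) ≠ 0 := by exact_mod_cast he.ne'
      push_cast
      rw [pow_add, pow_add]
      field_simp
    rw [h3] at h2
    linarith

theorem er2_le {A β : ℝ} (hA : 0 ≤ A) (hA' : A ≤ 1 / 5) (hβ : 0 ≤ β) (hβ' : β ≤ 1 / 8) {k : ℕ} (hk : 1 ≤ k)
    {DB : ℕ} (hDB : 0 < DB) (b : BR) (hb : ∀ e ∈ b, 0 < e.2.2) : ∀ (q : PZ) (acc : EE),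
    abP A β q / DB * evB A β b + evE A β acc ≤ evE A β (er2 k DB b q acc)
  | [], acc => by simp [er2]
  | x :: q, acc => by
    rw [er2, abP_cons]
    have h1 := er2_le hA hA' hβ hβ' hk hDB b hb q (er1 k DB x b acc)
    have h2 := er1_le hA hA' hβ hβ' hk hDB x b acc hb
    refine le_trans ?_ h1
    have e : ((ab4 x.2 : ℝ) / 1000000000 * (A ^ x.1.1 * β ^ (x.1.2.1 + x.1.2.2)) + abP A β q) / DB * evB A β b =
        (ab4 x.2 : ℝ) / 1000000000 * (A ^ x.1.1 * β ^ (x.1.2.1 + x.1.2.2)) / DB * evB A β b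
          + abP A β q / DB * evB A β b := by ring
    rw [e]
    linarith

/-! ### split in low and high part -/

def spl (lo : M3 → Bool) : PZ → PZ × PZ
  | [] => ([], [])
  | x :: p => if lo x.1 then (x :: (spl lo p).1, (spl lo p).2) else ((spl lo p).1, x :: (spl lo p).2)

theorem evP_spl (A : ℝ) (B : ℂ) (lo : M3 → Bool) : ∀ p : PZ,
    evP A B p = evP A B (spl lo p).1 + evP A B (spl lo p).2
  | [] => by simp [spl]
  | x :: p => by
    rw [spl]
    split_ifs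
    · simp only [evP_cons]
      rw [evP_spl A B lo p]; ring
    · simp only [evP_cons]
      rw [evP_spl A B lo p]; ring

/-- the error polynomial of a high part over the denominator `d` -/
def hiE (k d : ℕ) : PZ → EE → EE
  | [], acc => acc
  | x :: q, acc =>
    let t := mkE k x.1.1 (x.1.2.1 + x.1.2.2) (ab4 x.2) (1000000000 * d)
    hiE k d q (insE t.1 t.2 acc)

theorem hiE_le {A β : ℝ} (hA : 0 ≤ A) (hA' : A ≤ 1 / 5) (hβ : 0 ≤ β) (hβ' : β ≤ 1 / 8) {k : ℕ} (hk : 1 ≤ k)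
    {d : ℕ} (hd : 0 < d) : ∀ (q : PZ) (acc : EE), abP A β q / d + evE A β acc ≤ evE A β (hiE k d q acc)
  | [], acc => by simp [hiE]
  | x :: q, acc => by
    rw [hiE, abP_cons]
    have h1 := hiE_le hA hA' hβ hβ' hk hd q
      (insE (mkE k x.1.1 (x.1.2.1 + x.1.2.2) (ab4 x.2) (1000000000 * d)).1
        (mkE k x.1.1 (x.1.2.1 + x.1.2.2) (ab4 x.2) (1000000000 * d)).2 acc)
    refine le_trans ?_ h1
    rw [evE_ins]
    have h2 := mkE_le hA hA' hβ hβ' hk x.1.1 (x.1.2.1 + x.1.2.2) (ab4 x.2) (1000000000 * d) (by positivity)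
    have h3 : ((ab4 x.2 : ℕ) : ℝ) / ((1000000000 * d : ℕ) : ℝ) * (A ^ x.1.1 * β ^ (x.1.2.1 + x.1.2.2)) =
        (ab4 x.2 : ℝ) / 1000000000 * (A ^ x.1.1 * β ^ (x.1.2.1 + x.1.2.2)) / d := by
      push_cast
      have h4 : (d : ℝ) ≠ 0 := by exact_mod_cast hd.ne'
      field_simp
    rw [h3] at h2
    rw [add_div]
    linarith

end Pool.Agent.Helper40.NR
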