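import Pool.Agent.Helper40.NR.Pol

/-!
# Project RC, SHARP: the programs (kernel approximation, rows, error polynomials)
-/

set_option autoImplicit false

namespace Pool.Agent.Helper40.NR

/-! ### real polynomials in `x = A²`, `y = |B|²` -/

abbrev QP := List ((ℕ × ℕ) × ℤ)

noncomputable def evQ (x y : ℝ) (q : QP) : ℝ := (q.map fun e => (e.2 : ℝ) * (x ^ e.1.1 * y ^ e.1.2)).sum

@[simp] theorem evQ_nil (x y : ℝ) : evQ x y [] = 0 := rfl
@[simp] theorem evQ_cons (x y : ℝ) (e : (ℕ × ℕ) × ℤ) (q : QP) :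
    evQ x y (e :: q) = (e.2 : ℝ) * (x ^ e.1.1 * y ^ e.1.2) + evQ x y q := by simp [evQ]

def insQ (m : ℕ × ℕ) (c : ℤ) : QP → QP
  | [] => [(m, c)]
  | e :: q => if e.1 = m then (m, c + e.2) :: q else e :: insQ m c q

theorem evQ_ins (x y : ℝ) (m : ℕ × ℕ) (c : ℤ) : ∀ q : QP,
    evQ x y (insQ m c q) = (c : ℝ) * (x ^ m.1 * y ^ m.2) + evQ x y q
  | [] => by simp [insQ]
  | e :: q => by
    unfold insQ
    split_ifs with h
    · rw [evQ_cons, evQ_cons, h]; push_cast; ring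
    · rw [evQ_cons, evQ_cons, evQ_ins x y m c q]; ring

def addQ : QP → QP → QP
  | [], q => q
  | e :: p, q => addQ p (insQ e.1 e.2 q)

theorem evQ_add (x y : ℝ) : ∀ p q : QP, evQ x y (addQ p q) = evQ x y p + evQ x y q
  | [], q => by simp [addQ]
  | e :: p, q => by
    rw [addQ, evQ_add x y p, evQ_ins, evQ_cons]; ring

def shQ (m : ℕ × ℕ) (c : ℤ) : QP → QP
  | [] => []
  | e :: q => ((m.1 + e.1.1, m.2 + e.1.2), c * e.2) :: shQ m c q

theorem evQ_sh (x y : ℝ) (m : ℕ × ℕ) (c : ℤ) : ∀ q : QP,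
    evQ x y (shQ m c q) = (c : ℝ) * (x ^ m.1 * y ^ m.2) * evQ x y q
  | [] => by simp [shQ]
  | e :: q => by
    rw [shQ, evQ_cons, evQ_cons, evQ_sh x y m c q]
    push_cast
    rw [pow_add, pow_add]
    ring

def mulQ : QP → QP → QP
  | [], _ => []
  | e :: p, q => addQ (shQ e.1 e.2 q) (mulQ p q)

theorem evQ_mul (x y : ℝ) : ∀ p q : QP, evQ x y (mulQ p q) = evQ x y p * evQ x y q
  | [], q => by simp [mulQ]
  | e :: p, q => by
    rw [mulQ, evQ_add, evQ_sh, evQ_mul x y p, evQ_cons]; ring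

/-- `20 d` -/
def dQ (k : ℤ) : QP := [((1, 0), 17 * k), ((0, 1), -8 * k)]

theorem evQ_d (x y : ℝ) (k : ℤ) : evQ x y (dQ k) = (k : ℝ) * (17 * x - 8 * y) := by
  simp [dQ]
  ring

/-! ### Horner schemes -/

/-- `∑_{i<n} (-p²x/16)^i / ∏_{u=1..i} (t+u)(t+u+j)` = second / first -/
def hJ (p : ℤ) (j : ℕ) : ℕ → ℕ → ℤ × QP
  | 0, _ => (1, [])
  | n + 1, t =>
    let r := hJ p j n (t + 1)
    let D := 16 * ((t + 1 : ℕ) : ℤ) * ((t + 1 + j : ℕ) : ℤ) * r.1
    (D, insQ (0, 0) D (shQ (1, 0) (-(p * p)) r.2))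

theorem hJ_pos (p : ℤ) (j : ℕ) : ∀ n t : ℕ, 0 < (hJ p j n t).1
  | 0, t => by simp [hJ]
  | n + 1, t => by
    have h := hJ_pos p j n (t + 1)
    simp only [hJ]
    positivity

/-- `∑_{i<n} z^i / ∏_{u=1..i} (s+u)`, `z = -i p (17x-8y)/40`: (den, re, im) -/
def hE (p : ℤ) : ℕ → ℕ → ℤ × QP × QP
  | 0, _ => (1, [], [])
  | n + 1, s =>
    let r := hE p n (s + 1)
    let D := 40 * ((s + 1 : ℕ) : ℤ) * r.1
    (D, insQ (0, 0) D (mulQ (dQ p) r.2.2), mulQ (dQ (-p)) r.2.1)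

theorem hE_pos (p : ℤ) : ∀ n s : ℕ, 0 < (hE p n s).1
  | 0, s => by simp [hE]
  | n + 1, s => by
    have h := hE_pos p n (s + 1)
    simp only [hE]
    positivity

theorem hJ_val (p : ℤ) (j : ℕ) (x y : ℝ) : ∀ n t : ℕ,
    evQ x y (hJ p j n t).2 / (hJ p j n t).1 =
      ∑ i ∈ Finset.range n, (-((p : ℝ) ^ 2 * x / 16)) ^ i *
        ((t.factorial : ℝ) * ((t + j).factorial : ℝ) / (((t + i).factorial : ℝ) * ((t + i + j).factorial : ℝ)))
  | 0, t => by simp [hJ]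
  | n + 1, t => by
    have ih := hJ_val p j x y n (t + 1)
    have hp := hJ_pos p j n (t + 1)
    set r := hJ p j n (t + 1) with hr
    have hr1 : (r.1 : ℝ) ≠ 0 := by exact_mod_cast hp.ne'
    have e1 : hJ p j (n + 1) t = (16 * ((t + 1 : ℕ) : ℤ) * ((t + 1 + j : ℕ) : ℤ) * r.1,
      insQ (0, 0) (16 * ((t + 1 : ℕ) : ℤ) * ((t + 1 + j : ℕ) : ℤ) * r.1) (shQ (1, 0) (-(p * p)) r.2)) := by
      simp only [hJ, ← hr]
    rw [e1]
    simp only
    rw [evQ_ins, evQ_sh, Finset.sum_range_succ']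
    have h1 : ((t : ℝ) + 1) ≠ 0 := by positivity
    have h2 : ((t : ℝ) + 1 + j) ≠ 0 := by positivity
    have h3 : ∀ i : ℕ, (-((p : ℝ) ^ 2 * x / 16)) ^ (i + 1) *
        ((t.factorial : ℝ) * ((t + j).factorial : ℝ) /
          (((t + (i + 1)).factorial : ℝ) * ((t + (i + 1) + j).factorial : ℝ))) =
        (-((p : ℝ) ^ 2 * x / 16)) / (((t : ℝ) + 1) * ((t : ℝ) + 1 + j)) *
        ((-((p : ℝ) ^ 2 * x / 16)) ^ i *
        (((t + 1).factorial : ℝ) * ((t + 1 + j).factorial : ℝ) /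
          (((t + 1 + i).factorial : ℝ) * ((t + 1 + i + j).factorial : ℝ)))) := by
      intro i
      have e2 : t + (i + 1) = t + 1 + i := by ring
      have e3 : t + 1 + j = (t + j) + 1 := by ring
      rw [e2, e3, Nat.factorial_succ t, Nat.factorial_succ (t + j)]
      have h4 : (((t + 1 + i).factorial : ℕ) : ℝ) ≠ 0 := by exact_mod_cast Nat.factorial_ne_zero _
      have h5 : (((t + 1 + i + j).factorial : ℕ) : ℝ) ≠ 0 := by exact_mod_cast Nat.factorial_ne_zero _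
      have h6 : ((t : ℝ) + j + 1) ≠ 0 := by positivity
      have h6' : ((t : ℝ) + 1 + j) ≠ 0 := by positivity
      rw [pow_succ]
      generalize (-((p : ℝ) ^ 2 * x / 16)) = w
      push_cast
      field_simp
      ring
    simp_rw [h3]
    rw [← Finset.mul_sum, ← ih]
    have h7 : ((t.factorial : ℕ) : ℝ) ≠ 0 := by exact_mod_cast Nat.factorial_ne_zero _
    have h8 : (((t + j).factorial : ℕ) : ℝ) ≠ 0 := by exact_mod_cast Nat.factorial_ne_zero _
    push_cast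
    simp only [pow_zero, mul_one, add_zero, pow_one]
    field_simp
    ring

theorem hE_val (p : ℤ) (x y : ℝ) : ∀ n s : ℕ,
    ((evQ x y (hE p n s).2.1 : ℂ) + Complex.I * (evQ x y (hE p n s).2.2 : ℂ)) / ((hE p n s).1 : ℂ) =
      ∑ i ∈ Finset.range n, (Complex.I * ((-((p : ℝ) * ((17 * x - 8 * y) / 20) / 2) : ℝ) : ℂ)) ^ i *
        ((s.factorial : ℂ) / ((s + i).factorial : ℂ))
  | 0, s => by simp [hE]
  | n + 1, s => by
    have ih := hE_val p x y n (s + 1)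
    have hp := hE_pos p n (s + 1)
    set r := hE p n (s + 1) with hr
    have hr1 : (r.1 : ℂ) ≠ 0 := by exact_mod_cast hp.ne'
    have e1 : hE p (n + 1) s = (40 * ((s + 1 : ℕ) : ℤ) * r.1,
      insQ (0, 0) (40 * ((s + 1 : ℕ) : ℤ) * r.1) (mulQ (dQ p) r.2.2), mulQ (dQ (-p)) r.2.1) := by
      simp only [hE, ← hr]
    rw [e1]
    simp only
    rw [evQ_ins, evQ_mul, evQ_mul, evQ_d, evQ_d, Finset.sum_range_succ']
    have h1 : ((s : ℂ) + 1) ≠ 0 := by exact_mod_cast Nat.succ_ne_zero s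
    have h3 : ∀ i : ℕ, (Complex.I * ((-((p : ℝ) * ((17 * x - 8 * y) / 20) / 2) : ℝ) : ℂ)) ^ (i + 1) *
        ((s.factorial : ℂ) / ((s + (i + 1)).factorial : ℂ)) =
        (Complex.I * ((-((p : ℝ) * ((17 * x - 8 * y) / 20) / 2) : ℝ) : ℂ)) / ((s : ℂ) + 1) *
        ((Complex.I * ((-((p : ℝ) * ((17 * x - 8 * y) / 20) / 2) : ℝ) : ℂ)) ^ i *
        (((s + 1).factorial : ℂ) / ((s + 1 + i).factorial : ℂ))) := by
      intro i
      have e2 : s + (i + 1) = s + 1 + i := by ring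
      rw [e2, Nat.factorial_succ s]
      have h4 : (((s + 1 + i).factorial : ℕ) : ℂ) ≠ 0 := by exact_mod_cast Nat.factorial_ne_zero _
      rw [pow_succ]
      generalize (Complex.I * ((-((p : ℝ) * ((17 * x - 8 * y) / 20) / 2) : ℝ) : ℂ)) = w
      push_cast
      field_simp
    simp_rw [h3]
    rw [← Finset.mul_sum, ← ih]
    have h7 : ((s.factorial : ℕ) : ℂ) ≠ 0 := by exact_mod_cast Nat.factorial_ne_zero _
    push_cast
    simp only [pow_zero, mul_one, add_zero, div_self h7]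
    field_simp
    linear_combination (40 * ((p : ℂ) * (17 * x - 8 * y) * (evQ x y r.2.2 : ℂ))) * Complex.I_mul_I

/-- numerator/denominator of `(-1)^T`-free kernel approximation: (den, re, im) -/
def kap (j : ℕ) (p : ℤ) (T : ℕ) : ℤ × QP × QP :=
  let u := hJ p j T 0
  let v := hE p T 0
  (4 ^ j * (j.factorial : ℤ) * u.1 * v.1, mulQ u.2 v.2.1, mulQ u.2 v.2.2)

theorem kap_pos (j : ℕ) (p : ℤ) (T : ℕ) : 0 < (kap j p T).1 := by
  have h1 := hJ_pos p j T 0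
  have h2 := hE_pos p T 0
  have h3 : 0 < (j.factorial : ℤ) := by exact_mod_cast j.factorial_pos
  simp only [kap]
  positivity

/-- sign of the kernel -/
def sg (j : ℤ) : ℤ := if j < 0 then 1 else (-1) ^ j.natAbs

/-! ### real polynomial times polynomial -/

def mulQP (m : M3) (c : ℤ) : QP → PZ → PZ
  | [], _ => []
  | e :: r, q => addP (mapP (mulM m (2 * e.1.1, e.1.2, e.1.2)) (sc4 (c * e.2)) q) (mulQP m c r q)

theorem evM_real (A : ℝ) (B : ℂ) (i k : ℕ) :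
    evM A B (2 * i, k, k) = (((A ^ 2) ^ i * (‖B‖ ^ 2) ^ k : ℝ) : ℂ) := by
  unfold evM
  simp only
  rw [mul_assoc, ← mul_pow, Complex.mul_conj, Complex.normSq_eq_norm_sq, pow_mul]
  push_cast
  ring

theorem evP_mulQP (A : ℝ) (B : ℂ) (m : M3) (c : ℤ) (q : PZ) : ∀ r : QP,
    evP A B (mulQP m c r q) = (c : ℂ) * evM A B m * (evQ (A ^ 2) (‖B‖ ^ 2) r : ℂ) * evP A B q
  | [] => by simp [mulQP]
  | e :: r => by
    rw [mulQP, evP_add, evP_map A B _ _ ((c * e.2 : ℤ) : ℂ) (ev4_sc _), evM_mul, evM_real,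
      evP_mulQP A B m c q r, evQ_cons]
    push_cast
    ring

/-! ### fractions -/

abbrev FP := ℤ × PZ

noncomputable def evF (A : ℝ) (B : ℂ) (f : FP) : ℂ := evP A B f.2 / (f.1 : ℂ)

def addF (f g : FP) : FP :=
  let l : ℤ := (Int.lcm f.1 g.1 : ℤ)
  (l, addP (scP (l / f.1) f.2) (scP (l / g.1) g.2))

theorem addF_ne {f g : FP} (hf : f.1 ≠ 0) (hg : g.1 ≠ 0) : (addF f g).1 ≠ 0 := by
  simp only [addF]
  have := Int.lcm_ne_zero hf hg
  exact_mod_cast this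

theorem evF_add (A : ℝ) (B : ℂ) {f g : FP} (hf : f.1 ≠ 0) (hg : g.1 ≠ 0) :
    evF A B (addF f g) = evF A B f + evF A B g := by
  unfold evF addF
  simp only
  rw [evP_add, evP_sc, evP_sc]
  set l : ℤ := (Int.lcm f.1 g.1 : ℤ) with hl
  have hl0 : (l : ℂ) ≠ 0 := by
    have := Int.lcm_ne_zero hf hg
    rw [hl]
    exact_mod_cast this
  have h1 : ((l / f.1 : ℤ) : ℂ) * (f.1 : ℂ) = (l : ℂ) := by
    rw [← Int.cast_mul, Int.ediv_mul_cancel (Int.dvd_lcm_left f.1 g.1)]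
  have h2 : ((l / g.1 : ℤ) : ℂ) * (g.1 : ℂ) = (l : ℂ) := by
    rw [← Int.cast_mul, Int.ediv_mul_cancel (Int.dvd_lcm_right f.1 g.1)]
  have hf' : (f.1 : ℂ) ≠ 0 := by exact_mod_cast hf
  have hg' : (g.1 : ℂ) ≠ 0 := by exact_mod_cast hg
  rw [add_div]
  congr 1
  · rw [div_eq_div_iff hl0 hf']
    linear_combination (evP A B f.2) * h1
  · rw [div_eq_div_iff hl0 hg']
    linear_combination (evP A B g.2) * h2

def sumF : List FP → FP
  | [] => (1, [])
  | f :: l => addF f (sumF l)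

theorem sumF_ne : ∀ l : List FP, (∀ f ∈ l, f.1 ≠ 0) → (sumF l).1 ≠ 0
  | [], _ => by simp [sumF]
  | f :: l, h => addF_ne (h f (by simp)) (sumF_ne l fun g hg => h g (by simp [hg]))

theorem evF_sum (A : ℝ) (B : ℂ) : ∀ l : List FP, (∀ f ∈ l, f.1 ≠ 0) →
    evF A B (sumF l) = (l.map (evF A B)).sum
  | [], _ => by simp [sumF, evF]
  | f :: l, h => by
    rw [sumF, evF_add A B (h f (by simp)) (sumF_ne l fun g hg => h g (by simp [hg])),
      evF_sum A B l fun g hg => h g (by simp [hg])]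
    simp

/-- one term of a row: `(2/p) q/DB` times the kernel approximation -/
def trm (DB : ℤ) (j p : ℤ) (T : ℕ) (q : PZ) : FP :=
  let k := kap j.natAbs p T
  let c := 2 * sg j * p ^ j.natAbs
  (DB * p * k.1, addP (mulQP (j.natAbs, 0, 0) c k.2.1 q) (mulQP (j.natAbs, 0, 0) c k.2.2 (rotP q)))

end Pool.Agent.Helper40.NR
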