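import Pool.Agent.Helper31.RC.Bes2
import Pool.Agent.Helper99.RC.KcSin
import Pool.Agent.Helper40.NR.Prog

/-!
# Project RC, SHARP: polynomial approximation of the kernel `CS d A π m n`

`d = (17 A² - 8 |B|²)/20`, `k = A`, `ph = π`; truncated series of `J` and `exp` with explicit remainders.
-/

set_option autoImplicit false

open MeasureTheory Set Filter Topology

namespace Pool.Agent.Helper40.NR

open Helper49.LT hiding sg
open Pool.Agent.Helper99.RC
open Helper31.Bes

/-! ### remainders -/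

theorem exp_rem_nonneg (T : ℕ) : ∀ x : ℝ, 0 ≤ x →
    ‖Complex.exp (Complex.I * x) - ∑ s ∈ Finset.range T, (Complex.I * x) ^ s / (s.factorial : ℂ)‖ ≤
      x ^ T / (T.factorial : ℝ) := by
  induction T with
  | zero =>
    intro x _
    rw [Finset.range_zero, Finset.sum_empty, sub_zero, mul_comm, Complex.norm_exp_ofReal_mul_I]
    simp
  | succ T ih =>
    intro x hx
    have hder : ∀ y : ℝ, HasDerivAt (fun y : ℝ => Complex.exp (Complex.I * y) -
        ∑ s ∈ Finset.range (T + 1), (Complex.I * y) ^ s / (s.factorial : ℂ))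
        (Complex.I * (Complex.exp (Complex.I * y) -
        ∑ s ∈ Finset.range T, (Complex.I * y) ^ s / (s.factorial : ℂ))) y := by
      intro y
      have h0 : HasDerivAt (fun y : ℝ => Complex.I * (y : ℂ)) Complex.I y := by
        have := (Complex.ofRealCLM.hasDerivAt (x := y)).const_mul Complex.I
        simpa using this
      have h1 : HasDerivAt (fun y : ℝ => Complex.exp (Complex.I * y)) (Complex.exp (Complex.I * y) * Complex.I) y :=
        h0.cexp
      have h2 : HasDerivAt (fun y : ℝ => ∑ s ∈ Finset.range (T + 1), (Complex.I * (y : ℂ)) ^ s / (s.factorial : ℂ))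
          (∑ s ∈ Finset.range (T + 1), ((s : ℂ) * (Complex.I * (y : ℂ)) ^ (s - 1) * Complex.I) /
            (s.factorial : ℂ)) y := by
        apply HasDerivAt.fun_sum
        intro s _
        exact (h0.pow s).div_const _
      have h3 : ∑ s ∈ Finset.range (T + 1), ((s : ℂ) * (Complex.I * (y : ℂ)) ^ (s - 1) * Complex.I) /
            (s.factorial : ℂ) =
          Complex.I * ∑ s ∈ Finset.range T, (Complex.I * (y : ℂ)) ^ s / (s.factorial : ℂ) := by
        rw [Finset.sum_range_succ', Finset.mul_sum]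
        simp only [Nat.cast_zero, zero_mul, zero_div, add_zero, Nat.add_sub_cancel]
        refine Finset.sum_congr rfl fun s _ => ?_
        rw [Nat.factorial_succ]
        have h4 : ((s : ℂ) + 1) ≠ 0 := by exact_mod_cast Nat.succ_ne_zero s
        have h5 : ((s.factorial : ℕ) : ℂ) ≠ 0 := by exact_mod_cast Nat.factorial_ne_zero s
        push_cast
        field_simp
      have h6 := h1.fun_sub h2
      rw [h3] at h6
      exact h6.congr_deriv (by ring)
    have hB : ∀ y : ℝ, HasDerivAt (fun y : ℝ => y ^ (T + 1) / ((T + 1).factorial : ℝ))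
        (y ^ T / (T.factorial : ℝ)) y := by
      intro y
      have := (hasDerivAt_pow (T + 1) y).div_const ((T + 1).factorial : ℝ)
      refine this.congr_deriv ?_
      rw [Nat.factorial_succ]
      have h4 : ((T : ℝ) + 1) ≠ 0 := by exact_mod_cast Nat.succ_ne_zero T
      have h5 : ((T.factorial : ℕ) : ℝ) ≠ 0 := by exact_mod_cast Nat.factorial_ne_zero T
      push_cast
      field_simp
    have := image_norm_le_of_norm_deriv_right_le_deriv_boundary (a := 0) (b := x)
      (f := fun y : ℝ => Complex.exp (Complex.I * y) -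
        ∑ s ∈ Finset.range (T + 1), (Complex.I * y) ^ s / (s.factorial : ℂ))
      (fun y _ => (hder y).continuousAt.continuousWithinAt)
      (fun y _ => (hder y).hasDerivWithinAt) (B := fun y : ℝ => y ^ (T + 1) / ((T + 1).factorial : ℝ))
      (B' := fun y => y ^ T / (T.factorial : ℝ)) (by
        simp [Finset.sum_range_succ']) hB (fun y hy => by
        rw [norm_mul, Complex.norm_I, one_mul]
        exact ih y hy.1)
    exact this ⟨hx, le_refl x⟩

theorem exp_rem (T : ℕ) (x : ℝ) :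
    ‖Complex.exp (Complex.I * x) - ∑ s ∈ Finset.range T, (Complex.I * x) ^ s / (s.factorial : ℂ)‖ ≤
      |x| ^ T / (T.factorial : ℝ) := by
  rcases le_total 0 x with h | h
  · rw [abs_of_nonneg h]
    exact exp_rem_nonneg T x h
  · rw [abs_of_nonpos h]
    have h1 := exp_rem_nonneg T (-x) (by linarith)
    rw [← Complex.norm_conj] at h1
    convert h1 using 2
    rw [map_sub, ← Complex.exp_conj, map_sum]
    simp only [map_mul, map_div₀, map_pow, Complex.conj_I, Complex.conj_ofReal, map_natCast]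
    congr 1
    · congr 1
      push_cast
      ring
    · refine Finset.sum_congr rfl fun s _ => ?_
      congr 1
      push_cast
      ring

theorem J_rem_nonneg (n T : ℕ) (y : ℝ) (hy : 0 ≤ y) :
    |J (n : ℤ) y - S n T y| ≤ (y / 2) ^ (n + 2 * T) / ((T.factorial : ℝ) * ((T + n).factorial : ℝ)) := by
  cases T with
  | zero =>
    have := J1_nat n y
    rw [abs_of_nonneg hy] at this
    simpa [S] using this
  | succ T =>
    have h1 := taylor T n y hy
    have h2 := taylor (T + 1) n y hy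
    have h3 : S n (T + 1 + 1) y = S n (T + 1) y + (-1 : ℝ) ^ (T + 1) * (y / 2) ^ (2 * (T + 1) + n) /
        (((T + 1).factorial : ℝ) * ((T + 1 + n).factorial : ℝ)) := by
      unfold S
      rw [Finset.sum_range_succ]
    rw [h3] at h2
    have he : n + 2 * (T + 1) = 2 * (T + 1) + n := by ring
    rw [he]
    set u := (y / 2) ^ (2 * (T + 1) + n) / (((T + 1).factorial : ℝ) * ((T + 1 + n).factorial : ℝ)) with hu
    set v := J (n : ℤ) y - S n (T + 1) y with hv
    have h4 : (-1 : ℝ) ^ (T + 1) * (y / 2) ^ (2 * (T + 1) + n) /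
        (((T + 1).factorial : ℝ) * ((T + 1 + n).factorial : ℝ)) = (-1 : ℝ) ^ (T + 1) * u := by
      rw [hu]; ring
    rw [h4] at h2
    have h5 : ((-1 : ℝ) ^ (T + 1)) * (-1 : ℝ) ^ (T + 1) = 1 := by
      rw [← mul_pow]; norm_num
    have h6 : (-1 : ℝ) ^ (T + 1 + 1) * (J (n : ℤ) y - (S n (T + 1) y + (-1 : ℝ) ^ (T + 1) * u)) =
        u - (-1 : ℝ) ^ (T + 1) * v := by
      rw [hv, pow_succ]
      linear_combination (-u) * h5 + 2 * u * h5
    rw [h6] at h2
    have h7 : |v| = (-1 : ℝ) ^ (T + 1) * v := by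
      have : |(-1 : ℝ) ^ (T + 1) * v| = |v| := by
        rw [abs_mul, abs_pow, abs_neg, abs_one, one_pow, one_mul]
      rw [← this, abs_of_nonneg h1]
    rw [h7]
    linarith

theorem S_neg (n T : ℕ) (y : ℝ) : S n T (-y) = (-1 : ℝ) ^ n * S n T y := by
  unfold S
  rw [Finset.mul_sum]
  refine Finset.sum_congr rfl fun m _ => ?_
  have : (-y / 2) ^ (2 * m + n) = (-1 : ℝ) ^ n * (y / 2) ^ (2 * m + n) := by
    rw [neg_div, neg_pow, pow_add (-1 : ℝ), pow_mul]
    norm_num
  rw [this]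
  ring

theorem J_rem (n T : ℕ) (y : ℝ) :
    |J (n : ℤ) y - S n T y| ≤ (|y| / 2) ^ (n + 2 * T) / ((T.factorial : ℝ) * ((T + n).factorial : ℝ)) := by
  rcases le_total 0 y with h | h
  · rw [abs_of_nonneg h]
    exact J_rem_nonneg n T y h
  · have h1 := J_rem_nonneg n T (-y) (by linarith)
    rw [J_neg_arg, J_neg_ord, S_neg, zpow_natCast, ← mul_sub, abs_mul, abs_pow, abs_neg, abs_one, one_pow,
      one_mul] at h1
    rw [abs_of_nonpos h]
    exact h1

/-! ### the kernel -/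

/-- `d` -/
noncomputable def dd (A : ℝ) (B : ℂ) : ℝ := (17 * A ^ 2 - 8 * ‖B‖ ^ 2) / 20

/-- the error of the kernel approximation -/
noncomputable def errK (A : ℝ) (B : ℂ) (j : ℕ) (p : ℤ) (T : ℕ) : ℝ :=
  if T = 0 then (|(p : ℝ)| * A / 4) ^ j / (j.factorial : ℝ)
  else (|(p : ℝ)| * A / 4) ^ j * ((|(p : ℝ)| * |dd A B| / 2) ^ T / ((T.factorial : ℝ) * (j.factorial : ℝ))
    + (1 + (|(p : ℝ)| * |dd A B| / 2) ^ T / (T.factorial : ℝ)) *
      ((|(p : ℝ)| * A / 4) ^ (2 * T) / ((T.factorial : ℝ) * ((T + j).factorial : ℝ))))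

/-- the approximation -/
noncomputable def apK (A : ℝ) (B : ℂ) (j : ℤ) (p : ℤ) (T : ℕ) : ℂ :=
  ((sg j * p ^ j.natAbs : ℤ) : ℂ) * (A : ℂ) ^ j.natAbs *
    ((evQ (A ^ 2) (‖B‖ ^ 2) (kap j.natAbs p T).2.1 : ℂ)
      + Complex.I * (evQ (A ^ 2) (‖B‖ ^ 2) (kap j.natAbs p T).2.2 : ℂ)) / ((kap j.natAbs p T).1 : ℂ)

theorem S_hJ (p : ℤ) (n T : ℕ) (A y : ℝ) : S n T ((p : ℝ) * A / 2) =
    ((p : ℝ) * A / 4) ^ n / (n.factorial : ℝ) * (evQ (A ^ 2) y (hJ p n T 0).2 / (hJ p n T 0).1) := by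
  rw [hJ_val, Finset.mul_sum]
  unfold S
  refine Finset.sum_congr rfl fun i _ => ?_
  simp only [Nat.factorial_zero, zero_add, Nat.cast_one, one_mul]
  have h1 : ((n.factorial : ℕ) : ℝ) ≠ 0 := by exact_mod_cast Nat.factorial_ne_zero _
  have e : (p : ℝ) * A / 2 / 2 = (p : ℝ) * A / 4 := by ring
  have e2 : (-((p : ℝ) ^ 2 * A ^ 2 / 16)) ^ i = (-1) ^ i * ((p : ℝ) * A / 4) ^ (2 * i) := by
    rw [neg_pow, pow_mul]
    congr 2
    ring
  rw [e, e2, pow_add]
  field_simp

theorem sign_J (j : ℤ) (y : ℝ) : ee ((j : ℝ) * Real.pi) * (J j y : ℂ) =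
    ((sg j : ℤ) : ℂ) * ((J (j.natAbs : ℤ) y : ℝ) : ℂ) := by
  have h1 : ee ((j : ℝ) * Real.pi) = (-1) ^ j := by rw [ee_int_mul, ee_pi]
  rw [h1]
  unfold sg
  split_ifs with h
  · obtain ⟨k, hk⟩ := Int.eq_ofNat_of_zero_le (show 0 ≤ -j by omega)
    have hj : j = -(k : ℤ) := by omega
    subst hj
    rw [J_neg_ord, Int.natAbs_neg, Int.natAbs_natCast]
    have : ((-1 : ℂ) ^ (-(k : ℤ))) * (-1) ^ (k : ℤ) = 1 := by
      rw [← zpow_add₀ (by norm_num)]
      simp
    push_cast
    linear_combination ((J (k : ℤ) y : ℝ) : ℂ) * this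
  · obtain ⟨k, hk⟩ := Int.eq_ofNat_of_zero_le (show 0 ≤ j by omega)
    subst hk
    rw [Int.natAbs_natCast]
    push_cast
    rw [zpow_natCast]

theorem CS_appr (A : ℝ) (hA : 0 ≤ A) (B : ℂ) (m n : ℤ) (h : (3 : ℤ) ∣ n - m) (T : ℕ) :
    ‖CS (dd A B) A Real.pi m n - apK A B ((n - m) / 3) (m + n) T‖ ≤
      errK A B ((n - m) / 3).natAbs (m + n) T := by
  set j := (n - m) / 3 with hj
  set p := m + n with hp
  set y := (p : ℝ) * A / 2 with hy
  set x := -((p : ℝ) * (dd A B) / 2) with hx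
  have hCS : CS (dd A B) A Real.pi m n = ((sg j : ℤ) : ℂ) * (Complex.exp (Complex.I * x) *
      ((J (j.natAbs : ℤ) y : ℝ) : ℂ)) := by
    unfold CS
    rw [if_pos h, mul_assoc]
    have e1 : ee (-(((m + n : ℤ) : ℝ) * dd A B / 2)) = Complex.exp (Complex.I * x) := by
      unfold ee
      rw [hx, hp, mul_comm]
    have e2 := sign_J j y
    rw [← hj, e1, hy, hp] at *
    rw [e2]
    ring
  have hap : apK A B j p T = ((sg j : ℤ) : ℂ) * ((∑ s ∈ Finset.range T, (Complex.I * x) ^ s / (s.factorial : ℂ)) *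
      ((S j.natAbs T y : ℝ) : ℂ)) := by
    have e1 := hE_val p (A ^ 2) (‖B‖ ^ 2) T 0
    have e2 := S_hJ p j.natAbs T A (‖B‖ ^ 2)
    have e3 : (∑ s ∈ Finset.range T, (Complex.I * x) ^ s / (s.factorial : ℂ)) =
        ∑ i ∈ Finset.range T, (Complex.I * ((-((p : ℝ) * ((17 * A ^ 2 - 8 * ‖B‖ ^ 2) / 20) / 2) : ℝ) : ℂ)) ^ i *
        (((0 : ℕ).factorial : ℂ) / ((0 + i).factorial : ℂ)) := by
      refine Finset.sum_congr rfl fun i _ => ?_
      rw [hx]
      unfold dd
      simp only [Nat.factorial_zero, Nat.cast_one, zero_add]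
      push_cast
      ring
    rw [e3, ← e1, hy, e2]
    unfold apK kap
    simp only [evQ_mul]
    have h1 := hJ_pos p j.natAbs T 0
    have h2 := hE_pos p T 0
    have h1' : (((hJ p j.natAbs T 0).1 : ℤ) : ℂ) ≠ 0 := by exact_mod_cast h1.ne'
    have h2' : (((hE p T 0).1 : ℤ) : ℂ) ≠ 0 := by exact_mod_cast h2.ne'
    have h3' : ((j.natAbs.factorial : ℕ) : ℂ) ≠ 0 := by exact_mod_cast Nat.factorial_ne_zero _
    have e4 : ((p : ℝ) * A / 4) ^ j.natAbs = (p : ℝ) ^ j.natAbs * A ^ j.natAbs / 4 ^ j.natAbs := by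
      rw [div_pow, mul_pow]
    rw [e4]
    push_cast
    field_simp
  rw [hCS, hap, ← mul_sub, norm_mul]
  have hs : ‖((sg j : ℤ) : ℂ)‖ = 1 := by
    unfold sg
    split_ifs
    · simp
    · push_cast
      rw [norm_pow, norm_neg, norm_one, one_pow]
  rw [hs, one_mul]
  set E := Complex.exp (Complex.I * x) with hE
  set ET := ∑ s ∈ Finset.range T, (Complex.I * (x : ℂ)) ^ s / (s.factorial : ℂ) with hET
  set JJ := J (j.natAbs : ℤ) y with hJJ
  set SS := S j.natAbs T y with hSS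
  have hxa : |x| = |(p : ℝ)| * |dd A B| / 2 := by
    rw [hx, abs_neg, abs_div, abs_mul]
    norm_num
  have hya : |y| / 2 = |(p : ℝ)| * A / 4 := by
    rw [hy, abs_div, abs_mul, abs_of_nonneg hA]
    norm_num
    ring
  have hE1 : ‖E‖ = 1 := by
    rw [hE, mul_comm, Complex.norm_exp_ofReal_mul_I]
  have hJ1 : |JJ| ≤ (|(p : ℝ)| * A / 4) ^ j.natAbs / (j.natAbs.factorial : ℝ) := by
    have := J1 (j.natAbs : ℤ) y
    rw [Int.natAbs_natCast, hya] at this
    exact this
  have hr1 : ‖E - ET‖ ≤ (|(p : ℝ)| * |dd A B| / 2) ^ T / (T.factorial : ℝ) := by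
    rw [← hxa]
    exact exp_rem T x
  have hr2 : |JJ - SS| ≤ (|(p : ℝ)| * A / 4) ^ (j.natAbs + 2 * T) /
      ((T.factorial : ℝ) * ((T + j.natAbs).factorial : ℝ)) := by
    rw [← hya]
    exact J_rem j.natAbs T y
  unfold errK
  split_ifs with hT
  · have e0 : ET = 0 := by rw [hET, hT]; simp
    rw [e0, zero_mul, sub_zero, norm_mul, hE1, one_mul, Complex.norm_real]
    exact hJ1
  · have e1 : E * (JJ : ℂ) - ET * (SS : ℂ) = (E - ET) * (JJ : ℂ) + ET * ((JJ - SS : ℝ) : ℂ) := by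
      push_cast; ring
    rw [e1]
    have hET1 : ‖ET‖ ≤ 1 + (|(p : ℝ)| * |dd A B| / 2) ^ T / (T.factorial : ℝ) := by
      have : ET = E - (E - ET) := by ring
      rw [this]
      refine (norm_sub_le _ _).trans ?_
      rw [hE1]
      linarith
    refine (norm_add_le _ _).trans ?_
    rw [norm_mul, norm_mul, Complex.norm_real, Complex.norm_real, Real.norm_eq_abs, Real.norm_eq_abs]
    have hp0 : 0 ≤ |(p : ℝ)| * A / 4 := by positivity
    have hx0 : 0 ≤ (|(p : ℝ)| * |dd A B| / 2) ^ T / (T.factorial : ℝ) := by positivity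
    calc ‖E - ET‖ * |JJ| + ‖ET‖ * |JJ - SS|
        ≤ (|(p : ℝ)| * |dd A B| / 2) ^ T / (T.factorial : ℝ) *
            ((|(p : ℝ)| * A / 4) ^ j.natAbs / (j.natAbs.factorial : ℝ))
          + (1 + (|(p : ℝ)| * |dd A B| / 2) ^ T / (T.factorial : ℝ)) *
            ((|(p : ℝ)| * A / 4) ^ (j.natAbs + 2 * T) /
              ((T.factorial : ℝ) * ((T + j.natAbs).factorial : ℝ))) := by
          gcongr
      _ = _ := by
          rw [pow_add]
          ring

end Pool.Agent.Helper40.NR
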