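import Pool.Agent.Helper40.NR.Gok

/-!
# Project RC, SHARP, zone I: assembly of the value `EP (b0, z0)` from its blocks in the format of the budget
-/

set_option autoImplicit false

open MeasureTheory Set Filter Topology

namespace Pool.Agent.Helper40.NR

open Helper49.RC Helper49.Sharp
open Helper56.RC (fc)
open Pool.Agent.Helper33.SH
open Helper20.RC (L1)
open Pool.Agent.Helper27.SH

/-- the constant `-9` -/
def v9 : VD := ⟨(1, [((0, 0, 0), (-9, 0, 0, 0))]), []⟩

theorem vok_9 (A : ℝ) (B : ℂ) : VOK A B v9 (-9) := by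
  unfold VOK v9 evF
  simp only [evP_cons, evP_nil, evM_zero, evN_nil]
  unfold ev4
  simp

variable (c : ZC) (A : ℝ) (B : ℂ)

/-- the exact block -/
noncomputable def EX : ℝ :=
  2 / 3 * ‖(PI c A B).sig (b0I A B)‖ ^ 2
    + 4 / 3 * ((starRingEnd ℂ) ((PI c A B).sig (b0I A B)) * (PI c A B).eta).re
    + L1 (PI c A B).eta 0 0 ((PI c A B).al (b0I A B))
    + 2 * (PI c A B).H0 (b0I A B) * (PI c A B).e00 (b0I A B) (z0I A B)
    - (PI c A B).pr2 * ((PI c A B).H0 (b0I A B) - (PI c A B).h0) ^ 2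

/-- the block `D2` -/
noncomputable def ED : ℝ :=
  D2 (PI c A B).nu (Hk ((PI c A B).dal (b0I A B))) ((PI c A B).eA (b0I A B) (z0I A B)) (PI c A B).ga

/-- the block of the local terms -/
noncomputable def ET : ℝ :=
  mean (fun t => (PI c A B).w t * (PI c A B).TL t (b0I A B t) (z0I A B t))

theorem EP_blocks : (PI c A B).EP (b0I A B) (z0I A B) =
    EX c A B + (ED c A B + (ET c A B + -9)) + (PI c A B).NS (b0I A B) (z0I A B) := by
  unfold Par.EP EX ED ET
  ring

variable {c A B}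

/-- blocks without `NS` -/
theorem vok_loc {vX vD vT : VD} (nX : vX.f.1 ≠ 0) (nD : vD.f.1 ≠ 0) (nT : vT.f.1 ≠ 0)
    (hX : VOK A B vX (EX c A B)) (hD : VOK A B vD (ED c A B)) (hT : VOK A B vT (ET c A B)) :
    VOK A B (vX.add (vD.add (vT.add v9)))
      ((PI c A B).EP (b0I A B) (z0I A B) - (PI c A B).NS (b0I A B) (z0I A B)) := by
  have n9 : v9.f.1 ≠ 0 := by decide
  have h1 := VOK.add nT n9 hT (vok_9 A B)
  have k1 : (vT.add v9).f.1 ≠ 0 := addF_ne nT n9
  have h2 := VOK.add nD k1 hD h1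
  have k2 : (vD.add (vT.add v9)).f.1 ≠ 0 := addF_ne nD k1
  have h3 := VOK.add nX k2 hX h2
  rw [EP_blocks]
  have e : EX c A B + (ED c A B + (ET c A B + -9)) + (PI c A B).NS (b0I A B) (z0I A B)
      - (PI c A B).NS (b0I A B) (z0I A B) = EX c A B + (ED c A B + (ET c A B + -9)) := by ring
  rw [e]
  exact h3

/-- **the value**: blocks without `NS`, plus `NS` -/
theorem vok_EP {vL : VD} (nL : vL.f.1 ≠ 0)
    (hL : VOK A B vL ((PI c A B).EP (b0I A B) (z0I A B) - (PI c A B).NS (b0I A B) (z0I A B)))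
    (hA : 0 ≤ A) (hA' : A ≤ 1 / 5) (hB : ‖B‖ ≤ 1 / 8)
    (hZ : |A| + 2 * ‖B‖ ≤ 1 / 4) (hρ : 100 ≤ c.rho) (hm : c.lam ≤ c.m) :
    VOK A B (vL.add vNS) ((PI c A B).EP (b0I A B) (z0I A B)) := by
  have nN : vNS.f.1 ≠ 0 := by decide
  have h := VOK.add nL nN hL (vok_NS c hA hA' hB hZ hρ hm)
  have e : (PI c A B).EP (b0I A B) (z0I A B) - (PI c A B).NS (b0I A B) (z0I A B)
      + (PI c A B).NS (b0I A B) (z0I A B) = (PI c A B).EP (b0I A B) (z0I A B) := by ring
  rw [e] at h
  exact h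

/-- two descriptions of the same value: a simpler polynomial with the same values (kernel check) -/
theorem VOK.simp {v w : VD} {E : ℝ} (h : VOK A B v E) (nv : v.f.1 ≠ 0) (nw : w.f.1 ≠ 0)
    (hf : eqP v.f.1 w.f.1 v.f.2 w.f.2 = true) (he : evN A ‖B‖ v.e ≤ evN A ‖B‖ w.e) : VOK A B w E := by
  unfold VOK at h ⊢
  have h1 : evF A B v.f = evF A B w.f := evP_eq hf A B nv nw
  rw [← h1]
  exact h.trans he

/-- comparison of error lists: removal of monomials one by one -/
def coN (m : ℕ × ℕ) : N2 → ℕ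
  | [] => 0
  | x :: e => if (x.1, x.2.1) = m then x.2.2 + coN m e else coN m e

def delN (m : ℕ × ℕ) : N2 → N2
  | [] => []
  | x :: e => if (x.1, x.2.1) = m then delN m e else x :: delN m e

theorem evN_del (A β : ℝ) (m : ℕ × ℕ) : ∀ e : N2,
    evN A β e = (coN m e : ℝ) / 1000000000 * (A ^ m.1 * β ^ m.2) + evN A β (delN m e)
  | [] => by simp [coN, delN]
  | x :: e => by
    rw [evN_cons, coN, delN]
    split_ifs with h
    · rw [evN_del A β m e, ← h]; push_cast; ring
    · rw [evN_cons, evN_del A β m e]; ring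

def leN : List (ℕ × ℕ) → N2 → N2 → Bool
  | [], e, _ => e.all fun x => x.2.2 == 0
  | m :: ms, e, f => decide (coN m e ≤ coN m f) && leN ms (delN m e) (delN m f)

theorem evN_allzero (A β : ℝ) : ∀ e : N2, (e.all fun x => x.2.2 == 0) = true → evN A β e = 0
  | [], _ => rfl
  | x :: e, h => by
    simp only [List.all_cons, Bool.and_eq_true, beq_iff_eq] at h
    rw [evN_cons, evN_allzero A β e h.2, h.1]
    simp

theorem evN_le {A β : ℝ} (hA : 0 ≤ A) (hβ : 0 ≤ β) : ∀ (ms : List (ℕ × ℕ)) (e f : N2), leN ms e f = true →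
    evN A β e ≤ evN A β f
  | [], e, f, h => by
    rw [evN_allzero A β e h]
    exact evN_nonneg hA hβ f
  | m :: ms, e, f, h => by
    simp only [leN, Bool.and_eq_true, decide_eq_true_eq] at h
    rw [evN_del A β m e, evN_del A β m f]
    have h1 := evN_le hA hβ ms _ _ h.2
    have h2 : (coN m e : ℝ) ≤ (coN m f : ℝ) := by exact_mod_cast h.1
    have h3 : 0 ≤ A ^ m.1 * β ^ m.2 := by positivity
    have h4 : (coN m e : ℝ) / 1000000000 * (A ^ m.1 * β ^ m.2) ≤
        (coN m f : ℝ) / 1000000000 * (A ^ m.1 * β ^ m.2) := by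
      apply mul_le_mul_of_nonneg_right _ h3
      linarith
    linarith

end Pool.Agent.Helper40.NR
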