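import Pool.Agent.Helper40.NR.Rows
import Pool.Agent.Helper31.NR.Brk
import Pool.Agent.Helper30.SH.NSrow

/-!
# Project RC, SHARP: kernel checks of the rows `rS`, `rP`, `rR`
-/

set_option autoImplicit false

open MeasureTheory Set Filter Topology

namespace Pool.Agent.Helper40.NR

open Helper49.LT hiding sg rR
open Helper49.RC (om)
open Helper95.RC (kq)
open Pool.Agent.Helper99.RC
open Pool.Agent.Helper61.RC
open Pool.Agent.Helper31.NR
open Pool.Agent.Helper30.SH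

/-- degree of the truncation -/
def DD (m n : ℤ) : ℕ :=
  if m = 1 then 7
  else if m % 2 = 0 then (if n = 1 ∨ n = -2 ∨ n = -5 ∨ n = 7 then 8 else 6)
  else 5

/-- rows of the first side -/
def fA (m : ℤ) : FP := rowF 1600 1 DD (cjL aL) (cjL bL) m
/-- rows of the second side -/
def fB (m : ℤ) : FP := rowF 1600 (-1) DD bL aL m
/-- sum of the two errors -/
def eAB (k : ℕ) (m : ℤ) : EE := errs brk k 1600 DD m (cjL bL) (errs brk k 1600 DD m aL [])

/-! ### powers of `ω` -/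

/-- `2 ω^k` -/
def om2 (k : ℤ) : Z4 :=
  if k % 6 = 0 then (2, 0, 0, 0) else if k % 6 = 1 then (1, 0, 0, 1) else if k % 6 = 2 then (-1, 0, 0, 1)
  else if k % 6 = 3 then (-2, 0, 0, 0) else if k % 6 = 4 then (-1, 0, 0, -1) else (1, 0, 0, -1)

theorem om_val' : om = (1 / 2 : ℂ) + Complex.I * (((Real.sqrt 3 : ℝ) : ℂ) / 2) := by
  rw [Helper95.RC.om_val]
  push_cast
  ring

theorem om_2 : om ^ 2 = -(1 / 2 : ℂ) + Complex.I * (((Real.sqrt 3 : ℝ) : ℂ) / 2) := by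
  rw [Helper95.RC.om_sq]
  push_cast
  ring

theorem om_3 : om ^ 3 = -1 := by
  rw [pow_succ, om_2, om_val']
  have h := s3C_sq
  linear_combination (1 / 4) * Complex.I_mul_I * ((Real.sqrt 3 : ℝ) : ℂ) ^ 2 - (1 / 4) * h

theorem om_6 : om ^ 6 = 1 := by
  rw [show (6 : ℕ) = 3 * 2 by norm_num, pow_mul, om_3]
  norm_num

theorem ev4_om2 (k : ℤ) : ev4 (om2 k) = 2 * om ^ k := by
  have hk : k = 6 * (k / 6) + k % 6 := (Int.mul_ediv_add_emod k 6).symm
  have h0 : 0 ≤ k % 6 := Int.emod_nonneg k (by norm_num)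
  have h1 : k % 6 < 6 := Int.emod_lt_of_pos k (by norm_num)
  have h6 : om ^ k = om ^ (k % 6) := by
    conv_lhs => rw [hk]
    rw [zpow_add₀ om_ne, zpow_mul]
    have : om ^ (6 : ℤ) = 1 := by
      have := om_6
      exact_mod_cast this
    rw [this, one_zpow, one_mul]
  rw [h6]
  have e3 : om ^ (3 : ℤ) = -1 := by
    have := om_3
    exact_mod_cast this
  have e2 : om ^ (2 : ℤ) = -(1 / 2 : ℂ) + Complex.I * (((Real.sqrt 3 : ℝ) : ℂ) / 2) := by
    have := om_2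
    rw [← this]
    norm_cast
  have e4 : om ^ (4 : ℤ) = -om := by
    rw [show (4 : ℤ) = 3 + 1 by norm_num, zpow_add₀ om_ne, e3, zpow_one]; ring
  have e5 : om ^ (5 : ℤ) = -(-(1 / 2 : ℂ) + Complex.I * (((Real.sqrt 3 : ℝ) : ℂ) / 2)) := by
    rw [show (5 : ℤ) = 3 + 2 by norm_num, zpow_add₀ om_ne, e3, e2]; ring
  have hr : k % 6 = 0 ∨ k % 6 = 1 ∨ k % 6 = 2 ∨ k % 6 = 3 ∨ k % 6 = 4 ∨ k % 6 = 5 := by omega
  rcases hr with h | h | h | h | h | h
  · unfold om2 ev4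
    simp only [h]
    simp
  · unfold om2 ev4
    simp only [h]
    rw [zpow_one, om_val']
    simp
    ring
  · unfold om2 ev4
    simp only [h]
    rw [e2]
    simp
    ring
  · unfold om2 ev4
    simp only [h]
    rw [e3]
    simp
  · unfold om2 ev4
    simp only [h]
    rw [e4, om_val']
    simp
    ring
  · unfold om2 ev4
    simp only [h]
    rw [e5]
    simp
    ring

/-! ### removal of vanishing terms -/

def dropZ : PZ → PZ
  | [] => []
  | x :: p => if x.2 = ((0, 0, 0, 0) : Z4) then dropZ p else x :: dropZ p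

theorem evP_dropZ (A : ℝ) (B : ℂ) : ∀ p : PZ, evP A B (dropZ p) = evP A B p
  | [] => rfl
  | x :: p => by
    rw [dropZ]
    split_ifs with h
    · rw [evP_dropZ A B p, evP_cons, h]
      simp [ev4]
    · rw [evP_cons, evP_cons, evP_dropZ A B p]

/-- difference of a computed fraction and a claimed one is within the error -/
def chk (k : ℕ) (f : FP) (C : PZ) (dC : ℤ) (acc E : EE) (ms : List (ℕ × ℕ)) : Bool :=
  let g := addF f (dC, scP (-1) C)
  decide (f.1 ≠ 0) && (decide (dC ≠ 0) && leE' ms (hiE k g.1.natAbs (dropZ g.2) acc) E)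

theorem chk_sound {A : ℝ} (hA : 0 ≤ A) (hA' : A ≤ 1 / 5) {B : ℂ} (hB : ‖B‖ ≤ 1 / 8) {k : ℕ} (hk : 1 ≤ k)
    {f : FP} {C : PZ} {dC : ℤ} {acc E : EE} {ms : List (ℕ × ℕ)} (h : chk k f C dC acc E ms = true) {X : ℂ}
    (hX : ‖X - evF A B f‖ ≤ evE A ‖B‖ acc) : ‖X - evP A B C / (dC : ℂ)‖ ≤ evE A ‖B‖ E := by
  unfold chk at h
  simp only [Bool.and_eq_true, decide_eq_true_eq] at h
  obtain ⟨h1, h2, h3⟩ := h
  have hg : evF A B (addF f (dC, scP (-1) C)) = evF A B f - evP A B C / (dC : ℂ) := by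
    rw [evF_add A B h1 h2]
    unfold evF
    simp only
    rw [evP_sc]
    push_cast
    ring
  have hne := addF_ne h1 (show (dC, scP (-1) C).1 ≠ 0 from h2)
  set g := addF f (dC, scP (-1) C) with hgd
  have hd : 0 < g.1.natAbs := Int.natAbs_pos.2 hne
  have h4 := hiE_le hA hA' (norm_nonneg B) hB hk hd (dropZ g.2) acc
  have h5 := evE_le hA (norm_nonneg B) ms _ _ h3
  have h6 := abP_le hA B (dropZ g.2)
  rw [evP_dropZ] at h6
  have h7 : ‖evF A B g‖ ≤ abP A ‖B‖ (dropZ g.2) / (g.1.natAbs : ℝ) := by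
    unfold evF
    rw [norm_div]
    have e : ‖((g.1 : ℤ) : ℂ)‖ = (g.1.natAbs : ℝ) := by
      rw [Complex.norm_intCast, Nat.cast_natAbs, Int.cast_abs]
    rw [e]
    exact div_le_div_of_nonneg_right h6 (by positivity)
  have e : X - evP A B C / (dC : ℂ) = (X - evF A B f) + evF A B g := by rw [hg]; ring
  rw [e]
  refine (norm_add_le _ _).trans ?_
  linarith

/-- the row of `s` -/
def zF (m : ℤ) : FP :=
  let a := fA m
  let b := fB m
  addF (a.1, smP (om2 m) (cjP a.2)) (b.1, smP (sc4 (-1) (om2 (2 * m))) b.2)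
/-- the row of `p` -/
def pF (m : ℤ) : FP :=
  let a := fA m
  let b := fB m
  addF (a.1, smP (om2 (m + 1)) (cjP a.2)) (b.1, smP (om2 (2 * (m + 1))) b.2)
/-- the row of `r` -/
def rF (m : ℤ) : FP :=
  let a := fA m
  let b := fB m
  addF (4 * a.1, smP (mul4 (0, 4, -1, 0) (om2 m)) (cjP a.2)) (4 * b.1, smP (mul4 (0, 4, 1, 0) (om2 (2 * m))) b.2)

def ms7 : List (ℕ × ℕ) := [(7, 0), (6, 1), (5, 2), (4, 3), (3, 4), (2, 5), (1, 6), (0, 7)]
def ms6 : List (ℕ × ℕ) := [(6, 0), (5, 1), (4, 2), (3, 3), (2, 4), (1, 5), (0, 6)]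

def chkZ (m : ℤ) (C : PZ) (dC : ℤ) (E : EE) : Bool := chk 7 (zF m) C dC (scE 2 (eAB 7 m)) E ms7
def chkP (m : ℤ) (C : PZ) (dC : ℤ) (E : EE) : Bool := chk 6 (pF m) C dC (scE 2 (eAB 6 m)) E ms6
def chkR (m : ℤ) (C : PZ) (dC : ℤ) (E : EE) : Bool := chk 6 (rF m) C dC (scE 4 (eAB 6 m)) E ms6

/-! ### soundness -/

theorem nodup_a : (aL.map Prod.fst).Nodup := by decide
theorem nodup_b : (bL.map Prod.fst).Nodup := by decide
theorem keys_a : ∀ n ∈ aL.map Prod.fst, n ∈ Finset.Icc (-11 : ℤ) 13 := by decide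
theorem keys_b : ∀ n ∈ bL.map Prod.fst, n ∈ Finset.Icc (-11 : ℤ) 13 := by decide
theorem norm_om : ‖om‖ = 1 := norm_ee _

theorem kq_norm : ‖kq 2‖ ≤ 2 := by
  unfold kq
  refine (norm_add_le _ _).trans ?_
  rw [norm_mul, Complex.norm_I, one_mul, Complex.norm_real, Complex.norm_real, Real.norm_eq_abs, Real.norm_eq_abs]
  have h1 := s3_hi
  have h2 : 0 ≤ Real.sqrt 3 := Real.sqrt_nonneg 3
  rw [abs_of_nonneg (by positivity), abs_of_nonneg (by norm_num)]
  linarith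

theorem kq_val : ev4 (0, 4, 1, 0) = 4 * kq 2 := by
  unfold ev4 kq
  push_cast
  ring

theorem kqc_val : ev4 (0, 4, -1, 0) = 4 * (starRingEnd ℂ) (kq 2) := by
  unfold ev4 kq
  rw [map_add, map_mul, Complex.conj_I, Complex.conj_ofReal, Complex.conj_ofReal]
  push_cast
  ring

section

variable {A : ℝ} (hA : 0 ≤ A) (hA' : A ≤ 1 / 5) {B : ℂ} (hB : ‖B‖ ≤ 1 / 8) {S : Finset ℤ}
  (hS : Finset.Icc (-11 : ℤ) 13 ⊆ S)

include hA hA' hB hS

/-- the two rows with their common error -/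
theorem rows_AB (k : ℕ) (hk : 1 ≤ k) (m : ℤ) :
    ‖GA (dd A B) A Real.pi S (aC A B) (bC A B) m - evF A B (fA m)‖
      + ‖GB (dd A B) A Real.pi S (aC A B) (bC A B) m - evF A B (fB m)‖ ≤ evE A ‖B‖ (eAB k m) ∧
      (fA m).1 ≠ 0 ∧ (fB m).1 ≠ 0 := by
  have hbr : ∀ (j : ℕ) (p : ℤ) (T : ℕ), p ≠ 0 → 2 / |(p : ℝ)| * errK A B j p T ≤ evB A ‖B‖ (brk j p T) :=
    fun j p T hp => brk_le hA (by linarith) hB j hp T
  have hbr0 : ∀ (j : ℕ) (p : ℤ) (T : ℕ), p ≠ 0 → ∀ e ∈ brk j p T, 0 < e.2.2 :=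
    fun j p T hp => brk_pos hp j T
  have hb := row_err brk hA hA' hB hbr hbr0 k hk 1600 (by norm_num) (-1) (Or.inr rfl) DD m S bL aL
    nodup_a (fun n hn => hS (keys_a n hn)) []
  have ha := row_err brk hA hA' hB hbr hbr0 k hk 1600 (by norm_num) 1 (Or.inl rfl) DD m S (cjL aL) (cjL bL)
    (by rw [map_fst_cj]; exact nodup_b) (fun n hn => hS (keys_b n (by rwa [map_fst_cj] at hn)))
    (errs brk k 1600 DD m aL [])
  rw [evE_nil, add_zero] at hb
  rw [GA_GR, GB_GR]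
  refine ⟨?_, ha.2, hb.2⟩
  have h1 := ha.1
  have h2 := hb.1
  unfold fA fB eAB
  refine le_trans ?_ h1
  exact add_le_add (le_refl _) h2

/-- rows of `s` -/
theorem rowZ (m : ℤ) {C : PZ} {dC : ℤ} {E : EE} (h : chkZ m C dC E = true) :
    ‖rS (GA (dd A B) A Real.pi S (aC A B) (bC A B)) (GB (dd A B) A Real.pi S (aC A B) (bC A B)) (m - 1)
      - evP A B C / (dC : ℂ)‖ ≤ evE A ‖B‖ E := by
  obtain ⟨h1, h2, h3⟩ := rows_AB hA hA' hB hS 7 (by norm_num) m
  refine chk_sound hA hA' hB (by norm_num) h ?_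
  rw [evE_sc]
  set G := GA (dd A B) A Real.pi S (aC A B) (bC A B)
  set H := GB (dd A B) A Real.pi S (aC A B) (bC A B)
  have hF : evF A B (zF m) = 2 * (om ^ m * (starRingEnd ℂ) (evF A B (fA m)) - om ^ (2 * m) * evF A B (fB m)) := by
    unfold zF
    simp only
    rw [evF_add A B (show ((fA m).1, smP (om2 m) (cjP (fA m).2)).1 ≠ 0 from h2)
      (show ((fB m).1, smP (sc4 (-1) (om2 (2 * m))) (fB m).2).1 ≠ 0 from h3)]
    unfold evF
    simp only
    rw [evP_sm, evP_sm, ev4_sc, evP_cj, ev4_om2, ev4_om2, map_div₀, map_intCast]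
    push_cast
    ring
  rw [hF]
  unfold rS
  rw [sub_add_cancel]
  have e : 2 * (om ^ m * (starRingEnd ℂ) (G m) - om ^ (2 * m) * H m)
      - 2 * (om ^ m * (starRingEnd ℂ) (evF A B (fA m)) - om ^ (2 * m) * evF A B (fB m)) =
      2 * (om ^ m * (starRingEnd ℂ) (G m - evF A B (fA m)) - om ^ (2 * m) * (H m - evF A B (fB m))) := by
    rw [map_sub]; ring
  rw [e, norm_mul]
  have ho : ∀ n : ℤ, ‖om ^ n‖ = 1 := fun n => by rw [norm_zpow, norm_om, one_zpow]
  have h4 : ‖om ^ m * (starRingEnd ℂ) (G m - evF A B (fA m)) - om ^ (2 * m) * (H m - evF A B (fB m))‖ ≤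
      ‖G m - evF A B (fA m)‖ + ‖H m - evF A B (fB m)‖ := by
    refine (norm_sub_le _ _).trans ?_
    rw [norm_mul, norm_mul, ho, ho, one_mul, one_mul, Complex.norm_conj]
  have e2 : ‖(2 : ℂ)‖ = 2 := by norm_num
  rw [e2]
  push_cast
  linarith

/-- rows of `p` -/
theorem rowP (m : ℤ) {C : PZ} {dC : ℤ} {E : EE} (h : chkP m C dC E = true) :
    ‖rP (GA (dd A B) A Real.pi S (aC A B) (bC A B)) (GB (dd A B) A Real.pi S (aC A B) (bC A B)) (m - 1)
      - evP A B C / (dC : ℂ)‖ ≤ evE A ‖B‖ E := by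
  obtain ⟨h1, h2, h3⟩ := rows_AB hA hA' hB hS 6 (by norm_num) m
  refine chk_sound hA hA' hB (by norm_num) h ?_
  rw [evE_sc]
  set G := GA (dd A B) A Real.pi S (aC A B) (bC A B)
  set H := GB (dd A B) A Real.pi S (aC A B) (bC A B)
  have hF : evF A B (pF m) =
      2 * (om ^ (m + 1) * (starRingEnd ℂ) (evF A B (fA m)) + om ^ (2 * (m + 1)) * evF A B (fB m)) := by
    unfold pF
    simp only
    rw [evF_add A B (show ((fA m).1, smP (om2 (m + 1)) (cjP (fA m).2)).1 ≠ 0 from h2)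
      (show ((fB m).1, smP (om2 (2 * (m + 1))) (fB m).2).1 ≠ 0 from h3)]
    unfold evF
    simp only
    rw [evP_sm, evP_sm, evP_cj, ev4_om2, ev4_om2, map_div₀, map_intCast]
    ring
  rw [hF]
  unfold rP
  have e0 : m - 1 + 2 = m + 1 := by ring
  rw [sub_add_cancel, e0]
  have e : 2 * (om ^ (m + 1) * (starRingEnd ℂ) (G m) + om ^ (2 * (m + 1)) * H m)
      - 2 * (om ^ (m + 1) * (starRingEnd ℂ) (evF A B (fA m)) + om ^ (2 * (m + 1)) * evF A B (fB m)) =
      2 * (om ^ (m + 1) * (starRingEnd ℂ) (G m - evF A B (fA m)) + om ^ (2 * (m + 1)) * (H m - evF A B (fB m))) := by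
    rw [map_sub]; ring
  rw [e, norm_mul]
  have ho : ∀ n : ℤ, ‖om ^ n‖ = 1 := fun n => by rw [norm_zpow, norm_om, one_zpow]
  have h4 : ‖om ^ (m + 1) * (starRingEnd ℂ) (G m - evF A B (fA m)) + om ^ (2 * (m + 1)) * (H m - evF A B (fB m))‖ ≤
      ‖G m - evF A B (fA m)‖ + ‖H m - evF A B (fB m)‖ := by
    refine (norm_add_le _ _).trans ?_
    rw [norm_mul, norm_mul, ho, ho, one_mul, one_mul, Complex.norm_conj]
  have e2 : ‖(2 : ℂ)‖ = 2 := by norm_num
  rw [e2]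
  push_cast
  linarith

/-- rows of `r` -/
theorem rowR (m : ℤ) {C : PZ} {dC : ℤ} {E : EE} (h : chkR m C dC E = true) :
    ‖rR (GA (dd A B) A Real.pi S (aC A B) (bC A B)) (GB (dd A B) A Real.pi S (aC A B) (bC A B)) (m - 1)
      - evP A B C / (dC : ℂ)‖ ≤ evE A ‖B‖ E := by
  obtain ⟨h1, h2, h3⟩ := rows_AB hA hA' hB hS 6 (by norm_num) m
  refine chk_sound hA hA' hB (by norm_num) h ?_
  rw [evE_sc]
  set G := GA (dd A B) A Real.pi S (aC A B) (bC A B)
  set H := GB (dd A B) A Real.pi S (aC A B) (bC A B)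
  have h2' : (((fA m).1 : ℤ) : ℂ) ≠ 0 := by exact_mod_cast h2
  have h3' : (((fB m).1 : ℤ) : ℂ) ≠ 0 := by exact_mod_cast h3
  have hF : evF A B (rF m) = 2 * ((starRingEnd ℂ) (kq 2) * om ^ m * (starRingEnd ℂ) (evF A B (fA m))
      + kq 2 * om ^ (2 * m) * evF A B (fB m)) := by
    unfold rF
    simp only
    rw [evF_add A B (show (4 * (fA m).1, smP (mul4 (0, 4, -1, 0) (om2 m)) (cjP (fA m).2)).1 ≠ 0 from
        mul_ne_zero (by norm_num) h2)
      (show (4 * (fB m).1, smP (mul4 (0, 4, 1, 0) (om2 (2 * m))) (fB m).2).1 ≠ 0 from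
        mul_ne_zero (by norm_num) h3)]
    unfold evF
    simp only
    rw [evP_sm, evP_sm, ev4_mul, ev4_mul, evP_cj, ev4_om2, ev4_om2, kq_val, kqc_val, map_div₀, map_intCast]
    push_cast
    field_simp
  rw [hF]
  unfold rR
  rw [sub_add_cancel]
  have e : 2 * ((starRingEnd ℂ) (kq 2) * om ^ m * (starRingEnd ℂ) (G m) + kq 2 * om ^ (2 * m) * H m)
      - 2 * ((starRingEnd ℂ) (kq 2) * om ^ m * (starRingEnd ℂ) (evF A B (fA m))
        + kq 2 * om ^ (2 * m) * evF A B (fB m)) =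
      2 * ((starRingEnd ℂ) (kq 2) * om ^ m * (starRingEnd ℂ) (G m - evF A B (fA m))
        + kq 2 * om ^ (2 * m) * (H m - evF A B (fB m))) := by
    rw [map_sub]; ring
  rw [e, norm_mul]
  have ho : ∀ n : ℤ, ‖om ^ n‖ = 1 := fun n => by rw [norm_zpow, norm_om, one_zpow]
  have hk := kq_norm
  have h4 : ‖(starRingEnd ℂ) (kq 2) * om ^ m * (starRingEnd ℂ) (G m - evF A B (fA m))
        + kq 2 * om ^ (2 * m) * (H m - evF A B (fB m))‖ ≤
      2 * (‖G m - evF A B (fA m)‖ + ‖H m - evF A B (fB m)‖) := by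
    refine (norm_add_le _ _).trans ?_
    rw [norm_mul, norm_mul, norm_mul, norm_mul, ho, ho, mul_one, mul_one, Complex.norm_conj, Complex.norm_conj]
    have := norm_nonneg (G m - evF A B (fA m))
    have := norm_nonneg (H m - evF A B (fB m))
    nlinarith
  have e2 : ‖(2 : ℂ)‖ = 2 := by norm_num
  rw [e2]
  push_cast
  linarith

end

end Pool.Agent.Helper40.NR
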