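import Pool.Agent.Helper40.NR.Check
import Pool.Agent.Helper20.SH.TailNS

/-!
# Project RC, SHARP: tail of the rows and the generic form of the error of one family
-/

set_option autoImplicit false
set_option maxRecDepth 100000

open MeasureTheory Set Filter Topology

namespace Pool.Agent.Helper40.NR

open Helper49.LT hiding sg rR
open Helper49.RC (om)
open Helper95.RC (kq)
open Pool.Agent.Helper99.RC
open Pool.Agent.Helper61.RC
open Pool.Agent.Helper30.SH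
open Pool.Agent.Helper20.SH (tail_GA tail_GB tail_sq)

/-! ### the weight `W` -/

/-- `abP (1/5) (1/8)` as a rational number -/
def abQ (q : PZ) : ℚ :=
  (q.map fun x => (ab4 x.2 : ℚ) / 1000000000 * ((1 / 5) ^ x.1.1 * (1 / 8) ^ (x.1.2.1 + x.1.2.2))).sum

theorem abP_abQ {A β : ℝ} (hA : 0 ≤ A) (hA' : A ≤ 1 / 5) (hβ : 0 ≤ β) (hβ' : β ≤ 1 / 8) : ∀ q : PZ,
    abP A β q ≤ ((abQ q : ℚ) : ℝ)
  | [] => by simp [abQ]
  | x :: q => by
    have ih := abP_abQ hA hA' hβ hβ' q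
    have e : abQ (x :: q) = (ab4 x.2 : ℚ) / 1000000000 * ((1 / 5) ^ x.1.1 * (1 / 8) ^ (x.1.2.1 + x.1.2.2)) + abQ q := by
      simp [abQ]
    rw [abP_cons, e]
    push_cast
    have h1 : A ^ x.1.1 ≤ (1 / 5 : ℝ) ^ x.1.1 := pow_le_pow_left₀ hA hA' _
    have h2 : β ^ (x.1.2.1 + x.1.2.2) ≤ (1 / 8 : ℝ) ^ (x.1.2.1 + x.1.2.2) := pow_le_pow_left₀ hβ hβ' _
    have h3 : A ^ x.1.1 * β ^ (x.1.2.1 + x.1.2.2) ≤ (1 / 5 : ℝ) ^ x.1.1 * (1 / 8 : ℝ) ^ (x.1.2.1 + x.1.2.2) :=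
      mul_le_mul h1 h2 (by positivity) (by positivity)
    have h4 : 0 ≤ (ab4 x.2 : ℝ) / 1000000000 := by positivity
    have h5 := mul_le_mul_of_nonneg_left h3 h4
    linarith

/-- the list of the weights -/
def wQ (L : List (ℤ × PZ)) : ℚ := (L.map fun x => abQ x.2 / 1600 * (51 / 25) ^ x.1.natAbs).sum

theorem wQ_a : wQ aL ≤ 60 := by decide +kernel
theorem wQ_b : wQ bL ≤ 60 := by decide +kernel

theorem W_le {A : ℝ} (hA : 0 ≤ A) (hA' : A ≤ 1 / 5) {B : ℂ} (hB : ‖B‖ ≤ 1 / 8) (L : List (ℤ × PZ))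
    (hL : (L.map Prod.fst).Nodup) (hS : ∀ n ∈ L.map Prod.fst, n ∈ Finset.Icc (-11 : ℤ) 13) :
    ∑ n ∈ Finset.Icc (-13 : ℤ) 13, ‖evP A B (lk L n) / 1600‖ * (51 / 25 : ℝ) ^ n.natAbs ≤ ((wQ L : ℚ) : ℝ) := by
  have h1 := sum_lk (Finset.Icc (-13 : ℤ) 13)
    (fun n q => ((‖evP A B q / 1600‖ * (51 / 25 : ℝ) ^ n.natAbs : ℝ) : ℂ)) (fun n => by simp) L hL
    (fun n hn => by
      have := hS n hn
      rw [Finset.mem_Icc] at this ⊢
      omega)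
  have h2 : ∑ n ∈ Finset.Icc (-13 : ℤ) 13, ‖evP A B (lk L n) / 1600‖ * (51 / 25 : ℝ) ^ n.natAbs =
      (L.map fun x => ‖evP A B x.2 / 1600‖ * (51 / 25 : ℝ) ^ x.1.natAbs).sum := by
    have h3 : ((∑ n ∈ Finset.Icc (-13 : ℤ) 13, ‖evP A B (lk L n) / 1600‖ * (51 / 25 : ℝ) ^ n.natAbs : ℝ) : ℂ) =
        (((L.map fun x => ‖evP A B x.2 / 1600‖ * (51 / 25 : ℝ) ^ x.1.natAbs).sum : ℝ) : ℂ) := by
      rw [Complex.ofReal_sum, h1]
      clear h1 hL hS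
      induction L with
      | nil => simp
      | cons x L ih => rw [List.map_cons, List.sum_cons, List.map_cons, List.sum_cons, ih, Complex.ofReal_add]
    exact Complex.ofReal_injective h3
  rw [h2]
  clear h1 h2 hL hS
  induction L with
  | nil => simp [wQ]
  | cons x L ih =>
    have e : wQ (x :: L) = abQ x.2 / 1600 * (51 / 25) ^ x.1.natAbs + wQ L := by simp [wQ]
    rw [List.map_cons, List.sum_cons, e]
    push_cast
    have h5 : ‖evP A B x.2 / 1600‖ ≤ ((abQ x.2 : ℚ) : ℝ) / 1600 := by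
      rw [norm_div]
      have : ‖(1600 : ℂ)‖ = 1600 := by norm_num
      rw [this]
      exact div_le_div_of_nonneg_right ((abP_le hA B _).trans (abP_abQ hA hA' (norm_nonneg B) hB _)) (by norm_num)
    have h6 : (0 : ℝ) ≤ (51 / 25 : ℝ) ^ x.1.natAbs := by positivity
    have h7 := mul_le_mul_of_nonneg_right h5 h6
    linarith

theorem aC_supp (A : ℝ) (B : ℂ) (n : ℤ) (hn : 13 < |n|) : aC A B n = 0 := by
  unfold aC
  rw [lk_not aL n]
  · simp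
  · intro h
    have := keys_a n h
    rw [Finset.mem_Icc] at this
    have h2 : |n| ≤ 13 := abs_le.2 ⟨by omega, by omega⟩
    omega

theorem bC_supp (A : ℝ) (B : ℂ) (n : ℤ) (hn : 13 < |n|) : bC A B n = 0 := by
  unfold bC
  rw [lk_not bL n]
  · simp
  · intro h
    have := keys_b n h
    rw [Finset.mem_Icc] at this
    have h2 : |n| ≤ 13 := abs_le.2 ⟨by omega, by omega⟩
    omega

/-- the tail of both sides -/
theorem tail_AB {A : ℝ} (hA : 0 ≤ A) (hA' : A ≤ 1 / 5) {B : ℂ} (hB : ‖B‖ ≤ 1 / 8) (S : Finset ℤ) (m : ℤ)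
    (hm : 40 ≤ |m|) :
    ‖GA (dd A B) A Real.pi S (aC A B) (bC A B) m‖ + ‖GB (dd A B) A Real.pi S (aC A B) (bC A B) m‖ ≤
      9120 * A ^ 5 * (81 / 100) ^ m.natAbs := by
  have h1 := tail_GA A (dd A B) hA (by linarith) S (aC A B) (bC A B) (aC_supp A B) (bC_supp A B) m hm
  have h2 := tail_GB A (dd A B) hA (by linarith) S (aC A B) (bC A B) (aC_supp A B) (bC_supp A B) m hm
  have w1 := W_le hA hA' hB bL nodup_b keys_b
  have w2 := W_le hA hA' hB aL nodup_a keys_a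
  have q1 : ((wQ bL : ℚ) : ℝ) ≤ 60 := by exact_mod_cast wQ_b
  have q2 : ((wQ aL : ℚ) : ℝ) ≤ 60 := by exact_mod_cast wQ_a
  have p : 0 ≤ 76 * A ^ 5 * (81 / 100 : ℝ) ^ m.natAbs := by positivity
  have h3 := mul_le_mul_of_nonneg_left (w1.trans q1) p
  have h4 := mul_le_mul_of_nonneg_left (w2.trans q2) p
  unfold aC bC at h1 h2 ⊢
  linarith

/-! ### one family -/

theorem piece (S I : Finset ℤ) (hI : I ⊆ S) (good : ℤ → Prop) [DecidablePred good] (X Y x : ℤ → ℂ) (e : ℤ → ℝ)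
    (hx : ∀ m, ¬ good m → x m = 0) (h : ∀ m ∈ I, good m → ‖X m - Y m‖ ≤ e m) (t E : ℝ)
    (ht : ∑ m ∈ S \ I, ‖X m‖ * ‖x m‖ ≤ t * Real.sqrt (∑ m ∈ S, ‖x m‖ ^ 2))
    (hE : Real.sqrt (∑ m ∈ I.filter good, e m ^ 2) ≤ E) :
    |∑ m ∈ S, ((starRingEnd ℂ) (X m) * x m).re - ∑ m ∈ I, ((starRingEnd ℂ) (Y m) * x m).re| ≤
      (E + t) * Real.sqrt (∑ m ∈ S, ‖x m‖ ^ 2) := by
  have h1 : ∀ Z : ℤ → ℂ, ∑ m ∈ I, ((starRingEnd ℂ) (Z m) * x m).re =
      ∑ m ∈ I.filter good, ((starRingEnd ℂ) (Z m) * x m).re := by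
    intro Z
    rw [Finset.sum_filter]
    refine Finset.sum_congr rfl fun m _ => ?_
    by_cases hm : good m
    · rw [if_pos hm]
    · rw [if_neg hm, hx m hm]; simp
  have h2 := rows_err (I.filter good) X Y x e fun m hm => by
    rw [Finset.mem_filter] at hm
    exact h m hm.1 hm.2
  have h3 : ∑ m ∈ S, ((starRingEnd ℂ) (X m) * x m).re = ∑ m ∈ I, ((starRingEnd ℂ) (X m) * x m).re
      + ∑ m ∈ S \ I, ((starRingEnd ℂ) (X m) * x m).re := by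
    rw [add_comm, Finset.sum_sdiff hI]
  have h4 : |∑ m ∈ S \ I, ((starRingEnd ℂ) (X m) * x m).re| ≤ t * Real.sqrt (∑ m ∈ S, ‖x m‖ ^ 2) := by
    refine le_trans ((Finset.abs_sum_le_sum_abs _ _).trans (Finset.sum_le_sum fun m _ => ?_)) ht
    refine (Complex.abs_re_le_norm _).trans ?_
    rw [norm_mul, Complex.norm_conj]
  have h5 : Real.sqrt (∑ m ∈ I.filter good, ‖x m‖ ^ 2) ≤ Real.sqrt (∑ m ∈ S, ‖x m‖ ^ 2) := by
    apply Real.sqrt_le_sqrt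
    exact Finset.sum_le_sum_of_subset_of_nonneg ((Finset.filter_subset _ _).trans hI) fun m _ _ => sq_nonneg _
  have hE0 : 0 ≤ E := (Real.sqrt_nonneg _).trans hE
  have h6 : Real.sqrt (∑ m ∈ I.filter good, e m ^ 2) * Real.sqrt (∑ m ∈ I.filter good, ‖x m‖ ^ 2) ≤
      E * Real.sqrt (∑ m ∈ S, ‖x m‖ ^ 2) := mul_le_mul hE h5 (Real.sqrt_nonneg _) hE0
  rw [h3, h1 X, h1 Y]
  have e0 : ∑ m ∈ I.filter good, ((starRingEnd ℂ) (X m) * x m).re + ∑ m ∈ S \ I, ((starRingEnd ℂ) (X m) * x m).re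
      - ∑ m ∈ I.filter good, ((starRingEnd ℂ) (Y m) * x m).re =
      (∑ m ∈ I.filter good, ((starRingEnd ℂ) (X m) * x m).re
      - ∑ m ∈ I.filter good, ((starRingEnd ℂ) (Y m) * x m).re)
      + ∑ m ∈ S \ I, ((starRingEnd ℂ) (X m) * x m).re := by ring
  rw [e0, add_mul]
  refine (abs_add_le _ _).trans ?_
  linarith

/-- the tail of one family: a row bounded by `c (‖GA‖ + ‖GB‖)` -/
theorem tail_fam {A : ℝ} (hA : 0 ≤ A) (hA' : A ≤ 1 / 5) {B : ℂ} (hB : ‖B‖ ≤ 1 / 8) (S : Finset ℤ)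
    (X x : ℤ → ℂ) (c : ℝ) (hc : 0 ≤ c)
    (hX : ∀ m, ‖X m‖ ≤ c * (‖GA (dd A B) A Real.pi S (aC A B) (bC A B) m‖
      + ‖GB (dd A B) A Real.pi S (aC A B) (bC A B) m‖)) :
    ∑ m ∈ S \ Finset.Icc (-45 : ℤ) 45, ‖X m‖ * ‖x m‖ ≤
      (c * (3 / 2) * A ^ 5) * Real.sqrt (∑ m ∈ S, ‖x m‖ ^ 2) := by
  have h1 := tail_sq x S
  have hT : S \ Finset.Icc (-45 : ℤ) 45 = S.filter (fun m => 46 ≤ |m|) := by
    ext m
    rw [Finset.mem_sdiff, Finset.mem_filter, Finset.mem_Icc]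
    refine and_congr_right fun _ => ?_
    constructor
    · intro h
      by_contra h'
      exact h (abs_le.1 (by omega))
    · intro h h'
      have := abs_le.2 h'
      omega
  rw [hT]
  have h2 : ∀ m ∈ S.filter (fun m => 46 ≤ |m|), ‖X m‖ * ‖x m‖ ≤
      (c * 9120 * A ^ 5) * (‖x m‖ * (81 / 100) ^ m.natAbs) := by
    intro m hm
    rw [Finset.mem_filter] at hm
    have h3 := tail_AB hA hA' hB S m (by omega)
    have h4 : ‖X m‖ ≤ c * (9120 * A ^ 5 * (81 / 100) ^ m.natAbs) :=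
      (hX m).trans (mul_le_mul_of_nonneg_left h3 hc)
    have h5 := mul_le_mul_of_nonneg_right h4 (norm_nonneg (x m))
    linarith
  refine (Finset.sum_le_sum h2).trans ?_
  rw [← Finset.mul_sum]
  have h6 : 0 ≤ c * 9120 * A ^ 5 := by positivity
  have h7 := mul_le_mul_of_nonneg_left h1 h6
  have h8 : 0 ≤ Real.sqrt (∑ m ∈ S, ‖x m‖ ^ 2) := Real.sqrt_nonneg _
  have h9 : 0 ≤ c * A ^ 5 * Real.sqrt (∑ m ∈ S, ‖x m‖ ^ 2) := by positivity
  nlinarith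

end Pool.Agent.Helper40.NR
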