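import Pool.Agent.Helper40.NR.Check

/-!
# Project RC, SHARP: table of the rows of `p`, m in [-45, -19]
-/

set_option autoImplicit false
set_option maxRecDepth 100000

namespace Pool.Agent.Helper40.NR

/-- (m, polynomial, denominator, error): the row `l = m - 1` -/
def pT1 : List (ℤ × PZ × ℤ × EE) :=
 [(-45, [], 1, [((3, 3), 8), ((4, 2), 5900), ((5, 1), 44)]),
  (-43, [], 1, [((3, 3), 60), ((4, 2), 16), ((5, 1), 27216)]),
  (-41, [], 1, [((3, 3), 1272), ((4, 2), 892), ((6, 0), 7072)]),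
  (-39, [], 1, [((3, 3), 8), ((4, 2), 37704), ((5, 1), 184)]),
  (-37, [], 1, [((3, 3), 364), ((4, 2), 16), ((5, 1), 186320)]),
  (-35, [], 1, [((3, 3), 7148), ((4, 2), 6324), ((6, 0), 51532)]),
  (-33, [], 1, [((3, 3), 8), ((4, 2), 238040), ((5, 1), 1228)]),
  (-31, [], 1, [((3, 3), 2412), ((4, 2), 16), ((5, 1), 1286032)]),
  (-29, [], 1, [((3, 3), 37596), ((4, 2), 46540), ((6, 0), 386880)]),
  (-27, [], 1, [((3, 3), 16), ((4, 2), 1462776), ((5, 1), 9564)]),
  (-25, [], 1, [((3, 3), 15956), ((4, 2), 16), ((5, 1), 8924476)]),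
  (-23, [], 1, [((3, 3), 173140), ((4, 2), 353472), ((6, 0), 3022524)]),
  (-21, [], 1, [((3, 3), 80), ((4, 2), 8488464), ((5, 1), 79824)]),
  (-19, [], 1, [((3, 3), 102104), ((4, 2), 36), ((5, 1), 61760076)])]

theorem pT1_ok : (pT1.all fun x => chkP x.1 x.2.1 x.2.2.1 x.2.2.2) = true := by decide +kernel

end Pool.Agent.Helper40.NR
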