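import Pool.Agent.Helper40.NR.Check

/-!
# Project RC, SHARP: table of the rows of `p`, m in [-18, 0]
-/

set_option autoImplicit false
set_option maxRecDepth 100000

namespace Pool.Agent.Helper40.NR

/-- (m, polynomial, denominator, error): the row `l = m - 1` -/
def pT2 : List (ℤ × PZ × ℤ × EE) :=
 [(-17, [], 1, [((3, 3), 592032), ((4, 2), 2792896), ((6, 0), 25042104)]),
  (-15, [((2, 2, 0), (-177, 0, 0, 0))], 800, [((2, 4), 4619640), ((3, 3), 668), ((4, 2), 57943197), ((5, 1), 733900)]),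
  (-13, [((3, 1, 0), (-2059, 0, 0, 0))], 240, [((1, 5), 83768), ((3, 3), 60948655), ((4, 2), 172), ((5, 1), 288423986)]),
  (-11, [((1, 3, 0), (-472, 0, 0, 0)), ((4, 0, 0), (66561, 0, 0, 0))], 17600, [((1, 5), 135324), ((2, 4), 2721552), ((3, 3), 1761556), ((4, 2), 45466960), ((6, 0), 95390906)]),
  (-9, [((0, 2, 0), (-88, 0, 0, 0)), ((0, 3, 1), (0, -72, 0, 0)), ((2, 2, 0), (37035, 153, 0, 0))], 14400, [((0, 6), 139368), ((1, 5), 201624), ((2, 4), 18415260), ((3, 3), 6916), ((4, 2), 106768588), ((5, 1), 8058224)]),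
  (-7, [((1, 1, 0), (-63640, 0, 0, 0)), ((1, 2, 1), (-1480, -53032, 0, 0)), ((3, 1, 0), (343470, 112693, 0, 0))], 28000, [((1, 5), 10741798), ((3, 3), 66660768), ((4, 2), 496), ((5, 1), 149303226)]),
  (-5, [((2, 0, 0), (16980, 0, 0, 0)), ((2, 1, 1), (-16575, 5352, 0, 0)), ((4, 0, 0), (-15955, -11373, 0, 0))], 6000, [((1, 5), 268292), ((2, 4), 10759271), ((3, 3), 338356), ((4, 2), 27344265), ((6, 0), 39483965)]),
  (-3, [((2, 2, 0), (-13331, 0, 0, 0)), ((3, 0, 1), (8577, 0, 0, 0))], 4800, [((2, 4), 12120188), ((3, 3), 4476140), ((4, 2), 53452253), ((5, 1), 15310364)]),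
  (-1, [((1, 1, 0), (1680, 0, 0, 0)), ((1, 2, 1), (-14400, 9488, 0, 0)), ((3, 1, 0), (-9185, -20162, 0, 0))], 4000, [((1, 5), 2018156), ((3, 3), 18438954), ((4, 2), 2792652), ((5, 1), 36774838)])]

theorem pT2_ok : (pT2.all fun x => chkP x.1 x.2.1 x.2.2.1 x.2.2.2) = true := by decide +kernel

end Pool.Agent.Helper40.NR
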