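import Pool.Agent.Helper40.NR.Check

/-!
# Project RC, SHARP: table of the rows of `p`, m in [1, 17]
-/

set_option autoImplicit false
set_option maxRecDepth 100000

namespace Pool.Agent.Helper40.NR

/-- (m, polynomial, denominator, error): the row `l = m - 1` -/
def pT3 : List (ℤ × PZ × ℤ × EE) :=
 [(1, [((0, 0, 0), (-16000, 0, 0, 0)), ((0, 1, 1), (-1800, 3200, 0, 0)), ((2, 0, 0), (-4680, -6800, 0, 0)), ((0, 2, 2), (640, 720, 0, 0)), ((2, 1, 1), (30750, -2858, 0, 0)), ((4, 0, 0), (2615, 2822, 0, 0))], 4000, [((0, 6), 73153), ((1, 5), 46034), ((2, 4), 1841667), ((3, 3), 55544), ((4, 2), 1515997), ((6, 0), 3035972)]),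
  (3, [((1, 0, 1), (-21920, 0, 0, 0)), ((1, 1, 2), (7200, 24768, 0, 0)), ((3, 0, 1), (127035, -52632, 0, 0))], 24000, [((1, 5), 5571734), ((3, 3), 33005188), ((4, 2), 420120), ((5, 1), 66097407)]),
  (5, [((2, 0, 2), (-17898, 0, 0, 0)), ((3, 1, 0), (-14365, 0, 0, 0))], 12000, [((1, 5), 14404), ((2, 4), 11723284), ((3, 3), 3612161), ((4, 2), 62448141), ((5, 1), 14950834)]),
  (7, [((2, 0, 0), (-11140, 0, 0, 0)), ((2, 1, 1), (-15910, 16744, 0, 0)), ((4, 0, 0), (13230, -35581, 0, 0))], 14000, [((1, 5), 120784), ((2, 4), 13092940), ((3, 3), 1788908), ((4, 2), 54669224), ((6, 0), 44347732)]),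
  (9, [((1, 0, 1), (-35520, 0, 0, 0)), ((1, 1, 2), (-2320, -128304, 0, 0)), ((3, 0, 1), (-623045, 272646, 0, 0))], 72000, [((1, 5), 7365353), ((3, 3), 77963087), ((4, 2), 26900), ((5, 1), 237878088)]),
  (11, [((0, 0, 2), (7880, 0, 0, 0)), ((0, 1, 3), (0, 2376, 0, 0)), ((2, 0, 2), (38415, -5049, 0, 0))], 88000, [((0, 6), 536284), ((1, 5), 154004), ((2, 4), 15345469), ((3, 3), 23444), ((4, 2), 111995896), ((5, 1), 6931200)]),
  (13, [((1, 0, 3), (-3336, 0, 0, 0)), ((4, 0, 0), (-124735, 0, 0, 0))], 62400, [((1, 5), 572452), ((2, 4), 1532552), ((3, 3), 9079804), ((4, 2), 39170707), ((6, 0), 100328058)]),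
  (15, [((3, 0, 1), (1689, 0, 0, 0))], 1600, [((1, 5), 362868), ((3, 3), 42649133), ((4, 2), 2720), ((5, 1), 242727373)]),
  (17, [((2, 0, 2), (1379, 0, 0, 0))], 1600, [((2, 4), 8716268), ((3, 3), 2056), ((4, 2), 88866581), ((5, 1), 851804)])]

theorem pT3_ok : (pT3.all fun x => chkP x.1 x.2.1 x.2.2.1 x.2.2.2) = true := by decide +kernel

end Pool.Agent.Helper40.NR
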