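import Pool.Agent.Helper40.NR.Check

/-!
# Project RC, SHARP: table of the rows of `p`, m in [18, 45]
-/

set_option autoImplicit false
set_option maxRecDepth 100000

namespace Pool.Agent.Helper40.NR

/-- (m, polynomial, denominator, error): the row `l = m - 1` -/
def pT4 : List (ℤ × PZ × ℤ × EE) :=
 [(19, [], 1, [((3, 3), 2862248), ((4, 2), 2717924), ((6, 0), 22915240)]),
  (21, [], 1, [((3, 3), 464200), ((4, 2), 316), ((5, 1), 44345748)]),
  (23, [], 1, [((3, 3), 224), ((4, 2), 14747532), ((5, 1), 109312)]),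
  (25, [], 1, [((3, 3), 1022512), ((4, 2), 393388), ((6, 0), 3227676)]),
  (27, [], 1, [((3, 3), 85276), ((4, 2), 52), ((5, 1), 7370972)]),
  (29, [], 1, [((3, 3), 32), ((4, 2), 3025172), ((5, 1), 14524)]),
  (31, [], 1, [((3, 3), 256100), ((4, 2), 56800), ((6, 0), 460932)]),
  (33, [], 1, [((3, 3), 14412), ((4, 2), 20), ((5, 1), 1174656)]),
  (35, [], 1, [((3, 3), 8), ((4, 2), 556924), ((5, 1), 2000)]),
  (37, [], 1, [((3, 3), 54164), ((4, 2), 8252), ((6, 0), 66556)]),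
  (39, [], 1, [((3, 3), 2344), ((4, 2), 16), ((5, 1), 183552)]),
  (41, [], 1, [((3, 3), 8), ((4, 2), 96740), ((5, 1), 296)]),
  (43, [], 1, [((3, 3), 10436), ((4, 2), 1220), ((6, 0), 9712)]),
  (45, [], 1, [((3, 3), 376), ((4, 2), 16), ((5, 1), 28428)])]

theorem pT4_ok : (pT4.all fun x => chkP x.1 x.2.1 x.2.2.1 x.2.2.2) = true := by decide +kernel

end Pool.Agent.Helper40.NR
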