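import Pool.Agent.Helper40.NR.Check

/-!
# Project RC, SHARP: table of the rows of `r`, m in [-45, -19]
-/

set_option autoImplicit false
set_option maxRecDepth 100000

namespace Pool.Agent.Helper40.NR

/-- (m, polynomial, denominator, error): the row `l = m - 1` -/
def rT1 : List (ℤ × PZ × ℤ × EE) :=
 [(-45, [], 1, [((3, 3), 16), ((4, 2), 11800), ((5, 1), 88)]),
  (-43, [], 1, [((3, 3), 120), ((4, 2), 32), ((5, 1), 54432)]),
  (-41, [], 1, [((3, 3), 2544), ((4, 2), 1784), ((6, 0), 14144)]),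
  (-39, [], 1, [((3, 3), 16), ((4, 2), 75408), ((5, 1), 368)]),
  (-37, [], 1, [((3, 3), 728), ((4, 2), 32), ((5, 1), 372640)]),
  (-35, [], 1, [((3, 3), 14296), ((4, 2), 12648), ((6, 0), 103064)]),
  (-33, [], 1, [((3, 3), 16), ((4, 2), 476080), ((5, 1), 2456)]),
  (-31, [], 1, [((3, 3), 4824), ((4, 2), 32), ((5, 1), 2572064)]),
  (-29, [], 1, [((3, 3), 75192), ((4, 2), 93080), ((6, 0), 773760)]),
  (-27, [], 1, [((3, 3), 32), ((4, 2), 2925552), ((5, 1), 19128)]),
  (-25, [], 1, [((3, 3), 31912), ((4, 2), 32), ((5, 1), 17848952)]),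
  (-23, [], 1, [((3, 3), 346280), ((4, 2), 706944), ((6, 0), 6045048)]),
  (-21, [], 1, [((3, 3), 160), ((4, 2), 16976928), ((5, 1), 159648)]),
  (-19, [], 1, [((3, 3), 204208), ((4, 2), 72), ((5, 1), 123520152)])]

theorem rT1_ok : (rT1.all fun x => chkR x.1 x.2.1 x.2.2.1 x.2.2.2) = true := by decide +kernel

end Pool.Agent.Helper40.NR
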