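import Pool.Agent.Helper40.NR.Check

/-!
# Project RC, SHARP: table of the rows of `r`, m in [-18, 0]
-/

set_option autoImplicit false
set_option maxRecDepth 100000

namespace Pool.Agent.Helper40.NR

/-- (m, polynomial, denominator, error): the row `l = m - 1` -/
def rT2 : List (ℤ × PZ × ℤ × EE) :=
 [(-17, [], 1, [((3, 3), 1184064), ((4, 2), 5585792), ((6, 0), 50084208)]),
  (-15, [((2, 2, 0), (0, 0, 609, 0))], 1600, [((2, 4), 9239280), ((3, 3), 1336), ((4, 2), 118316393), ((5, 1), 1467800)]),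
  (-13, [((3, 1, 0), (0, 0, 7801, 0))], 480, [((1, 5), 167536), ((3, 3), 121620746), ((4, 2), 344), ((5, 1), 584457346)]),
  (-11, [((1, 3, 0), (0, 0, 472, 0)), ((4, 0, 0), (0, 0, -52875, 0))], 6400, [((1, 5), 270648), ((2, 4), 5443104), ((3, 3), 3523112), ((4, 2), 81342629), ((6, 0), 190620679)]),
  (-9, [((0, 2, 0), (0, 0, 440, 0)), ((0, 3, 1), (0, 0, 0, -2016)), ((2, 2, 0), (0, 0, -243495, 4284))], 144000, [((0, 6), 278736), ((1, 5), 403248), ((2, 4), 32762868), ((3, 3), 13832), ((4, 2), 208538416), ((5, 1), 16116448)]),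
  (-7, [((1, 1, 0), (0, 0, 539660, 0)), ((1, 2, 1), (0, 0, 9620, 177464)), ((3, 1, 0), (0, 0, -3008400, -377111))], 112000, [((1, 5), 21502950), ((3, 3), 105354359), ((4, 2), 992), ((5, 1), 249619818)]),
  (-5, [((2, 0, 0), (0, 0, -265560, 0)), ((2, 1, 1), (0, 0, 136500, -14784)), ((4, 0, 0), (0, 0, 303895, 31416))], 48000, [((1, 5), 536584), ((2, 4), 24384868), ((3, 3), 676712), ((4, 2), 68106119), ((6, 0), 69824912)]),
  (-3, [((2, 2, 0), (0, 0, 14627, 0)), ((3, 0, 1), (0, 0, -8577, 0))], 9600, [((2, 4), 24240376), ((3, 3), 8952280), ((4, 2), 108119505), ((5, 1), 30620728)]),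
  (-1, [((1, 1, 0), (0, 0, -28920, 0)), ((1, 2, 1), (0, 0, 93600, -56368)), ((3, 1, 0), (0, 0, 118315, 119782))], 16000, [((1, 5), 4508643), ((3, 3), 34388020), ((4, 2), 5585304), ((5, 1), 68535411)])]

theorem rT2_ok : (rT2.all fun x => chkR x.1 x.2.1 x.2.2.1 x.2.2.2) = true := by decide +kernel

end Pool.Agent.Helper40.NR
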