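import Pool.Agent.Helper40.NR.Check

/-!
# Project RC, SHARP: table of the rows of `r`, m in [18, 45]
-/

set_option autoImplicit false
set_option maxRecDepth 100000

namespace Pool.Agent.Helper40.NR

/-- (m, polynomial, denominator, error): the row `l = m - 1` -/
def rT4 : List (ℤ × PZ × ℤ × EE) :=
 [(19, [], 1, [((3, 3), 5724496), ((4, 2), 5435848), ((6, 0), 45830480)]),
  (21, [], 1, [((3, 3), 928400), ((4, 2), 632), ((5, 1), 88691496)]),
  (23, [], 1, [((3, 3), 448), ((4, 2), 29495064), ((5, 1), 218624)]),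
  (25, [], 1, [((3, 3), 2045024), ((4, 2), 786776), ((6, 0), 6455352)]),
  (27, [], 1, [((3, 3), 170552), ((4, 2), 104), ((5, 1), 14741944)]),
  (29, [], 1, [((3, 3), 64), ((4, 2), 6050344), ((5, 1), 29048)]),
  (31, [], 1, [((3, 3), 512200), ((4, 2), 113600), ((6, 0), 921864)]),
  (33, [], 1, [((3, 3), 28824), ((4, 2), 40), ((5, 1), 2349312)]),
  (35, [], 1, [((3, 3), 16), ((4, 2), 1113848), ((5, 1), 4000)]),
  (37, [], 1, [((3, 3), 108328), ((4, 2), 16504), ((6, 0), 133112)]),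
  (39, [], 1, [((3, 3), 4688), ((4, 2), 32), ((5, 1), 367104)]),
  (41, [], 1, [((3, 3), 16), ((4, 2), 193480), ((5, 1), 592)]),
  (43, [], 1, [((3, 3), 20872), ((4, 2), 2440), ((6, 0), 19424)]),
  (45, [], 1, [((3, 3), 752), ((4, 2), 32), ((5, 1), 56856)])]

theorem rT4_ok : (rT4.all fun x => chkR x.1 x.2.1 x.2.2.1 x.2.2.2) = true := by decide +kernel

end Pool.Agent.Helper40.NR
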