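import Pool.Agent.Helper40.NR.Check

/-!
# Project RC, SHARP: table of the rows of `s`, m in [-44, -19]
-/

set_option autoImplicit false
set_option maxRecDepth 100000

namespace Pool.Agent.Helper40.NR

/-- (m, polynomial, denominator, error): the row `l = m - 1` -/
def zT1 : List (ℤ × PZ × ℤ × EE) :=
 [(-44, [], 1, [((4, 3), 2628), ((5, 2), 1660), ((7, 0), 13204)]),
  (-42, [], 1, [((4, 3), 8), ((5, 2), 74604), ((6, 1), 316)]),
  (-40, [], 1, [((4, 3), 696), ((5, 2), 16), ((6, 1), 355568)]),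
  (-38, [], 1, [((4, 3), 15132), ((5, 2), 11744), ((7, 0), 95096)]),
  (-36, [], 1, [((4, 3), 8), ((5, 2), 474724), ((6, 1), 2212)]),
  (-34, [], 1, [((4, 3), 4652), ((5, 2), 16), ((6, 1), 2445232)]),
  (-32, [], 1, [((4, 3), 82880), ((5, 2), 85416), ((7, 0), 702976)]),
  (-30, [], 1, [((4, 3), 20), ((5, 2), 2964296), ((6, 1), 16916)]),
  (-28, [], 1, [((4, 3), 31052), ((5, 2), 20), ((6, 1), 16932668)]),
  (-26, [], 1, [((4, 3), 412788), ((5, 2), 638472), ((7, 0), 5375056)]),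
  (-24, [], 1, [((4, 3), 132), ((5, 2), 17799316), ((6, 1), 136752)]),
  (-22, [], 1, [((4, 3), 203188), ((5, 2), 56), ((6, 1), 117537568)]),
  (-20, [], 1, [((3, 4), 947692), ((4, 3), 1693276), ((5, 2), 14711303), ((7, 0), 39588391)])]

theorem zT1_ok : (zT1.all fun x => chkZ x.1 x.2.1 x.2.2.1 x.2.2.2) = true := by decide +kernel

end Pool.Agent.Helper40.NR
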