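import Pool.Agent.Helper40.NR.Check

/-!
# Project RC, SHARP: table of the rows of `s`, m in [-18, -7]
-/

set_option autoImplicit false
set_option maxRecDepth 100000

namespace Pool.Agent.Helper40.NR

/-- (m, polynomial, denominator, error): the row `l = m - 1` -/
def zT2 : List (ℤ × PZ × ℤ × EE) :=
 [(-18, [((3, 2, 0), (2673, 0, 0, 0))], 12800, [((3, 4), 13155144), ((4, 3), 1092), ((5, 2), 120998223), ((6, 1), 1191736)]),
  (-16, [((4, 1, 0), (6283, 0, 0, 0))], 1536, [((2, 5), 212328), ((4, 3), 139509327), ((5, 2), 332), ((6, 1), 658140371)]),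
  (-14, [((2, 3, 0), (-14208, 0, 0, 0)), ((5, 0, 0), (322357, 0, 0, 0))], 153600, [((1, 6), 408576), ((2, 5), 845756), ((3, 4), 5584510), ((4, 3), 7294836), ((5, 2), 20825157), ((7, 0), 63546100)]),
  (-12, [((1, 2, 0), (1760, 0, 0, 0)), ((1, 3, 1), (0, 10752, 0, 0)), ((3, 2, 0), (-669375, -22848, 0, 0))], 64000, [((1, 6), 2829532), ((3, 4), 69868552), ((4, 3), 10508), ((5, 2), 245106315), ((6, 1), 11784596)]),
  (-10, [((2, 1, 0), (-12000, 0, 0, 0)), ((2, 2, 1), (28320, 1543008, 0, 0)), ((4, 1, 0), (74765, -3278892, 0, 0))], 192000, [((1, 6), 30264), ((2, 5), 37991126), ((4, 3), 267191842), ((5, 2), 1824), ((6, 1), 498785311)]),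
  (-8, [((3, 0, 0), (215360, 0, 0, 0)), ((2, 3, 0), (71040, 0, 0, 0)), ((3, 1, 1), (5517840, -2888128, 0, 0)), ((5, 0, 0), (-2566605, 6137272, 0, 0))], 768000, [((1, 6), 1655729), ((2, 5), 642776), ((3, 4), 11539010), ((4, 3), 4237188), ((5, 2), 31655536), ((7, 0), 38900274)])]

theorem zT2_ok : (zT2.all fun x => chkZ x.1 x.2.1 x.2.2.1 x.2.2.2) = true := by decide +kernel

end Pool.Agent.Helper40.NR
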