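import Pool.Agent.Helper40.NR.Check

/-!
# Project RC, SHARP: table of the rows of `s`, m in [-6, 1]
-/

set_option autoImplicit false
set_option maxRecDepth 100000

namespace Pool.Agent.Helper40.NR

/-- (m, polynomial, denominator, error): the row `l = m - 1` -/
def zT3 : List (ℤ × PZ × ℤ × EE) :=
 [(-6, [((1, 2, 0), (-352, 0, 0, 0)), ((1, 3, 1), (0, -1536, 0, 0)), ((3, 2, 0), (182699, 3264, 0, 0)), ((4, 0, 1), (-35952, 0, 0, 0))], 12800, [((1, 6), 5283644), ((2, 5), 2768), ((3, 4), 46842165), ((4, 3), 8545588), ((5, 2), 116926591), ((6, 1), 28694846)]),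
  (-4, [((0, 1, 0), (-96000, 0, 0, 0)), ((0, 2, 1), (0, 51200, 0, 0)), ((2, 1, 0), (381280, -108800, 0, 0)), ((0, 3, 2), (40960, 0, 0, 0)), ((2, 2, 1), (-154720, -487328, 0, 0)), ((4, 1, 0), (-49635, 1035572, 0, 0))], 64000, [((0, 7), 932544), ((1, 6), 70552), ((2, 5), 18822306), ((4, 3), 94961709), ((5, 2), 171696), ((6, 1), 133999328)]),
  (-2, [((1, 0, 0), (-256000, 0, 0, 0)), ((1, 1, 1), (825600, -128000, 0, 0)), ((3, 0, 0), (-48800, 272000, 0, 0)), ((1, 2, 2), (38400, 204800, 0, 0)), ((3, 1, 1), (-1276680, -294368, 0, 0)), ((5, 0, 0), (316015, -299268, 0, 0))], 128000, [((1, 6), 871974), ((3, 4), 3351036), ((4, 3), 311420), ((5, 2), 6271233), ((7, 0), 4166163)]),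
  (0, [((2, 0, 1), (-17536, 0, 0, 0)), ((2, 1, 2), (5760, 18816, 0, 0)), ((3, 2, 0), (-51497, 0, 0, 0)), ((4, 0, 1), (-8460, -39984, 0, 0))], 12800, [((1, 6), 5536), ((2, 5), 2240744), ((3, 4), 6911188), ((4, 3), 13271274), ((5, 2), 20059819), ((6, 1), 20435484)])]

theorem zT3_ok : (zT3.all fun x => chkZ x.1 x.2.1 x.2.2.1 x.2.2.2) = true := by decide +kernel

end Pool.Agent.Helper40.NR
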