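import Pool.Agent.Helper40.NR.Check

/-!
# Project RC, SHARP: table of the rows of `s`, m in [2, 7]
-/

set_option autoImplicit false
set_option maxRecDepth 100000

namespace Pool.Agent.Helper40.NR

/-- (m, polynomial, denominator, error): the row `l = m - 1` -/
def zT4 : List (ℤ × PZ × ℤ × EE) :=
 [(2, [((2, 1, 0), (-1111680, 0, 0, 0)), ((2, 2, 1), (-172800, -21888, 0, 0)), ((3, 0, 2), (32975, 0, 0, 0)), ((4, 1, 0), (-359410, 46512, 0, 0))], 384000, [((1, 6), 452), ((2, 5), 283188), ((3, 4), 11969776), ((4, 3), 5390602), ((5, 2), 45182468), ((6, 1), 14223083)]),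
  (4, [((1, 0, 0), (-384000, 0, 0, 0)), ((1, 1, 1), (403200, -384000, 0, 0)), ((3, 0, 0), (215520, 816000, 0, 0)), ((1, 2, 2), (192000, -307200, 0, 0)), ((3, 1, 1), (-1523880, 736992, 0, 0)), ((5, 0, 0), (1839395, -178908, 0, 0))], 384000, [((1, 6), 2625743), ((3, 4), 10326084), ((4, 3), 2154672), ((5, 2), 17075009), ((7, 0), 8052495)]),
  (6, [((2, 0, 1), (-2720, 0, 0, 0)), ((0, 2, 3), (-3072, 0, 0, 0)), ((2, 1, 2), (11152, -21168, 0, 0)), ((4, 0, 1), (-7, 44982, 0, 0))], 3200, [((0, 7), 768004), ((1, 6), 120668), ((2, 5), 28301575), ((4, 3), 102868224), ((5, 2), 442092), ((6, 1), 194342091)])]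

theorem zT4_ok : (zT4.all fun x => chkZ x.1 x.2.1 x.2.2.1 x.2.2.2) = true := by decide +kernel

end Pool.Agent.Helper40.NR
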