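import Pool.Agent.Helper40.NR.Check

/-!
# Project RC, SHARP: table of the rows of `s`, m in [8, 17]
-/

set_option autoImplicit false
set_option maxRecDepth 100000

namespace Pool.Agent.Helper40.NR

/-- (m, polynomial, denominator, error): the row `l = m - 1` -/
def zT5 : List (ℤ × PZ × ℤ × EE) :=
 [(8, [((1, 0, 2), (70944, 0, 0, 0)), ((1, 1, 3), (0, 30432, 0, 0)), ((3, 0, 2), (-173193, -64668, 0, 0)), ((4, 1, 0), (9340, 0, 0, 0))], 76800, [((1, 6), 6707820), ((2, 5), 25728), ((3, 4), 55288249), ((4, 3), 8695940), ((5, 2), 146666210), ((6, 1), 35944097)]),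
  (10, [((3, 0, 0), (-353600, 0, 0, 0)), ((2, 0, 3), (378240, 0, 0, 0)), ((3, 1, 1), (2578800, -1581248, 0, 0)), ((5, 0, 0), (-3143235, 3360152, 0, 0))], 768000, [((1, 6), 1403006), ((2, 5), 3291580), ((3, 4), 22645844), ((4, 3), 26050580), ((5, 2), 87561982), ((7, 0), 30175903)]),
  (12, [((2, 0, 1), (35520, 0, 0, 0)), ((2, 1, 2), (2320, 49392, 0, 0)), ((4, 0, 1), (-154165, -104958, 0, 0))], 16000, [((1, 6), 138912), ((2, 5), 31200217), ((4, 3), 238218016), ((5, 2), 41908), ((6, 1), 586463863)]),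
  (14, [((1, 0, 2), (-4448, 0, 0, 0)), ((1, 1, 3), (0, 13600, 0, 0)), ((3, 0, 2), (100059, -28900, 0, 0))], 25600, [((1, 6), 5558848), ((3, 4), 73319054), ((4, 3), 33476), ((5, 2), 371735413), ((6, 1), 12074188)]),
  (16, [((2, 0, 3), (-25216, 0, 0, 0)), ((5, 0, 0), (86505, 0, 0, 0))], 51200, [((1, 6), 341252), ((2, 5), 4150256), ((3, 4), 7383257), ((4, 3), 42111492), ((5, 2), 47052674), ((7, 0), 43479052)])]

theorem zT5_ok : (zT5.all fun x => chkZ x.1 x.2.1 x.2.2.1 x.2.2.2) = true := by decide +kernel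

end Pool.Agent.Helper40.NR
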