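import Pool.Agent.Helper40.NR.Check

/-!
# Project RC, SHARP: table of the rows of `s`, m in [18, 45]
-/

set_option autoImplicit false
set_option maxRecDepth 100000

namespace Pool.Agent.Helper40.NR

/-- (m, polynomial, denominator, error): the row `l = m - 1` -/
def zT6 : List (ℤ × PZ × ℤ × EE) :=
 [(18, [((4, 0, 1), (28071, 0, 0, 0))], 3200, [((2, 5), 1033316), ((4, 3), 107132838), ((5, 2), 4512), ((6, 1), 565313682)]),
  (20, [((3, 0, 2), (-133579, 0, 0, 0))], 76800, [((3, 4), 27600588), ((4, 3), 3288), ((5, 2), 243085830), ((6, 1), 1518352)]),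
  (22, [], 1, [((3, 4), 778020), ((4, 3), 9130860), ((5, 2), 16576740), ((7, 0), 52492046)]),
  (24, [], 1, [((4, 3), 1009704), ((5, 2), 544), ((6, 1), 91075020)]),
  (26, [], 1, [((4, 3), 376), ((5, 2), 34017760), ((6, 1), 198380)]),
  (28, [], 1, [((4, 3), 2632824), ((5, 2), 747044), ((7, 0), 6089712)]),
  (30, [], 1, [((4, 3), 176464), ((5, 2), 76), ((6, 1), 14763592)]),
  (32, [], 1, [((4, 3), 52), ((5, 2), 6552080), ((6, 1), 26744)]),
  (34, [], 1, [((4, 3), 597816), ((5, 2), 108064), ((7, 0), 874560)]),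
  (36, [], 1, [((4, 3), 29124), ((5, 2), 20), ((6, 1), 2325352)]),
  (38, [], 1, [((4, 3), 12), ((5, 2), 1166748), ((6, 1), 3708)]),
  (40, [], 1, [((4, 3), 119900), ((5, 2), 15744), ((7, 0), 126920)]),
  (42, [], 1, [((4, 3), 4672), ((5, 2), 16), ((6, 1), 361352)]),
  (44, [], 1, [((4, 3), 8), ((5, 2), 198828), ((6, 1), 540)])]

theorem zT6_ok : (zT6.all fun x => chkZ x.1 x.2.1 x.2.2.1 x.2.2.2) = true := by decide +kernel

end Pool.Agent.Helper40.NR
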