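import Pool.Agent.Helper40.NR.Fin1
import Pool.Agent.Helper40.NR.ZT1
import Pool.Agent.Helper40.NR.ZT2
import Pool.Agent.Helper40.NR.ZT3
import Pool.Agent.Helper40.NR.ZT4
import Pool.Agent.Helper40.NR.ZT5
import Pool.Agent.Helper40.NR.ZT6
import Pool.Agent.Helper40.NR.PT1
import Pool.Agent.Helper40.NR.PT2
import Pool.Agent.Helper40.NR.PT3
import Pool.Agent.Helper40.NR.PT4
import Pool.Agent.Helper40.NR.RT1
import Pool.Agent.Helper40.NR.RT2
import Pool.Agent.Helper40.NR.RT3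
import Pool.Agent.Helper40.NR.RT4

/-!
# Project RC, SHARP, zone I: the gradient of `NS` at the base

`2 NSB(base, rest) = ∑ explicit rows + error`; `z` rows exact through degree 5, `b` rows through degree 4.
-/

set_option autoImplicit false
set_option maxRecDepth 100000

open MeasureTheory Set Filter Topology

namespace Pool.Agent.Helper40.NR

open Helper49.LT hiding sg rR
open Helper49.RC (om)
open Helper95.RC (kq c1 c2)
open Pool.Agent.Helper99.RC
open Pool.Agent.Helper61.RC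
open Pool.Agent.Helper30.SH

/-! ### the tables -/

def lkT : List (ℤ × PZ × ℤ × EE) → ℤ → PZ × ℤ × EE
  | [], _ => ([], 1, [])
  | x :: l, m => if x.1 = m then x.2 else lkT l m

theorem lkT_mem : ∀ (l : List (ℤ × PZ × ℤ × EE)) (m : ℤ), m ∈ l.map Prod.fst → (m, lkT l m) ∈ l
  | [], m, h => by simp at h
  | x :: l, m, h => by
    rw [lkT]
    split_ifs with hx
    · rw [← hx]
      exact List.mem_cons_self
    · rw [List.map_cons, List.mem_cons] at h
      rcases h with h | h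
      · exact absurd h.symm hx
      · exact List.mem_cons_of_mem _ (lkT_mem l m h)

/-- rows of `s` -/
def zTab : List (ℤ × PZ × ℤ × EE) := zT1 ++ (zT2 ++ (zT3 ++ (zT4 ++ (zT5 ++ zT6))))
/-- rows of `p` -/
def pTab : List (ℤ × PZ × ℤ × EE) := pT1 ++ (pT2 ++ (pT3 ++ pT4))
/-- rows of `r` -/
def rTab : List (ℤ × PZ × ℤ × EE) := rT1 ++ (rT2 ++ (rT3 ++ rT4))

theorem zTab_ok : ∀ x ∈ zTab, chkZ x.1 x.2.1 x.2.2.1 x.2.2.2 = true := by
  intro x hx
  simp only [zTab, List.mem_append] at hx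
  rcases hx with h | h | h | h | h | h
  · exact List.all_eq_true.1 zT1_ok x h
  · exact List.all_eq_true.1 zT2_ok x h
  · exact List.all_eq_true.1 zT3_ok x h
  · exact List.all_eq_true.1 zT4_ok x h
  · exact List.all_eq_true.1 zT5_ok x h
  · exact List.all_eq_true.1 zT6_ok x h

theorem pTab_ok : ∀ x ∈ pTab, chkP x.1 x.2.1 x.2.2.1 x.2.2.2 = true := by
  intro x hx
  simp only [pTab, List.mem_append] at hx
  rcases hx with h | h | h | h
  · exact List.all_eq_true.1 pT1_ok x h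
  · exact List.all_eq_true.1 pT2_ok x h
  · exact List.all_eq_true.1 pT3_ok x h
  · exact List.all_eq_true.1 pT4_ok x h

theorem rTab_ok : ∀ x ∈ rTab, chkR x.1 x.2.1 x.2.2.1 x.2.2.2 = true := by
  intro x hx
  simp only [rTab, List.mem_append] at hx
  rcases hx with h | h | h | h
  · exact List.all_eq_true.1 rT1_ok x h
  · exact List.all_eq_true.1 rT2_ok x h
  · exact List.all_eq_true.1 rT3_ok x h
  · exact List.all_eq_true.1 rT4_ok x h

theorem zTab_keys : ∀ m ∈ Finset.Icc (-45 : ℤ) 45, m % 2 = 0 → m ∈ zTab.map Prod.fst := by decide +kernel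
theorem pTab_keys : ∀ m ∈ Finset.Icc (-45 : ℤ) 45, m % 2 = 1 → m ∈ pTab.map Prod.fst := by decide +kernel
theorem rTab_keys : ∀ m ∈ Finset.Icc (-45 : ℤ) 45, m % 2 = 1 → m ∈ rTab.map Prod.fst := by decide +kernel

/-- the explicit coefficient of the row `l = m - 1` of `s` -/
noncomputable def zCo (A : ℝ) (B : ℂ) (m : ℤ) : ℂ := evP A B (lkT zTab m).1 / ((lkT zTab m).2.1 : ℂ)
/-- the explicit coefficient of the row `l = m - 1` of `p` -/
noncomputable def pCo (A : ℝ) (B : ℂ) (m : ℤ) : ℂ := evP A B (lkT pTab m).1 / ((lkT pTab m).2.1 : ℂ)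
/-- the explicit coefficient of the row `l = m - 1` of `r` -/
noncomputable def rCo (A : ℝ) (B : ℂ) (m : ℤ) : ℂ := evP A B (lkT rTab m).1 / ((lkT rTab m).2.1 : ℂ)

def zEr (m : ℤ) : EE := (lkT zTab m).2.2
def pEr (m : ℤ) : EE := (lkT pTab m).2.2
def rEr (m : ℤ) : EE := (lkT rTab m).2.2

/-! ### total errors -/

def zEt : EE := [((7, 0), 113245162), ((6, 1), 1194499649), ((5, 2), 568585759), ((4, 3), 426210940),
  ((3, 4), 132231656), ((2, 5), 60061966), ((1, 6), 11158257), ((0, 7), 1208085)]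
def pEt : EE := [((6, 0), 154506325), ((5, 1), 482901434), ((4, 2), 222753655), ((3, 3), 132728278),
  ((2, 4), 35448389), ((1, 5), 14331427), ((0, 6), 558906)]
def rEt : EE := [((6, 0), 306533956), ((5, 1), 938864205), ((4, 2), 433554040), ((3, 3), 240430129),
  ((2, 4), 70981905), ((1, 5), 28285786), ((0, 6), 1110076)]

theorem zMink : mink ms7 ((zTab.map Prod.fst).map zEr) zEt = true := by decide +kernel
theorem pMink : mink ms6 ((pTab.map Prod.fst).map pEr) pEt = true := by decide +kernel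
theorem rMink : mink ms6 ((rTab.map Prod.fst).map rEr) rEt = true := by decide +kernel

/-! ### the theorem -/

section

variable {A : ℝ} (hA : 0 ≤ A) (hA' : A ≤ 1 / 5) {B : ℂ} (hB : ‖B‖ ≤ 1 / 8) {S : Finset ℤ}
  (hS : Finset.Icc (-45 : ℤ) 45 ⊆ S)

include hA hA' hB hS

omit hA hA' hB in
theorem hS13 : Finset.Icc (-11 : ℤ) 13 ⊆ S := by
  refine fun x hx => hS ?_
  rw [Finset.mem_Icc] at hx ⊢
  omega

/-- rows of `s` (with `m = l + 1`) -/
theorem fam_s (s : ℤ → ℂ) (hs : ∀ l, Even l → s l = 0) :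
    |∑ m ∈ S, ((starRingEnd ℂ) (rS (GA (dd A B) A Real.pi S (aC A B) (bC A B))
        (GB (dd A B) A Real.pi S (aC A B) (bC A B)) (m - 1)) * s (m - 1)).re
      - ∑ m ∈ Finset.Icc (-45 : ℤ) 45, ((starRingEnd ℂ) (zCo A B m) * s (m - 1)).re| ≤
      (evE A ‖B‖ zEt + 3 * A ^ 5) * Real.sqrt (∑ m ∈ S, ‖s (m - 1)‖ ^ 2) := by
  set G := GA (dd A B) A Real.pi S (aC A B) (bC A B)
  set H := GB (dd A B) A Real.pi S (aC A B) (bC A B)
  have hX : ∀ m, ‖rS G H (m - 1)‖ ≤ 2 * (‖G m‖ + ‖H m‖) := by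
    intro m
    unfold rS
    rw [norm_mul, sub_add_cancel]
    have e2 : ‖(2 : ℂ)‖ = 2 := by norm_num
    have ho : ∀ n : ℤ, ‖om ^ n‖ = 1 := fun n => by rw [norm_zpow, norm_om, one_zpow]
    rw [e2]
    refine mul_le_mul_of_nonneg_left ?_ (by norm_num)
    refine (norm_sub_le _ _).trans ?_
    rw [norm_mul, norm_mul, ho, ho, one_mul, one_mul, Complex.norm_conj]
  have ht := tail_fam hA hA' hB S (fun m => rS G H (m - 1)) (fun m => s (m - 1)) 2 (by norm_num) hX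
  have e3 : (2 : ℝ) * (3 / 2) * A ^ 5 = 3 * A ^ 5 := by ring
  rw [e3] at ht
  refine piece S (Finset.Icc (-45) 45) hS (fun m => m % 2 = 0) (fun m => rS G H (m - 1)) (zCo A B)
    (fun m => s (m - 1)) (fun m => evE A ‖B‖ (zEr m)) (fun m hm => hs _ ?_) (fun m hm hg => ?_) _ _ ht ?_
  · rw [Int.even_iff]; omega
  · have h1 := zTab_ok _ (lkT_mem zTab m (zTab_keys m hm hg))
    exact rowZ hA hA' hB (hS13 hS) m h1
  · refine mink_le hA (norm_nonneg B) _ zEr zEt ms7 (zTab.map Prod.fst) (fun m hm => ?_) zMink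
    rw [Finset.mem_filter] at hm
    exact zTab_keys m hm.1 hm.2

/-- rows of `p` -/
theorem fam_p (p : ℤ → ℂ) (hp : ∀ l, ¬ Even l → p l = 0) :
    |∑ m ∈ S, ((starRingEnd ℂ) (rP (GA (dd A B) A Real.pi S (aC A B) (bC A B))
        (GB (dd A B) A Real.pi S (aC A B) (bC A B)) (m - 1)) * p (m - 1)).re
      - ∑ m ∈ Finset.Icc (-45 : ℤ) 45, ((starRingEnd ℂ) (pCo A B m) * p (m - 1)).re| ≤
      (evE A ‖B‖ pEt + 3 * A ^ 5) * Real.sqrt (∑ m ∈ S, ‖p (m - 1)‖ ^ 2) := by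
  set G := GA (dd A B) A Real.pi S (aC A B) (bC A B)
  set H := GB (dd A B) A Real.pi S (aC A B) (bC A B)
  have hX : ∀ m, ‖rP G H (m - 1)‖ ≤ 2 * (‖G m‖ + ‖H m‖) := by
    intro m
    unfold rP
    rw [norm_mul, sub_add_cancel]
    have e2 : ‖(2 : ℂ)‖ = 2 := by norm_num
    have ho : ∀ n : ℤ, ‖om ^ n‖ = 1 := fun n => by rw [norm_zpow, norm_om, one_zpow]
    rw [e2]
    refine mul_le_mul_of_nonneg_left ?_ (by norm_num)
    refine (norm_add_le _ _).trans ?_
    rw [norm_mul, norm_mul, ho, ho, one_mul, one_mul, Complex.norm_conj]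
  have ht := tail_fam hA hA' hB S (fun m => rP G H (m - 1)) (fun m => p (m - 1)) 2 (by norm_num) hX
  have e3 : (2 : ℝ) * (3 / 2) * A ^ 5 = 3 * A ^ 5 := by ring
  rw [e3] at ht
  refine piece S (Finset.Icc (-45) 45) hS (fun m => m % 2 = 1) (fun m => rP G H (m - 1)) (pCo A B)
    (fun m => p (m - 1)) (fun m => evE A ‖B‖ (pEr m)) (fun m hm => hp _ ?_) (fun m hm hg => ?_) _ _ ht ?_
  · rw [Int.even_iff]; omega
  · have h1 := pTab_ok _ (lkT_mem pTab m (pTab_keys m hm hg))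
    exact rowP hA hA' hB (hS13 hS) m h1
  · refine mink_le hA (norm_nonneg B) _ pEr pEt ms6 (pTab.map Prod.fst) (fun m hm => ?_) pMink
    rw [Finset.mem_filter] at hm
    exact pTab_keys m hm.1 hm.2

/-- rows of `r` -/
theorem fam_r (r : ℤ → ℂ) (hr : ∀ l, ¬ Even l → r l = 0) :
    |∑ m ∈ S, ((starRingEnd ℂ) (rR (GA (dd A B) A Real.pi S (aC A B) (bC A B))
        (GB (dd A B) A Real.pi S (aC A B) (bC A B)) (m - 1)) * r (m - 1)).re
      - ∑ m ∈ Finset.Icc (-45 : ℤ) 45, ((starRingEnd ℂ) (rCo A B m) * r (m - 1)).re| ≤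
      (evE A ‖B‖ rEt + 6 * A ^ 5) * Real.sqrt (∑ m ∈ S, ‖r (m - 1)‖ ^ 2) := by
  set G := GA (dd A B) A Real.pi S (aC A B) (bC A B)
  set H := GB (dd A B) A Real.pi S (aC A B) (bC A B)
  have hX : ∀ m, ‖rR G H (m - 1)‖ ≤ 4 * (‖G m‖ + ‖H m‖) := by
    intro m
    unfold rR
    rw [norm_mul, sub_add_cancel]
    have e2 : ‖(2 : ℂ)‖ = 2 := by norm_num
    have ho : ∀ n : ℤ, ‖om ^ n‖ = 1 := fun n => by rw [norm_zpow, norm_om, one_zpow]
    have hk := kq_norm
    have h4 : ‖(starRingEnd ℂ) (kq 2) * om ^ m * (starRingEnd ℂ) (G m) + kq 2 * om ^ (2 * m) * H m‖ ≤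
        2 * (‖G m‖ + ‖H m‖) := by
      refine (norm_add_le _ _).trans ?_
      rw [norm_mul, norm_mul, norm_mul, norm_mul, ho, ho, mul_one, mul_one, Complex.norm_conj, Complex.norm_conj]
      have := norm_nonneg (G m)
      have := norm_nonneg (H m)
      nlinarith
    rw [e2]
    linarith
  have ht := tail_fam hA hA' hB S (fun m => rR G H (m - 1)) (fun m => r (m - 1)) 4 (by norm_num) hX
  have e3 : (4 : ℝ) * (3 / 2) * A ^ 5 = 6 * A ^ 5 := by ring
  rw [e3] at ht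
  refine piece S (Finset.Icc (-45) 45) hS (fun m => m % 2 = 1) (fun m => rR G H (m - 1)) (rCo A B)
    (fun m => r (m - 1)) (fun m => evE A ‖B‖ (rEr m)) (fun m hm => hr _ ?_) (fun m hm hg => ?_) _ _ ht ?_
  · rw [Int.even_iff]; omega
  · have h1 := rTab_ok _ (lkT_mem rTab m (rTab_keys m hm hg))
    exact rowR hA hA' hB (hS13 hS) m h1
  · refine mink_le hA (norm_nonneg B) _ rEr rEt ms6 (rTab.map Prod.fst) (fun m hm => ?_) rMink
    rw [Finset.mem_filter] at hm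
    exact rTab_keys m hm.1 hm.2

/-- **THE GRADIENT OF `NS` AT THE BASE** -/
theorem NS_grad (p r s : ℤ → ℂ) (hp : ∀ l, ¬ Even l → p l = 0) (hr : ∀ l, ¬ Even l → r l = 0)
    (hs : ∀ l, Even l → s l = 0) :
    |2 * NSB (dd A B) A Real.pi S (aC A B) (bC A B) (c1 2 (fun _ => 0) p r s) (c2 2 (fun _ => 0) p r s)
      - ∑ m ∈ Finset.Icc (-45 : ℤ) 45, (((starRingEnd ℂ) (zCo A B m) * s (m - 1)).re
        + ((starRingEnd ℂ) (pCo A B m) * p (m - 1)).re + ((starRingEnd ℂ) (rCo A B m) * r (m - 1)).re)| ≤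
      (evE A ‖B‖ zEt + 3 * A ^ 5) * Real.sqrt (∑ m ∈ S, ‖s (m - 1)‖ ^ 2)
      + (evE A ‖B‖ pEt + 3 * A ^ 5) * Real.sqrt (∑ m ∈ S, ‖p (m - 1)‖ ^ 2)
      + (evE A ‖B‖ rEt + 6 * A ^ 5) * Real.sqrt (∑ m ∈ S, ‖r (m - 1)‖ ^ 2) := by
  have h0 : (0 : ℤ) ∈ S := hS (by rw [Finset.mem_Icc]; omega)
  rw [NSB_prs _ _ _ S h0, Finset.sum_add_distrib, Finset.sum_add_distrib, Finset.sum_add_distrib,
    Finset.sum_add_distrib]
  have h1 := fam_s hA hA' hB hS s hs
  have h2 := fam_p hA hA' hB hS p hp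
  have h3 := fam_r hA hA' hB hS r hr
  rw [abs_le] at h1 h2 h3 ⊢
  constructor <;> linarith [h1.1, h1.2, h2.1, h2.2, h3.1, h3.2]

end

end Pool.Agent.Helper40.NR
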