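import Mathlib

/-!
# Project RC, SHARP: computer algebra for polynomials in `A`, `B`, `conj B`

Coefficients `c₀ + c₁ √3 + i (c₂ + c₃ √3)` with integers, `A` real, `B` complex. Everything is evaluated in the kernel.
-/

set_option autoImplicit false

namespace Pool.Agent.Helper40.NR

/-- coefficient `c₀ + c₁ √3 + i (c₂ + c₃ √3)` -/
abbrev Z4 := ℤ × ℤ × ℤ × ℤ
/-- monomial `A^a B^b (conj B)^c` -/
abbrev M3 := ℕ × ℕ × ℕ
/-- polynomial -/
abbrev PZ := List (M3 × Z4)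

/-- value of a coefficient -/
noncomputable def ev4 (c : Z4) : ℂ :=
  (((c.1 : ℝ) + (c.2.1 : ℝ) * Real.sqrt 3 : ℝ) : ℂ) +
    Complex.I * (((c.2.2.1 : ℝ) + (c.2.2.2 : ℝ) * Real.sqrt 3 : ℝ) : ℂ)

/-- value of a monomial -/
noncomputable def evM (A : ℝ) (B : ℂ) (m : M3) : ℂ :=
  (A : ℂ) ^ m.1 * B ^ m.2.1 * (starRingEnd ℂ) B ^ m.2.2

/-- value of a polynomial -/
noncomputable def evP (A : ℝ) (B : ℂ) (p : PZ) : ℂ := (p.map fun x => ev4 x.2 * evM A B x.1).sum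

@[simp] theorem evP_nil (A : ℝ) (B : ℂ) : evP A B [] = 0 := rfl
@[simp] theorem evP_cons (A : ℝ) (B : ℂ) (x : M3 × Z4) (p : PZ) :
    evP A B (x :: p) = ev4 x.2 * evM A B x.1 + evP A B p := by simp [evP]

theorem evP_append (A : ℝ) (B : ℂ) (p q : PZ) : evP A B (p ++ q) = evP A B p + evP A B q := by
  simp [evP]

/-- sum of coefficients -/
def add4 (a b : Z4) : Z4 := (a.1 + b.1, a.2.1 + b.2.1, a.2.2.1 + b.2.2.1, a.2.2.2 + b.2.2.2)
/-- real multiple of a coefficient -/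
def sc4 (k : ℤ) (a : Z4) : Z4 := (k * a.1, k * a.2.1, k * a.2.2.1, k * a.2.2.2)
/-- `i` times a coefficient -/
def rot4 (a : Z4) : Z4 := (-a.2.2.1, -a.2.2.2, a.1, a.2.1)
/-- conjugate -/
def cj4 (a : Z4) : Z4 := (a.1, a.2.1, -a.2.2.1, -a.2.2.2)
/-- product -/
def mul4 (a b : Z4) : Z4 :=
  (a.1 * b.1 + 3 * (a.2.1 * b.2.1) - a.2.2.1 * b.2.2.1 - 3 * (a.2.2.2 * b.2.2.2),
   a.1 * b.2.1 + a.2.1 * b.1 - a.2.2.1 * b.2.2.2 - a.2.2.2 * b.2.2.1,
   a.1 * b.2.2.1 + a.2.2.1 * b.1 + 3 * (a.2.1 * b.2.2.2) + 3 * (a.2.2.2 * b.2.1),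
   a.1 * b.2.2.2 + a.2.2.2 * b.1 + a.2.1 * b.2.2.1 + a.2.2.1 * b.2.1)

theorem s3C_sq : ((Real.sqrt 3 : ℝ) : ℂ) * ((Real.sqrt 3 : ℝ) : ℂ) = 3 := by
  rw [← Complex.ofReal_mul, Real.mul_self_sqrt (by norm_num)]; norm_num

theorem ev4_add (a b : Z4) : ev4 (add4 a b) = ev4 a + ev4 b := by
  unfold ev4 add4
  push_cast
  ring

theorem ev4_sc (k : ℤ) (a : Z4) : ev4 (sc4 k a) = (k : ℂ) * ev4 a := by
  unfold ev4 sc4
  push_cast
  ring

theorem ev4_rot (a : Z4) : ev4 (rot4 a) = Complex.I * ev4 a := by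
  unfold ev4 rot4
  push_cast
  linear_combination (-((a.2.2.1 : ℂ) + (a.2.2.2 : ℂ) * ((Real.sqrt 3 : ℝ) : ℂ))) * Complex.I_mul_I

theorem ev4_cj (a : Z4) : ev4 (cj4 a) = (starRingEnd ℂ) (ev4 a) := by
  unfold ev4 cj4
  rw [map_add, map_mul, Complex.conj_I, Complex.conj_ofReal, Complex.conj_ofReal]
  push_cast
  ring

theorem ev4_mul (a b : Z4) : ev4 (mul4 a b) = ev4 a * ev4 b := by
  unfold ev4 mul4
  have h := s3C_sq
  have hI := Complex.I_mul_I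
  push_cast
  linear_combination (-((a.2.2.1 : ℂ) + a.2.2.2 * ((Real.sqrt 3 : ℝ) : ℂ)) *
      ((b.2.2.1 : ℂ) + b.2.2.2 * ((Real.sqrt 3 : ℝ) : ℂ))) * hI
    + ((a.2.2.2 : ℂ) * b.2.2.2 - (a.2.1 : ℂ) * b.2.1
      - Complex.I * ((a.2.1 : ℂ) * b.2.2.2 + (a.2.2.2 : ℂ) * b.2.1)) * h

/-- product of monomials -/
def mulM (a b : M3) : M3 := (a.1 + b.1, a.2.1 + b.2.1, a.2.2 + b.2.2)

theorem evM_mul (A : ℝ) (B : ℂ) (a b : M3) : evM A B (mulM a b) = evM A B a * evM A B b := by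
  unfold evM mulM
  simp only [pow_add]
  ring

/-- insertion of a term -/
def ins (m : M3) (c : Z4) : PZ → PZ
  | [] => [(m, c)]
  | x :: p => if x.1 = m then (m, add4 c x.2) :: p else x :: ins m c p

theorem evP_ins (A : ℝ) (B : ℂ) (m : M3) (c : Z4) : ∀ p : PZ,
    evP A B (ins m c p) = ev4 c * evM A B m + evP A B p
  | [] => by simp [ins]
  | x :: p => by
    unfold ins
    split_ifs with h
    · rw [evP_cons, evP_cons, ev4_add, h]; ring
    · rw [evP_cons, evP_cons, evP_ins A B m c p]; ring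

/-- addition with merging -/
def addP : PZ → PZ → PZ
  | [], q => q
  | x :: p, q => addP p (ins x.1 x.2 q)

theorem evP_add (A : ℝ) (B : ℂ) : ∀ p q : PZ, evP A B (addP p q) = evP A B p + evP A B q
  | [], q => by simp [addP]
  | x :: p, q => by
    rw [addP, evP_add A B p, evP_ins, evP_cons]; ring

/-- application of an operation to the coefficients, with a monomial factor -/
def mapP (m : M3) (f : Z4 → Z4) : PZ → PZ
  | [] => []
  | x :: p => (mulM m x.1, f x.2) :: mapP m f p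

theorem evP_map (A : ℝ) (B : ℂ) (m : M3) (f : Z4 → Z4) (k : ℂ) (hf : ∀ c, ev4 (f c) = k * ev4 c) : ∀ p : PZ,
    evP A B (mapP m f p) = k * evM A B m * evP A B p
  | [] => by simp [mapP]
  | x :: p => by
    rw [mapP, evP_cons, evP_cons, evP_map A B m f k hf p, hf, evM_mul]; ring

/-- general product -/
def mulP : PZ → PZ → PZ
  | [], _ => []
  | x :: p, q => addP (mapP x.1 (mul4 x.2) q) (mulP p q)

theorem evP_mul (A : ℝ) (B : ℂ) : ∀ p q : PZ, evP A B (mulP p q) = evP A B p * evP A B q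
  | [], q => by simp [mulP]
  | x :: p, q => by
    rw [mulP, evP_add, evP_map A B x.1 (mul4 x.2) (ev4 x.2) (ev4_mul x.2), evP_mul A B p, evP_cons]; ring

/-- real multiple -/
def scP (k : ℤ) (p : PZ) : PZ := mapP (0, 0, 0) (sc4 k) p

theorem evM_zero (A : ℝ) (B : ℂ) : evM A B (0, 0, 0) = 1 := by simp [evM]

theorem evP_sc (A : ℝ) (B : ℂ) (k : ℤ) (p : PZ) : evP A B (scP k p) = (k : ℂ) * evP A B p := by
  rw [scP, evP_map A B _ _ (k : ℂ) (ev4_sc k), evM_zero, mul_one]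

/-- multiple -/
def smP (c : Z4) (p : PZ) : PZ := mapP (0, 0, 0) (mul4 c) p

theorem evP_sm (A : ℝ) (B : ℂ) (c : Z4) (p : PZ) : evP A B (smP c p) = ev4 c * evP A B p := by
  rw [smP, evP_map A B _ _ (ev4 c) (ev4_mul c), evM_zero, mul_one]

/-- `i` times -/
def rotP (p : PZ) : PZ := mapP (0, 0, 0) rot4 p

theorem evP_rot (A : ℝ) (B : ℂ) (p : PZ) : evP A B (rotP p) = Complex.I * evP A B p := by
  rw [rotP, evP_map A B _ _ Complex.I ev4_rot, evM_zero, mul_one]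

/-- conjugate -/
def cjP : PZ → PZ
  | [] => []
  | x :: p => ((x.1.1, x.1.2.2, x.1.2.1), cj4 x.2) :: cjP p

theorem evP_cj (A : ℝ) (B : ℂ) : ∀ p : PZ, evP A B (cjP p) = (starRingEnd ℂ) (evP A B p)
  | [] => by simp [cjP]
  | x :: p => by
    rw [cjP, evP_cons, evP_cons, evP_cj A B p, map_add, map_mul, ev4_cj]
    have h2 : evM A B (x.1.1, x.1.2.2, x.1.2.1) = (starRingEnd ℂ) (evM A B x.1) := by
      unfold evM
      simp only [map_mul, map_pow, Complex.conj_conj, Complex.conj_ofReal]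
      ring
    rw [h2]

/-- all coefficients vanish -/
def zeroP (p : PZ) : Bool := p.all fun x => x.2 == ((0, 0, 0, 0) : Z4)

theorem evP_zero (A : ℝ) (B : ℂ) : ∀ p : PZ, zeroP p = true → evP A B p = 0
  | [], _ => rfl
  | x :: p, h => by
    simp only [zeroP, List.all_cons, Bool.and_eq_true, beq_iff_eq] at h
    rw [evP_cons, evP_zero A B p h.2, h.1]
    simp [ev4]

/-- two polynomials with the same value: `d₂ p = d₁ q` -/
def eqP (d₁ d₂ : ℤ) (p q : PZ) : Bool := zeroP (addP (scP d₂ p) (scP (-d₁) q))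

theorem evP_eq {d₁ d₂ : ℤ} {p q : PZ} (h : eqP d₁ d₂ p q = true) (A : ℝ) (B : ℂ) (h1 : d₁ ≠ 0) (h2 : d₂ ≠ 0) :
    evP A B p / d₁ = evP A B q / d₂ := by
  have h3 := evP_zero A B _ h
  rw [evP_add, evP_sc, evP_sc] at h3
  push_cast at h3
  have h1' : (d₁ : ℂ) ≠ 0 := by exact_mod_cast h1
  have h2' : (d₂ : ℂ) ≠ 0 := by exact_mod_cast h2
  rw [div_eq_div_iff h1' h2']
  linear_combination h3

end Pool.Agent.Helper40.NR
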