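import Pool.Agent.Helper40.NR.Check

/-!
# Project RC, SHARP: table of the rows of `r`, m in [1, 17]
-/

set_option autoImplicit false
set_option maxRecDepth 100000

namespace Pool.Agent.Helper40.NR

/-- (m, polynomial, denominator, error): the row `l = m - 1` -/
def rT3 : List (ℤ × PZ × ℤ × EE) :=
 [(1, [((0, 0, 0), (0, 0, 44000, 0)), ((0, 1, 1), (0, 0, 4950, -4000)), ((2, 0, 0), (0, 0, 3870, 8500)), ((0, 2, 2), (0, 0, -1760, -1440)), ((2, 1, 1), (0, 0, -58575, 4516)), ((4, 0, 0), (0, 0, -10645, -3094))], 4000, [((0, 6), 64593), ((1, 5), 84784), ((2, 4), 3333186), ((3, 3), 111088), ((4, 2), 5442515), ((6, 0), 3810046)]),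
  (3, [((1, 0, 1), (0, 0, 21920, 0)), ((1, 1, 2), (0, 0, -7200, -28512)), ((3, 0, 1), (0, 0, -643005, 60588))], 48000, [((1, 5), 10633724), ((3, 3), 58155227), ((4, 2), 840240), ((5, 1), 119046852)]),
  (5, [((2, 0, 2), (0, 0, 173982, 0)), ((3, 1, 0), (0, 0, 139115, 0))], 48000, [((1, 5), 28808), ((2, 4), 23446568), ((3, 3), 7055571), ((4, 2), 121543781), ((5, 1), 29793542)]),
  (7, [((2, 0, 0), (0, 0, 245080, 0)), ((2, 1, 1), (0, 0, 154720, -147616)), ((4, 0, 0), (0, 0, -138075, 313684))], 112000, [((1, 5), 241568), ((2, 4), 25001311), ((3, 3), 3577816), ((4, 2), 103228300), ((6, 0), 89233418)]),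
  (9, [((1, 0, 1), (0, 0, 35520, 0)), ((1, 1, 2), (0, 0, 2320, 449712)), ((3, 0, 1), (0, 0, 2885375, -955638))], 144000, [((1, 5), 14204023), ((3, 3), 139622009), ((4, 2), 53800), ((5, 1), 443513711)]),
  (11, [((0, 0, 2), (0, 0, -51220, 0)), ((0, 1, 3), (0, 0, 0, -41448)), ((2, 0, 2), (0, 0, -719205, 88077))], 352000, [((0, 6), 1072568), ((1, 5), 308008), ((2, 4), 34184947), ((3, 3), 46888), ((4, 2), 211115337), ((5, 1), 13862400)]),
  (13, [((1, 0, 3), (0, 0, 36696, 0)), ((4, 0, 0), (0, 0, 957905, 0))], 249600, [((1, 5), 1144904), ((2, 4), 3065104), ((3, 3), 18159608), ((4, 2), 81683695), ((6, 0), 200213967)]),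
  (15, [((3, 0, 1), (0, 0, -3513, 0))], 640, [((1, 5), 725736), ((3, 3), 85624515), ((4, 2), 5440), ((5, 1), 485837245)]),
  (17, [((2, 0, 2), (0, 0, -8113, 0))], 6400, [((2, 4), 17432536), ((3, 3), 4112), ((4, 2), 171866286), ((5, 1), 1703608)])]

theorem rT3_ok : (rT3.all fun x => chkR x.1 x.2.1 x.2.2.1 x.2.2.2) = true := by decide +kernel

end Pool.Agent.Helper40.NR
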