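import Pool.Agent.Helper40.NR.Ker
import Pool.Agent.Helper40.NR.Base
import Pool.Agent.Helper61.RC.NFB

/-!
# Project RC, SHARP: the rows of the gradient of `NS` at the base (polynomials with error)
-/

set_option autoImplicit false

open MeasureTheory Set Filter Topology

namespace Pool.Agent.Helper40.NR

open Helper49.LT hiding sg
open Pool.Agent.Helper99.RC
open Pool.Agent.Helper61.RC

/-! ### lists -/

def cjL : List (ℤ × PZ) → List (ℤ × PZ)
  | [] => []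
  | x :: l => (x.1, cjP x.2) :: cjL l

theorem lk_cj : ∀ (L : List (ℤ × PZ)) (m : ℤ), lk (cjL L) m = cjP (lk L m)
  | [], m => rfl
  | x :: L, m => by
    rw [cjL, lk, lk]
    split_ifs
    · rfl
    · exact lk_cj L m

theorem lk_not : ∀ (L : List (ℤ × PZ)) (m : ℤ), m ∉ L.map Prod.fst → lk L m = []
  | [], m, _ => rfl
  | x :: L, m, h => by
    simp only [List.map_cons, List.mem_cons, not_or] at h
    rw [lk, if_neg (fun e => h.1 e.symm), lk_not L m h.2]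

theorem map_fst_cj : ∀ L : List (ℤ × PZ), (cjL L).map Prod.fst = L.map Prod.fst
  | [] => rfl
  | x :: L => by rw [cjL, List.map_cons, List.map_cons, map_fst_cj L]

/-- sum over a finite set = sum over the list -/
theorem sum_lk (S : Finset ℤ) (F : ℤ → PZ → ℂ) (hF : ∀ n, F n [] = 0) : ∀ L : List (ℤ × PZ),
    (L.map Prod.fst).Nodup → (∀ n ∈ L.map Prod.fst, n ∈ S) →
    ∑ n ∈ S, F n (lk L n) = (L.map fun x => F x.1 x.2).sum
  | [], _, _ => by simp [lk, hF]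
  | x :: L, h1, h2 => by
    rw [List.map_cons, List.nodup_cons] at h1
    have ih := sum_lk S F hF L h1.2 fun n hn => h2 n (by simp only [List.map_cons, List.mem_cons]; exact Or.inr hn)
    rw [List.map_cons, List.sum_cons, ← ih]
    have hx : x.1 ∈ S := h2 x.1 (by simp)
    have hlx : lk L x.1 = [] := lk_not L x.1 h1.1
    have : ∀ n ∈ S, F n (lk (x :: L) n) = F n (lk L n) + if n = x.1 then F x.1 x.2 else 0 := by
      intro n _
      rw [lk]
      by_cases hn : x.1 = n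
      · subst hn
        rw [if_pos rfl, if_pos rfl, hlx, hF, zero_add]
      · rw [if_neg hn, if_neg (fun e => hn e.symm), add_zero]
    rw [Finset.sum_congr rfl this, Finset.sum_add_distrib, Finset.sum_ite_eq' S x.1, if_pos hx]
    ring

/-! ### the kernel for both sides -/

/-- `ε = 1`: `CS m n`, `ε = -1`: `CS n m` -/
noncomputable def CSe (ε : ℤ) (A : ℝ) (B : ℂ) (m n : ℤ) : ℂ :=
  if ε = 1 then CS (dd A B) A Real.pi m n else CS (dd A B) A Real.pi n m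

theorem CSe_zero (ε : ℤ) (A : ℝ) (B : ℂ) (m n : ℤ) (h : ¬ (3 : ℤ) ∣ n - m) : CSe ε A B m n = 0 := by
  unfold CSe
  have h' : ¬ (3 : ℤ) ∣ m - n := fun h' => h (by omega)
  split_ifs
  · unfold CS; rw [if_neg h]
  · unfold CS; rw [if_neg h']

theorem CSe_appr (ε : ℤ) (hε : ε = 1 ∨ ε = -1) (A : ℝ) (hA : 0 ≤ A) (B : ℂ) (m n : ℤ) (h : (3 : ℤ) ∣ n - m)
    (T : ℕ) : ‖CSe ε A B m n - apK A B (ε * ((n - m) / 3)) (m + n) T‖ ≤
      errK A B ((n - m) / 3).natAbs (m + n) T := by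
  rcases hε with e | e
  · subst e
    unfold CSe
    rw [if_pos rfl, one_mul]
    exact CS_appr A hA B m n h T
  · subst e
    unfold CSe
    rw [if_neg (by norm_num)]
    have h' : (3 : ℤ) ∣ m - n := by omega
    have h1 := CS_appr A hA B n m h' T
    have e1 : (m - n) / 3 = -((n - m) / 3) := by omega
    rw [e1, Int.natAbs_neg, add_comm n m] at h1
    rw [neg_one_mul]
    exact h1

/-! ### one term -/

theorem trm_val (A : ℝ) (B : ℂ) (DB j p : ℤ) (T : ℕ) (q : PZ) (hD : DB ≠ 0) (hp : p ≠ 0) :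
    evF A B (trm DB j p T q) = 2 / (p : ℂ) * (evP A B q / (DB : ℂ) * apK A B j p T) := by
  unfold evF trm apK
  simp only
  rw [evP_add, evP_mulQP, evP_mulQP, evP_rot]
  have h1 := kap_pos j.natAbs p T
  have h1' : (((kap j.natAbs p T).1 : ℤ) : ℂ) ≠ 0 := by exact_mod_cast h1.ne'
  have h2 : (DB : ℂ) ≠ 0 := by exact_mod_cast hD
  have h3 : (p : ℂ) ≠ 0 := by exact_mod_cast hp
  have h4 : evM A B (j.natAbs, 0, 0) = (A : ℂ) ^ j.natAbs := by
    unfold evM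
    simp
  rw [h4]
  push_cast
  field_simp

theorem trm_ne (DB j p : ℤ) (T : ℕ) (q : PZ) (hD : DB ≠ 0) (hp : p ≠ 0) : (trm DB j p T q).1 ≠ 0 := by
  have h1 := kap_pos j.natAbs p T
  simp only [trm]
  exact mul_ne_zero (mul_ne_zero hD hp) h1.ne'

/-! ### the row -/

/-- least degree -/
def dgP : PZ → ℕ
  | [] => 0
  | x :: p => match p with
    | [] => x.1.1 + x.1.2.1 + x.1.2.2
    | _ :: _ => min (x.1.1 + x.1.2.1 + x.1.2.2) (dgP p)

/-- number of terms of the kernel for an error of degree `> D` -/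
def tT (D : ℕ) (q : PZ) (jn : ℕ) : ℕ := (D + 2 - dgP q - jn) / 2

def terms (DB ε : ℤ) (D : ℤ → ℤ → ℕ) (m : ℤ) : List (ℤ × PZ) → List FP
  | [] => []
  | x :: L =>
    if (x.1 - m) % 3 = 0 ∧ m + x.1 ≠ 0 ∧ tT (D m x.1) x.2 ((x.1 - m) / 3).natAbs ≠ 0 then
      trm DB (ε * ((x.1 - m) / 3)) (m + x.1) (tT (D m x.1) x.2 ((x.1 - m) / 3).natAbs) x.2 :: terms DB ε D m L
    else terms DB ε D m L

def rowF (DB ε : ℤ) (D : ℤ → ℤ → ℕ) (Lo L : List (ℤ × PZ)) (m : ℤ) : FP :=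
  if m = 0 then
    sumF ((20 * DB, mulQP (0, 0, 0) (-1) (dQ 1) (rotP (lk L 0))) :: terms DB ε D m L)
  else sumF ((DB * m, lk Lo m) :: terms DB ε D m L)

/-- the row -/
noncomputable def GR (ε : ℤ) (A : ℝ) (B : ℂ) (DB : ℤ) (S : Finset ℤ) (Lo L : List (ℤ × PZ)) (m : ℤ) : ℂ :=
  evP A B (lk Lo m) / (DB : ℂ) / (m : ℂ)
    + ∑ n ∈ S, 2 / ((m + n : ℤ) : ℂ) * (evP A B (lk L n) / (DB : ℂ) * CSe ε A B m n)
    + (if m = 0 then -Complex.I * (dd A B : ℂ) * (evP A B (lk L 0) / (DB : ℂ)) else 0)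

/-- the error of a row -/
def errs (br : ℕ → ℤ → ℕ → BR) (k DB : ℕ) (D : ℤ → ℤ → ℕ) (m : ℤ) : List (ℤ × PZ) → EE → EE
  | [], acc => acc
  | x :: L, acc =>
    if (x.1 - m) % 3 = 0 ∧ m + x.1 ≠ 0 then
      errs br k DB D m L (er2 k DB (br ((x.1 - m) / 3).natAbs (m + x.1) (tT (D m x.1) x.2 ((x.1 - m) / 3).natAbs)) x.2 acc)
    else errs br k DB D m L acc

theorem terms_ne (DB ε : ℤ) (D : ℤ → ℤ → ℕ) (m : ℤ) (hD : DB ≠ 0) : ∀ L : List (ℤ × PZ),
    ∀ f ∈ terms DB ε D m L, f.1 ≠ 0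
  | [], f, hf => by simp [terms] at hf
  | x :: L, f, hf => by
    rw [terms] at hf
    split_ifs at hf with h
    · rcases List.mem_cons.1 hf with h1 | h1
      · rw [h1]
        exact trm_ne _ _ _ _ _ hD h.2.1
      · exact terms_ne DB ε D m hD L f h1
    · exact terms_ne DB ε D m hD L f hf

theorem apK_zero (A : ℝ) (B : ℂ) (j p : ℤ) : apK A B j p 0 = 0 := by
  unfold apK kap hJ hE
  simp [mulQ]

theorem terms_err (br : ℕ → ℤ → ℕ → BR) {A : ℝ} (hA : 0 ≤ A) (hA' : A ≤ 1 / 5) {B : ℂ} (hB : ‖B‖ ≤ 1 / 8)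
    (hbr : ∀ (j : ℕ) (p : ℤ) (T : ℕ), p ≠ 0 → 2 / |(p : ℝ)| * errK A B j p T ≤ evB A ‖B‖ (br j p T))
    (hbr0 : ∀ (j : ℕ) (p : ℤ) (T : ℕ), p ≠ 0 → ∀ e ∈ br j p T, 0 < e.2.2)
    (k : ℕ) (hk : 1 ≤ k) (DB : ℕ) (hD : 0 < DB) (ε : ℤ) (hε : ε = 1 ∨ ε = -1) (D : ℤ → ℤ → ℕ) (m : ℤ) :
    ∀ (L : List (ℤ × PZ)) (acc : EE),
    ‖(L.map fun x => 2 / ((m + x.1 : ℤ) : ℂ) * (evP A B x.2 / ((DB : ℤ) : ℂ) * CSe ε A B m x.1)).sum
      - ((terms DB ε D m L).map (evF A B)).sum‖ + evE A ‖B‖ acc ≤ evE A ‖B‖ (errs br k DB D m L acc)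
  | [], acc => by simp [terms, errs]
  | x :: L, acc => by
    have hD' : (DB : ℤ) ≠ 0 := by exact_mod_cast hD.ne'
    rw [List.map_cons, List.sum_cons, terms, errs]
    by_cases h3 : (x.1 - m) % 3 = 0
    · by_cases hp : m + x.1 = 0
      · have e0 : ((m + x.1 : ℤ) : ℂ) = 0 := by rw [hp]; simp
        rw [if_neg (fun h => h.2.1 hp), if_neg (fun h => h.2 hp), e0, div_zero, zero_mul, zero_add]
        exact terms_err br hA hA' hB hbr hbr0 k hk DB hD ε hε D m L acc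
      · have h3' : (3 : ℤ) ∣ x.1 - m := Int.dvd_of_emod_eq_zero h3
        set j := (x.1 - m) / 3 with hj
        set T := tT (D m x.1) x.2 j.natAbs with hT
        rw [if_pos (show (x.1 - m) % 3 = 0 ∧ m + x.1 ≠ 0 from ⟨h3, hp⟩)]
        have ih := terms_err br hA hA' hB hbr hbr0 k hk DB hD ε hε D m L
          (er2 k DB (br j.natAbs (m + x.1) T) x.2 acc)
        have h1 := er2_le hA hA' (norm_nonneg B) hB hk hD (br j.natAbs (m + x.1) T)
          (hbr0 j.natAbs (m + x.1) T hp) x.2 acc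
        have h2 := CSe_appr ε hε A hA B m x.1 h3' T
        rw [← hj] at h2
        have h4 := hbr j.natAbs (m + x.1) T hp
        have h5 := abP_le hA B x.2
        have hDr : (0 : ℝ) < DB := by exact_mod_cast hD
        have hval : ∀ rest : ℂ, ‖2 / ((m + x.1 : ℤ) : ℂ) * (evP A B x.2 / ((DB : ℤ) : ℂ) * CSe ε A B m x.1)
            - 2 / ((m + x.1 : ℤ) : ℂ) * (evP A B x.2 / ((DB : ℤ) : ℂ) * apK A B (ε * j) (m + x.1) T)‖ ≤
            abP A ‖B‖ x.2 / DB * evB A ‖B‖ (br j.natAbs (m + x.1) T) := by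
          intro _
          rw [← mul_sub, ← mul_sub, norm_mul, norm_mul, norm_div, norm_div]
          have e1 : ‖(2 : ℂ)‖ / ‖((m + x.1 : ℤ) : ℂ)‖ = 2 / |((m + x.1 : ℤ) : ℝ)| := by
            rw [Complex.norm_intCast]
            norm_num
          have e2 : ‖(((DB : ℕ) : ℤ) : ℂ)‖ = (DB : ℝ) := by
            simp
          rw [e1, e2]
          have hpp : 0 ≤ 2 / |((m + x.1 : ℤ) : ℝ)| := by positivity
          have he0 : 0 ≤ errK A B j.natAbs (m + x.1) T := (norm_nonneg _).trans h2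
          have hab : 0 ≤ abP A ‖B‖ x.2 / DB := div_nonneg ((norm_nonneg _).trans h5) hDr.le
          calc 2 / |((m + x.1 : ℤ) : ℝ)| * (‖evP A B x.2‖ / DB * ‖CSe ε A B m x.1 - apK A B (ε * j) (m + x.1) T‖)
              ≤ 2 / |((m + x.1 : ℤ) : ℝ)| * (abP A ‖B‖ x.2 / DB * errK A B j.natAbs (m + x.1) T) := by
                gcongr
            _ = abP A ‖B‖ x.2 / DB * (2 / |((m + x.1 : ℤ) : ℝ)| * errK A B j.natAbs (m + x.1) T) := by ring
            _ ≤ abP A ‖B‖ x.2 / DB * evB A ‖B‖ (br j.natAbs (m + x.1) T) := by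
                exact mul_le_mul_of_nonneg_left h4 hab
        have hv := hval 0
        have hsum : ((if (x.1 - m) % 3 = 0 ∧ m + x.1 ≠ 0 ∧ T ≠ 0 then
            trm DB (ε * j) (m + x.1) T x.2 :: terms DB ε D m L else terms DB ε D m L).map (evF A B)).sum =
            2 / ((m + x.1 : ℤ) : ℂ) * (evP A B x.2 / ((DB : ℤ) : ℂ) * apK A B (ε * j) (m + x.1) T)
            + ((terms DB ε D m L).map (evF A B)).sum := by
          by_cases hT0 : T = 0
          · rw [if_neg (fun h => h.2.2 hT0), hT0, apK_zero]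
            ring
          · rw [if_pos ⟨h3, hp, hT0⟩, List.map_cons, List.sum_cons, trm_val A B _ _ _ _ _ hD' hp]
        rw [hsum]
        have htri : ‖2 / ((m + x.1 : ℤ) : ℂ) * (evP A B x.2 / ((DB : ℤ) : ℂ) * CSe ε A B m x.1)
            + (L.map fun x => 2 / ((m + x.1 : ℤ) : ℂ) * (evP A B x.2 / ((DB : ℤ) : ℂ) * CSe ε A B m x.1)).sum
            - (2 / ((m + x.1 : ℤ) : ℂ) * (evP A B x.2 / ((DB : ℤ) : ℂ) * apK A B (ε * j) (m + x.1) T)
            + ((terms DB ε D m L).map (evF A B)).sum)‖ ≤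
            ‖2 / ((m + x.1 : ℤ) : ℂ) * (evP A B x.2 / ((DB : ℤ) : ℂ) * CSe ε A B m x.1)
            - 2 / ((m + x.1 : ℤ) : ℂ) * (evP A B x.2 / ((DB : ℤ) : ℂ) * apK A B (ε * j) (m + x.1) T)‖
            + ‖(L.map fun x => 2 / ((m + x.1 : ℤ) : ℂ) * (evP A B x.2 / ((DB : ℤ) : ℂ) * CSe ε A B m x.1)).sum
            - ((terms DB ε D m L).map (evF A B)).sum‖ := by
          refine le_trans (le_of_eq ?_) (norm_add_le _ _)
          congr 1
          ring
        linarith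
    · rw [if_neg (fun h => h3 h.1), if_neg (fun h => h3 h.1),
        CSe_zero ε A B m x.1 (fun h => h3 (Int.emod_eq_zero_of_dvd h)), mul_zero, mul_zero, zero_add]
      exact terms_err br hA hA' hB hbr hbr0 k hk DB hD ε hε D m L acc

/-- **the row lemma** -/
theorem row_err (br : ℕ → ℤ → ℕ → BR) {A : ℝ} (hA : 0 ≤ A) (hA' : A ≤ 1 / 5) {B : ℂ} (hB : ‖B‖ ≤ 1 / 8)
    (hbr : ∀ (j : ℕ) (p : ℤ) (T : ℕ), p ≠ 0 → 2 / |(p : ℝ)| * errK A B j p T ≤ evB A ‖B‖ (br j p T))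
    (hbr0 : ∀ (j : ℕ) (p : ℤ) (T : ℕ), p ≠ 0 → ∀ e ∈ br j p T, 0 < e.2.2)
    (k : ℕ) (hk : 1 ≤ k) (DB : ℕ) (hD : 0 < DB) (ε : ℤ) (hε : ε = 1 ∨ ε = -1) (D : ℤ → ℤ → ℕ) (m : ℤ)
    (S : Finset ℤ) (Lo L : List (ℤ × PZ)) (hL : (L.map Prod.fst).Nodup) (hS : ∀ n ∈ L.map Prod.fst, n ∈ S)
    (acc : EE) :
    ‖GR ε A B DB S Lo L m - evF A B (rowF DB ε D Lo L m)‖ + evE A ‖B‖ acc ≤
      evE A ‖B‖ (errs br k DB D m L acc) ∧ (rowF DB ε D Lo L m).1 ≠ 0 := by
  have hD' : (DB : ℤ) ≠ 0 := by exact_mod_cast hD.ne'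
  have hDc : ((DB : ℤ) : ℂ) ≠ 0 := by exact_mod_cast hD'
  have h1 := terms_err br hA hA' hB hbr hbr0 k hk DB hD ε hε D m L acc
  have h2 := sum_lk S (fun n q => 2 / ((m + n : ℤ) : ℂ) * (evP A B q / ((DB : ℤ) : ℂ) * CSe ε A B m n))
    (fun n => by simp) L hL hS
  have h3 := terms_ne DB ε D m hD' L
  unfold rowF
  by_cases hm : m = 0
  · subst hm
    rw [if_pos rfl]
    have hne : ∀ f ∈ ((20 * (DB : ℤ), mulQP (0, 0, 0) (-1) (dQ 1) (rotP (lk L 0))) :: terms DB ε D 0 L : List FP),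
        f.1 ≠ 0 := by
      intro f hf
      rcases List.mem_cons.1 hf with h | h
      · rw [h]
        exact mul_ne_zero (by norm_num) hD'
      · exact h3 f h
    refine ⟨?_, sumF_ne _ hne⟩
    rw [evF_sum A B _ hne, List.map_cons, List.sum_cons]
    refine le_trans (le_of_eq ?_) h1
    congr 2
    unfold GR
    rw [if_pos rfl]
    have e2 : ∑ n ∈ S, 2 / ((0 + n : ℤ) : ℂ) * (evP A B (lk L n) / ((DB : ℤ) : ℂ) * CSe ε A B 0 n) =
      (L.map fun x => 2 / ((0 + x.1 : ℤ) : ℂ) * (evP A B x.2 / ((DB : ℤ) : ℂ) * CSe ε A B 0 x.1)).sum := h2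
    rw [e2]
    have e3 : evF A B (20 * (DB : ℤ), mulQP (0, 0, 0) (-1) (dQ 1) (rotP (lk L 0))) =
        -Complex.I * (dd A B : ℂ) * (evP A B (lk L 0) / ((DB : ℤ) : ℂ)) := by
      unfold evF dd
      simp only
      rw [evP_mulQP, evQ_d, evP_rot, evM_zero]
      push_cast
      have hDc' : ((DB : ℕ) : ℂ) ≠ 0 := by exact_mod_cast hD.ne'
      field_simp
    rw [e3]
    simp only [Int.cast_zero, div_zero]
    ring
  · rw [if_neg hm]
    have hne : ∀ f ∈ (((DB : ℤ) * m, lk Lo m) :: terms DB ε D m L : List FP), f.1 ≠ 0 := by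
      intro f hf
      rcases List.mem_cons.1 hf with h | h
      · rw [h]
        exact mul_ne_zero hD' hm
      · exact h3 f h
    refine ⟨?_, sumF_ne _ hne⟩
    rw [evF_sum A B _ hne, List.map_cons, List.sum_cons]
    refine le_trans (le_of_eq ?_) h1
    congr 2
    unfold GR
    rw [if_neg hm, h2]
    have e3 : evF A B ((DB : ℤ) * m, lk Lo m) = evP A B (lk Lo m) / ((DB : ℤ) : ℂ) / (m : ℂ) := by
      unfold evF
      simp only
      push_cast
      rw [div_div]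
    rw [e3]
    ring

/-! ### the two sides -/

theorem conj_aC (A : ℝ) (B : ℂ) (m : ℤ) :
    (starRingEnd ℂ) (aC A B m) = evP A B (lk (cjL aL) m) / (((1600 : ℕ) : ℤ) : ℂ) := by
  unfold aC
  rw [map_div₀, lk_cj, evP_cj, Complex.conj_ofNat]
  norm_num

theorem conj_bC (A : ℝ) (B : ℂ) (m : ℤ) :
    (starRingEnd ℂ) (bC A B m) = evP A B (lk (cjL bL) m) / (((1600 : ℕ) : ℤ) : ℂ) := by
  unfold bC
  rw [map_div₀, lk_cj, evP_cj, Complex.conj_ofNat]
  norm_num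

theorem GA_GR (A : ℝ) (B : ℂ) (S : Finset ℤ) (m : ℤ) :
    GA (dd A B) A Real.pi S (aC A B) (bC A B) m = GR 1 A B ((1600 : ℕ) : ℤ) S (cjL aL) (cjL bL) m := by
  unfold GA GR CSe
  rw [conj_aC]
  simp_rw [conj_bC]
  simp only [if_true]

theorem GB_GR (A : ℝ) (B : ℂ) (S : Finset ℤ) (m : ℤ) :
    GB (dd A B) A Real.pi S (aC A B) (bC A B) m = GR (-1) A B ((1600 : ℕ) : ℤ) S bL aL m := by
  unfold GB GR CSe
  have e : ((-1 : ℤ) = 1) = False := by simp
  simp only [e, if_false]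
  have h1 : ∀ n : ℤ, aC A B n = evP A B (lk aL n) / (((1600 : ℕ) : ℤ) : ℂ) := fun n => by
    unfold aC; norm_num
  have h2 : ∀ n : ℤ, bC A B n = evP A B (lk bL n) / (((1600 : ℕ) : ℤ) : ℂ) := fun n => by
    unfold bC; norm_num
  simp_rw [h1, h2]
  congr 2
  refine Finset.sum_congr rfl fun n _ => ?_
  rw [add_comm n m]

end Pool.Agent.Helper40.NR
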