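import Pool.Agent.Helper40.NR.Val

/-!
# Project RC, SHARP: table of the value of `NS` at the base, m in [-11, -1]
-/

set_option autoImplicit false
set_option maxRecDepth 100000

namespace Pool.Agent.Helper40.NR

/-- (m, polynomial, denominator, error) of `a m GA m + conj (b m) GB m` -/
def vT1 : List (ℤ × PZ × ℤ × EE) :=
 [(-11, [], 1, [((2, 6), 8217), ((3, 5), 82916), ((5, 3), 379470)]),
  (-9, [((0, 2, 2), (-4840, 0, 0, -7040)), ((0, 3, 3), (0, -25344, -46584, 0)), ((2, 2, 2), (1702125, 53856, 98991, 2263680))], 57600000, [((0, 8), 3374), ((1, 7), 21054), ((2, 6), 1570397), ((3, 5), 556), ((4, 4), 15804193), ((5, 3), 646288)]),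
  (-7, [((2, 1, 1), (-34777620, 0, 0, -7605540)), ((2, 2, 2), (-2970680, -15096312, 61842312, 454360)), ((4, 1, 1), (159562860, 32079663, -131414913, 44454960))], 22400000, [((1, 7), 14078), ((2, 6), 8495570), ((3, 5), 2), ((4, 4), 60518772), ((5, 3), 374), ((6, 2), 120495143)]),
  (-6, [((2, 2, 2), (11, 0, 0, 16))], 400, [((2, 6), 6787933), ((3, 5), 344762), ((4, 4), 38229130), ((5, 3), 6486968)]),
  (-5, [((4, 0, 0), (-681900, 0, 0, -50460)), ((4, 1, 1), (-2523225, -54120, 733368, -720915)), ((6, 0, 0), (767590, 115005, -1558407, 252795))], 800000, [((1, 7), 17630), ((2, 6), 957146), ((3, 5), 124620), ((4, 4), 6841904), ((5, 3), 129124), ((6, 2), 20186927), ((8, 0), 15809254)]),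
  (-4, [((0, 1, 1), (-96000, 0, 0, 32000)), ((0, 2, 2), (0, 51200, 51200, 0)), ((2, 1, 1), (573280, -108800, -108800, -365280)), ((0, 3, 3), (40960, 0, 0, -40960)), ((2, 2, 2), (-154720, -589728, -341280, 202080)), ((4, 1, 1), (-812195, 1253172, 725220, 991135))], 128000, [((0, 8), 636940), ((1, 7), 83892), ((2, 6), 18797272), ((4, 4), 94182834), ((5, 3), 126654), ((6, 2), 120125153)]),
  (-3, [], 1, [((3, 5), 567224), ((4, 4), 9338590), ((5, 3), 2912634), ((6, 2), 2637738)]),
  (-2, [((2, 0, 0), (-768000, 0, 0, -768000)), ((2, 1, 1), (4012800, -384000, 230400, 2304000)), ((4, 0, 0), (-146400, 816000, -489600, 476640)), ((2, 2, 2), (-4838400, 1382400, -1109760, -1405440)), ((4, 1, 1), (-3537240, -2515104, 2627136, -1886400)), ((6, 0, 0), (948045, -897804, -571404, 390955))], 768000, [((1, 7), 51965), ((2, 6), 4572351), ((3, 5), 17018), ((4, 4), 23013673), ((5, 3), 212704), ((6, 2), 16907158), ((8, 0), 2978577)]),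
  (-1, [((2, 1, 1), (2082360, 0, 0, -230120)), ((2, 2, 2), (-57600, -468848, -4932848, 2829600)), ((4, 1, 1), (-6945425, 996302, 10482302, 1122365))], 1600000, [((1, 7), 15446), ((2, 6), 2580993), ((3, 5), 25134), ((4, 4), 16094343), ((5, 3), 2193536), ((6, 2), 29117250)])]

theorem vT1_ok : (vT1.all fun x => chkV x.1 x.2.1 x.2.2.1 x.2.2.2) = true := by decide +kernel

end Pool.Agent.Helper40.NR
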