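import Pool.Agent.Helper40.NR.Check

/-!
# Project RC, SHARP: the value of `NS` at the base: programs and soundness
-/

set_option autoImplicit false

open MeasureTheory Set Filter Topology

namespace Pool.Agent.Helper40.NR

open Helper49.LT hiding sg rR
open Pool.Agent.Helper99.RC
open Pool.Agent.Helper61.RC
open Pool.Agent.Helper31.NR

/-! ### product of an absolute value and an error polynomial -/

def mulE1 (k DB : ℕ) (x : M3 × Z4) : EE → EE → EE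
  | [], acc => acc
  | y :: e, acc =>
    let t := mkE k (x.1.1 + y.1.1) (x.1.2.1 + x.1.2.2 + y.1.2) (ab4 x.2 * y.2) (1000000000 * DB * 1000000)
    mulE1 k DB x e (insE t.1 t.2 acc)

def mulE (k DB : ℕ) : PZ → EE → EE → EE
  | [], _, acc => acc
  | x :: q, e, acc => mulE k DB q e (mulE1 k DB x e acc)

theorem mulE1_le {A β : ℝ} (hA : 0 ≤ A) (hA' : A ≤ 1 / 5) (hβ : 0 ≤ β) (hβ' : β ≤ 1 / 8) {k : ℕ} (hk : 1 ≤ k)
    {DB : ℕ} (hDB : 0 < DB) (x : M3 × Z4) : ∀ (e acc : EE),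
    (ab4 x.2 : ℝ) / 1000000000 * (A ^ x.1.1 * β ^ (x.1.2.1 + x.1.2.2)) / DB * evE A β e + evE A β acc ≤
      evE A β (mulE1 k DB x e acc)
  | [], acc => by simp [mulE1]
  | y :: e, acc => by
    rw [mulE1, evE_cons]
    have h1 := mulE1_le hA hA' hβ hβ' hk hDB x e
      (insE (mkE k (x.1.1 + y.1.1) (x.1.2.1 + x.1.2.2 + y.1.2) (ab4 x.2 * y.2) (1000000000 * DB * 1000000)).1
        (mkE k (x.1.1 + y.1.1) (x.1.2.1 + x.1.2.2 + y.1.2) (ab4 x.2 * y.2) (1000000000 * DB * 1000000)).2 acc)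
    refine le_trans ?_ h1
    rw [evE_ins]
    have h2 := mkE_le hA hA' hβ hβ' hk (x.1.1 + y.1.1) (x.1.2.1 + x.1.2.2 + y.1.2) (ab4 x.2 * y.2)
      (1000000000 * DB * 1000000) (by positivity)
    have h3 : ((ab4 x.2 * y.2 : ℕ) : ℝ) / ((1000000000 * DB * 1000000 : ℕ) : ℝ) *
        (A ^ (x.1.1 + y.1.1) * β ^ (x.1.2.1 + x.1.2.2 + y.1.2)) =
        (ab4 x.2 : ℝ) / 1000000000 * (A ^ x.1.1 * β ^ (x.1.2.1 + x.1.2.2)) / DB *
          ((y.2 : ℝ) / 1000000 * (A ^ y.1.1 * β ^ y.1.2)) := by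
      have h4 : (DB : ℝ) ≠ 0 := by exact_mod_cast hDB.ne'
      push_cast
      rw [pow_add, pow_add]
      field_simp
    rw [h3] at h2
    linarith

theorem mulE_le {A β : ℝ} (hA : 0 ≤ A) (hA' : A ≤ 1 / 5) (hβ : 0 ≤ β) (hβ' : β ≤ 1 / 8) {k : ℕ} (hk : 1 ≤ k)
    {DB : ℕ} (hDB : 0 < DB) (e : EE) : ∀ (q : PZ) (acc : EE),
    abP A β q / DB * evE A β e + evE A β acc ≤ evE A β (mulE k DB q e acc)
  | [], acc => by simp [mulE]
  | x :: q, acc => by
    rw [mulE, abP_cons]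
    have h1 := mulE_le hA hA' hβ hβ' hk hDB e q (mulE1 k DB x e acc)
    have h2 := mulE1_le hA hA' hβ hβ' hk hDB x e acc
    refine le_trans ?_ h1
    have e' : ((ab4 x.2 : ℝ) / 1000000000 * (A ^ x.1.1 * β ^ (x.1.2.1 + x.1.2.2)) + abP A β q) / DB * evE A β e =
        (ab4 x.2 : ℝ) / 1000000000 * (A ^ x.1.1 * β ^ (x.1.2.1 + x.1.2.2)) / DB * evE A β e
          + abP A β q / DB * evE A β e := by ring
    rw [e']
    linarith

/-! ### one summand of the value -/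

/-- separate errors of the two sides -/
def eA (k : ℕ) (m : ℤ) : EE := errs brk k 1600 DD m (cjL bL) []
def eB (k : ℕ) (m : ℤ) : EE := errs brk k 1600 DD m aL []

/-- `a m GA m + conj (b m) GB m` -/
def vF (m : ℤ) : FP :=
  let a := fA m
  let b := fB m
  addF (1600 * a.1, mulP (lk aL m) a.2) (1600 * b.1, mulP (cjP (lk bL m)) b.2)

def ms8 : List (ℕ × ℕ) := [(8, 0), (7, 1), (6, 2), (5, 3), (4, 4), (3, 5), (2, 6), (1, 7), (0, 8)]

def chkV (m : ℤ) (C : PZ) (dC : ℤ) (E : EE) : Bool :=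
  let k := 8 - dgP (lk aL m)
  decide (1 ≤ k) && chk 8 (vF m) C dC (mulE 8 1600 (lk aL m) (eA k m) (mulE 8 1600 (lk bL m) (eB k m) [])) E ms8

section

variable {A : ℝ} (hA : 0 ≤ A) (hA' : A ≤ 1 / 5) {B : ℂ} (hB : ‖B‖ ≤ 1 / 8) {S : Finset ℤ}
  (hS : Finset.Icc (-11 : ℤ) 13 ⊆ S)

include hA hA' hB hS

theorem rowA (k : ℕ) (hk : 1 ≤ k) (m : ℤ) :
    ‖GA (dd A B) A Real.pi S (aC A B) (bC A B) m - evF A B (fA m)‖ ≤ evE A ‖B‖ (eA k m) ∧ (fA m).1 ≠ 0 := by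
  have ha := row_err brk hA hA' hB (fun j p T hp => brk_le hA (by linarith) hB j hp T)
    (fun j p T hp => brk_pos hp j T) k hk 1600 (by norm_num) 1 (Or.inl rfl) DD m S (cjL aL) (cjL bL)
    (by rw [map_fst_cj]; exact nodup_b) (fun n hn => hS (keys_b n (by rwa [map_fst_cj] at hn))) []
  rw [evE_nil, add_zero] at ha
  rw [GA_GR]
  exact ha

theorem rowB (k : ℕ) (hk : 1 ≤ k) (m : ℤ) :
    ‖GB (dd A B) A Real.pi S (aC A B) (bC A B) m - evF A B (fB m)‖ ≤ evE A ‖B‖ (eB k m) ∧ (fB m).1 ≠ 0 := by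
  have ha := row_err brk hA hA' hB (fun j p T hp => brk_le hA (by linarith) hB j hp T)
    (fun j p T hp => brk_pos hp j T) k hk 1600 (by norm_num) (-1) (Or.inr rfl) DD m S bL aL
    nodup_a (fun n hn => hS (keys_a n hn)) []
  rw [evE_nil, add_zero] at ha
  rw [GB_GR]
  exact ha

theorem rowV (m : ℤ) {C : PZ} {dC : ℤ} {E : EE} (h : chkV m C dC E = true) :
    ‖aC A B m * GA (dd A B) A Real.pi S (aC A B) (bC A B) m
      + (starRingEnd ℂ) (bC A B m) * GB (dd A B) A Real.pi S (aC A B) (bC A B) m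
      - evP A B C / (dC : ℂ)‖ ≤ evE A ‖B‖ E := by
  unfold chkV at h
  simp only [Bool.and_eq_true, decide_eq_true_eq] at h
  set k := 8 - dgP (lk aL m) with hk
  obtain ⟨h1, h2⟩ := rowA hA hA' hB hS k h.1 m
  obtain ⟨h3, h4⟩ := rowB hA hA' hB hS k h.1 m
  refine chk_sound hA hA' hB (by norm_num) h.2 ?_
  have m1 := mulE_le (k := 8) hA hA' (norm_nonneg B) hB (by norm_num) (show 0 < 1600 by norm_num) (eA k m) (lk aL m)
    (mulE 8 1600 (lk bL m) (eB k m) [])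
  have m2 := mulE_le (k := 8) hA hA' (norm_nonneg B) hB (by norm_num) (show 0 < 1600 by norm_num) (eB k m) (lk bL m) []
  rw [evE_nil, add_zero] at m2
  set G := GA (dd A B) A Real.pi S (aC A B) (bC A B) m
  set H := GB (dd A B) A Real.pi S (aC A B) (bC A B) m
  have hF : evF A B (vF m) = aC A B m * evF A B (fA m) + (starRingEnd ℂ) (bC A B m) * evF A B (fB m) := by
    unfold vF
    simp only
    rw [evF_add A B (show (1600 * (fA m).1, mulP (lk aL m) (fA m).2).1 ≠ 0 from mul_ne_zero (by norm_num) h2)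
      (show (1600 * (fB m).1, mulP (cjP (lk bL m)) (fB m).2).1 ≠ 0 from mul_ne_zero (by norm_num) h4)]
    unfold evF aC bC
    simp only
    rw [evP_mul, evP_mul, evP_cj, map_div₀, Complex.conj_ofNat]
    push_cast
    ring
  rw [hF]
  have e : aC A B m * G + (starRingEnd ℂ) (bC A B m) * H
      - (aC A B m * evF A B (fA m) + (starRingEnd ℂ) (bC A B m) * evF A B (fB m)) =
      aC A B m * (G - evF A B (fA m)) + (starRingEnd ℂ) (bC A B m) * (H - evF A B (fB m)) := by ring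
  rw [e]
  refine (norm_add_le _ _).trans ?_
  rw [norm_mul, norm_mul, Complex.norm_conj]
  have n1 : ‖aC A B m‖ ≤ abP A ‖B‖ (lk aL m) / ((1600 : ℕ) : ℝ) := by
    unfold aC
    rw [norm_div]
    have : ‖(1600 : ℂ)‖ = ((1600 : ℕ) : ℝ) := by norm_num
    rw [this]
    exact div_le_div_of_nonneg_right (abP_le hA B _) (by norm_num)
  have n2 : ‖bC A B m‖ ≤ abP A ‖B‖ (lk bL m) / ((1600 : ℕ) : ℝ) := by
    unfold bC
    rw [norm_div]
    have : ‖(1600 : ℂ)‖ = ((1600 : ℕ) : ℝ) := by norm_num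
    rw [this]
    exact div_le_div_of_nonneg_right (abP_le hA B _) (by norm_num)
  have p1 : ‖aC A B m‖ * ‖G - evF A B (fA m)‖ ≤ abP A ‖B‖ (lk aL m) / ((1600 : ℕ) : ℝ) * evE A ‖B‖ (eA k m) :=
    mul_le_mul n1 h1 (norm_nonneg _) ((norm_nonneg _).trans n1)
  have p2 : ‖bC A B m‖ * ‖H - evF A B (fB m)‖ ≤ abP A ‖B‖ (lk bL m) / ((1600 : ℕ) : ℝ) * evE A ‖B‖ (eB k m) :=
    mul_le_mul n2 h3 (norm_nonneg _) ((norm_nonneg _).trans n2)
  linarith

end

end Pool.Agent.Helper40.NR
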